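import Pool.Agent.Zk89.PE.GFin
import Pool.Agent.Zk89.KC.Fin

/-!
# Kolmogorov extensions of Gaussian actions
-/

set_option autoImplicit false
set_option linter.unusedSectionVars false

open MeasureTheory Filter Topology Polynomial
open scoped ENNReal

noncomputable section

namespace Pool.Agent.Zk89.PE

open Pool.Agent.W761.Box (bx bxc BM)
open Pool.Agent.W761.Gauss (IsFactor IsGaussianAction BM_of_memLp)
open Pool.Agent.TH784.KE (KExt)
open Pool.Agent.Zk89.KC (Along part2 tendsto_one semi)

/-- Q1 with one parameter for the factors of Gaussian actions. -/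
theorem gauss_along {X Y : Type} [MeasurableSpace X] [MeasurableSpace Y] {μ : Measure X}
    [IsProbabilityMeasure μ] {ν : Measure Y} {d : ℕ} {T : Fin d → Equiv.Perm X}
    (hT : IsGaussianAction μ T) {R : Fin d → Equiv.Perm Y} (hRm : ∀ i, Measurable (R i).symm)
    (hR : ∀ i, MeasurePreserving (R i) ν ν) (hfac : IsFactor μ T ν R) :
    Along ν R fun f => MemLp f ∞ ν := by
  intro n P f hf
  have h1 := gauss_factor (Z := Unit) (ρ := Measure.dirac ()) (n := n) (k := 1) hT hRm hR hfac
    (V := fun _ => 1) (fun _ => measurable_id) (fun _ => MeasurePreserving.id _)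
    (fun _ _ => Commute.one_left _)
    (fun j i => Pool.Agent.Zk89.AP.sepP fun _ : Fin 1 => P i j)
    (fun j i s _ => (Finset.card_le_univ _).trans (by simp)) (fun _ => 0)
    (fun i s _ => (Finset.card_le_univ _).trans (by simp)) hf (F := fun _ => 1)
    (memLp_const 1)
  have hνp : IsProbabilityMeasure ν := by
    obtain ⟨π, hπ, -⟩ := hfac
    rw [← hπ.map_eq]
    exact Measure.isProbabilityMeasure_map hπ.measurable.aemeasurable
  have h2 := Measure.ae_ae_of_ae_prod h1
  refine h2.mono fun y hy => ?_
  obtain ⟨z, L, hL⟩ := hy.exists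
  refine ⟨L, (hL.comp tendsto_one).congr fun N => ?_⟩
  rw [Function.comp_apply, Pool.Agent.Zk89.MT.bxc_one]
  congr 1
  refine Finset.sum_congr rfl fun t _ => ?_
  rw [mul_one]
  refine Finset.prod_congr rfl fun j _ => ?_
  unfold mv ev
  simp only [Pool.Agent.Zk89.AP.eval_sepP, Fin.sum_univ_one]

/-- Kolmogorov extensions of systems for which Q1 with one parameter holds. -/
theorem ext_along {X Y G Z : Type} [CommGroup G] {mA : MeasurableSpace X}
    [mX : MeasurableSpace X]
    [MeasurableSpace Y] {μ : Measure X} [IsProbabilityMeasure μ] {ν : Measure Y}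
    {Φ : G →* Equiv.Perm X} {ℓ : G → ℝ} {d : ℕ}
    [mZ : MeasurableSpace Z] {η : Measure Z}
    {π : X → Z} (hπ : MeasurePreserving π μ η)
    (hK : KExt μ mA (mZ.comap π) Φ ℓ) (hinj : ∀ g : G, ℓ g = 0 → g = 1) (g : Fin d → G)
    {T : Fin d → Equiv.Perm Z} (hQ : Along η T fun f => MemLp f ∞ η)
    (hπT : ∀ i x, π (Φ (g i) x) = T i (π x))
    {R : Fin d → Equiv.Perm Y} (hRm : ∀ i, Measurable (R i).symm)
    (hR : ∀ i, MeasurePreserving (R i) ν ν) (hfac : IsFactor μ (fun i => Φ (g i)) ν R) :
    Along ν R fun f => MemLp f ∞ ν := by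
  refine part2 hK hinj g ?_ hRm hR hfac
  intro n P e he
  have hex : ∀ j, ∃ u : Z → ℂ, BM u ∧ e j = u ∘ π := by
    intro j
    obtain ⟨u, hu, hue⟩ := (he j).1.exists_eq_measurable_comp
    obtain ⟨C, hC⟩ := (he j).2
    refine ⟨fun z => if ‖u z‖ ≤ C then u z else 0, ⟨?_, max C 0, fun z => ?_⟩, ?_⟩
    · exact Measurable.ite (measurableSet_le hu.norm measurable_const) hu measurable_const
    · show ‖if ‖u z‖ ≤ C then u z else 0‖ ≤ max C 0
      split_ifs with h
      · exact h.trans (le_max_left _ _)
      · simp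
    · funext x
      have h1 : e j x = u (π x) := congrFun hue x
      show e j x = if ‖u (π x)‖ ≤ C then u (π x) else 0
      rw [if_pos (by rw [← h1]; exact hC x), h1]
  choose u hu hue using hex
  have hηp : IsProbabilityMeasure η := by
    rw [← hπ.map_eq]
    exact Measure.isProbabilityMeasure_map hπ.measurable.aemeasurable
  have h1 := hQ n P u fun j => by
    obtain ⟨hm, C, hC⟩ := hu j
    exact MemLp.of_bound hm.aestronglyMeasurable C (Eventually.of_forall hC)
  have hint : ∀ (E : Fin d → ℤ) (x : X), π ((List.ofFn fun i => Φ (g i) ^ E i).prod x) =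
      (List.ofFn fun i => T i ^ E i).prod (π x) := by
    have hz : ∀ (i : Fin d) (z : ℤ) (x : X), π ((Φ (g i) ^ z) x) = (T i ^ z) (π x) := by
      intro i z x
      have hn : ∀ (m : ℕ) (x : X), π ((Φ (g i) ^ m) x) = (T i ^ m) (π x) := by
        intro m
        induction m with
        | zero => intro x; simp
        | succ m ih =>
          intro x
          rw [pow_succ, pow_succ, Equiv.Perm.mul_apply, Equiv.Perm.mul_apply, ih, hπT]
      cases z with
      | ofNat m => simpa using hn m x
      | negSucc m =>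
        rw [zpow_negSucc, zpow_negSucc]
        apply (T i ^ (m + 1)).injective
        rw [← hn, ← Equiv.Perm.mul_apply, ← Equiv.Perm.mul_apply, mul_inv_cancel,
          mul_inv_cancel, Equiv.Perm.one_apply, Equiv.Perm.one_apply]
    intro E x
    exact semi (fun i => Φ (g i) ^ E i) (fun i => T i ^ E i) (fun i x => hz i _ x) x
  refine (hπ.quasiMeasurePreserving.ae h1).mono fun x hx => ?_
  obtain ⟨L, hL⟩ := hx
  refine ⟨L, hL.congr fun N => ?_⟩
  congr 1
  refine Finset.sum_congr rfl fun t _ => Finset.prod_congr rfl fun j _ => ?_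
  rw [hue j, Function.comp_apply, hint]

end Pool.Agent.Zk89.PE
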