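import Pool.Agent.Zk89.PE.Cmp

/-!
# The block decomposition
-/

set_option autoImplicit false
set_option linter.unusedSectionVars false

open Finset Filter Topology

noncomputable section

namespace Pool.Agent.Zk89.PE

open Pool.Agent.Zk89.BT (ml ml_sub ml_sum ml_smul ml_shift ml_add nrm nrm_nonneg nrm_sq Dom dom_sq
  ml_sq_sum th QQ QQ_pos QQ_ge dvd_QQ rI rI_pos rI_le SL Lc asym sum_inv_sq QQ_zero clog_pow_le
  le_clog_of_pow_le)
open Pool.Agent.Zk89.MT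

theorem sum_quarter (S : Finset ℕ) (t₀ : ℕ) (hS : ∀ t ∈ S, t₀ ≤ t) (c : ℝ) (hc : 0 ≤ c) :
    ∑ t ∈ S, (c / 2 ^ t) ^ 2 ≤ c ^ 2 * (4 / 3) * (1 / 4) ^ t₀ := by
  have h1 : ∀ t : ℕ, (c / 2 ^ t) ^ 2 = c ^ 2 * (1 / 4 : ℝ) ^ t := by
    intro t
    rw [div_pow, ← pow_mul, mul_comm t 2, pow_mul, one_div, inv_pow, div_eq_mul_inv]
    norm_num
  simp only [h1]
  rw [← mul_sum, mul_assoc]
  refine mul_le_mul_of_nonneg_left ?_ (sq_nonneg c)
  have hs : Summable fun t : ℕ => (1 / 4 : ℝ) ^ (t₀ + t) := by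
    simp only [pow_add]
    exact (summable_geometric_of_lt_one (by norm_num) (by norm_num)).mul_left _
  have h2 : ∑ t ∈ S, (1 / 4 : ℝ) ^ t = ∑ t ∈ S.image (fun t => t - t₀), (1 / 4 : ℝ) ^ (t₀ + t) := by
    rw [sum_image]
    · refine sum_congr rfl fun t ht => ?_
      rw [Nat.add_sub_cancel' (hS t ht)]
    · intro x hx y hy h
      have := hS x hx
      have := hS y hy
      simp only at h
      omega
  rw [h2]
  refine (hs.sum_le_tsum _ fun t _ => by positivity).trans (le_of_eq ?_)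
  simp only [pow_add]
  rw [tsum_mul_left, tsum_geometric_of_lt_one (by norm_num) (by norm_num)]
  norm_num
  ring

/-- the constants of the levels -/
def lc (D : ℕ) (Cg κ K : ℝ) (s : ℕ) : ℝ :=
  (3 * (2 * κ ^ s) + 3 * (Cg * κ ^ s * K) + 2 ^ D * (Cg * κ ^ s)) +
    (2 * (2 * κ ^ s) + 2 * (Cg * κ ^ s * K) + Cg * κ ^ s * ((3 * s : ℕ) + 2))

theorem lc_nonneg {D : ℕ} {Cg κ K : ℝ} (hCg : 0 ≤ Cg) (hκ : 0 ≤ κ) (hK : 0 ≤ K) (s : ℕ) :
    0 ≤ lc D Cg κ K s := by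
  unfold lc
  positivity

theorem lc_summable (D : ℕ) {Cg κ : ℝ} (K : ℝ) (hκ0 : 0 < κ) (hκ1 : κ < 1) :
    Summable (lc D Cg κ K) := by
  have h1 : Summable fun s : ℕ => κ ^ s := summable_geometric_of_lt_one hκ0.le hκ1
  have h2 : Summable fun s : ℕ => (s : ℝ) ^ 1 * κ ^ s :=
    summable_pow_mul_geometric_of_norm_lt_one 1 (by
      rw [Real.norm_eq_abs, abs_of_pos hκ0]
      exact hκ1)
  have h3 := (h1.mul_left (6 + 3 * Cg * K + 2 ^ D * Cg + 4 + 2 * Cg * K + 2 * Cg)).add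
    (h2.mul_left (3 * Cg))
  refine h3.congr fun s => ?_
  unfold lc
  push_cast
  ring

/-- **The block decomposition.** -/
theorem blk (D : ℕ) : BLK D := by
  classical
  intro ε hε
  obtain ⟨K, hK⟩ := exists_PC D
  obtain ⟨Cg, κ, hCg, hκ, hκ1, hG⟩ := gauss_level D
  obtain ⟨C, m, hC, hm, hW⟩ := weyl D
  obtain ⟨t₁, ht₁, hB⟩ := exists_Bg D hC m
  have hκ0 : 0 < κ := by linarith
  have hK0 := hK.1
  have hCg0 : 0 ≤ Cg := by linarith
  obtain ⟨η, hη0, hη⟩ : ∃ η : ℝ, 0 < η ∧ (4 * η) ^ 2 ≤ ε := by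
    refine ⟨√ε / 4, by positivity, le_of_eq ?_⟩
    rw [mul_div_cancel₀ _ (by norm_num : (4 : ℝ) ≠ 0), Real.sq_sqrt hε.le]
  have hsum := lc_summable D (Cg := Cg) K hκ0 hκ1
  -- the level
  obtain ⟨s₀, hs₀, hs₀'⟩ : ∃ s₀ : ℕ, ∑' s, lc D Cg κ K (s + (s₀ + 1)) ≤ η ∧
      2 ^ D * (Cg * κ ^ (s₀ + 1)) ≤ η := by
    have h1 := (tendsto_sum_nat_add (lc D Cg κ K)).comp (tendsto_add_atTop_nat 1)
    have h2 : Tendsto (fun s : ℕ => 2 ^ D * (Cg * κ ^ (s + 1))) atTop (𝓝 0) := by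
      have h3 := ((tendsto_pow_atTop_nhds_zero_of_lt_one hκ0.le hκ1).comp
        (tendsto_add_atTop_nat 1)).const_mul (2 ^ D * Cg)
      rw [mul_zero] at h3
      refine h3.congr fun s => ?_
      rw [Function.comp_apply]
      ring
    obtain ⟨s₀, h4, h5⟩ := ((h1.eventually_lt_const hη0).and (h2.eventually_lt_const hη0)).exists
    exact ⟨s₀, h4.le, h5.le⟩
  obtain ⟨Q, hQdef⟩ : ∃ Q, Q = QQ s₀ := ⟨_, rfl⟩
  have hQ0 : 0 < Q := by rw [hQdef]; exact QQ_pos s₀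
  have hdvd : ∀ q, 1 ≤ q → q ≤ 2 ^ s₀ → q ∣ Q := fun q h1 h2 => by
    rw [hQdef]
    exact dvd_QQ h1 h2
  have hQ4 : 4 ^ s₀ ≤ Q := by rw [hQdef]; exact QQ_ge s₀
  set CQ : ℝ := 8 * Q + 4 * Real.pi * (D * (Q : ℝ) ^ D) with hCQ
  have hCQ0 : 0 ≤ CQ := by have := Real.pi_pos; positivity
  -- the starting time
  obtain ⟨t₂, ht₂⟩ : ∃ t₂ : ℕ, ∀ t ≥ t₂, CQ ^ 2 * (4 / 3) * (1 / 4 : ℝ) ^ t ≤ η ^ 2 := by
    have h1 := (tendsto_pow_atTop_nhds_zero_of_lt_one (r := (1 / 4 : ℝ)) (by norm_num)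
      (by norm_num)).const_mul (CQ ^ 2 * (4 / 3))
    rw [mul_zero] at h1
    obtain ⟨t₂, h⟩ := eventually_atTop.1 (h1.eventually_lt_const (show 0 < η ^ 2 by positivity))
    exact ⟨t₂, fun t ht => (h t ht).le⟩
  obtain ⟨t₃, ht₃⟩ : ∃ t₃ : ℕ, ∀ t ≥ t₃, 2 / (t : ℝ) ≤ η ^ 2 := by
    obtain ⟨n, hn⟩ := exists_nat_ge (2 / η ^ 2)
    refine ⟨max n 1, fun t ht => ?_⟩
    have h1 : (n : ℝ) ≤ t := by exact_mod_cast (le_max_left n 1).trans ht
    have h2 : (0 : ℝ) < t := by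
      have : 1 ≤ t := (le_max_right n 1).trans ht
      exact_mod_cast this
    rw [div_le_iff₀ h2]
    rw [div_le_iff₀ (by positivity)] at hn
    nlinarith [sq_nonneg η]
  set t₀ := max (max t₁ t₂) (max t₃ (8 ^ s₀)) with ht₀def
  have ht₀1 : t₁ ≤ t₀ := (le_max_left _ _).trans (le_max_left _ _)
  have ht₀2 : t₂ ≤ t₀ := (le_max_right _ _).trans (le_max_left _ _)
  have ht₀3 : t₃ ≤ t₀ := (le_max_left _ _).trans (le_max_right _ _)
  have ht₀4 : 8 ^ s₀ ≤ t₀ := (le_max_right _ _).trans (le_max_right _ _)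
  have ht₀pos : 1 ≤ t₀ := ht₁.trans ht₀1
  have hBg : ∀ t ≥ t₀, Bg D C m t := fun t ht => hB t (ht₀1.trans ht)
  have h2Q : ∀ t ≥ t₀, 2 * Q ≤ 2 ^ t := fun t ht => by
    rw [hQdef]
    exact ((hBg t ht).low (ht₀4.trans ht)).2.1
  obtain ⟨Klow, hKlow⟩ : ∃ Klow : ℝ, Klow = ((s₀ + 1 : ℕ) : ℝ) *
      ∑ s ∈ range (s₀ + 1), (3 * 2 + 3 * (Cg * κ ^ s * K)) ^ 2 := ⟨_, rfl⟩
  have hKlow0 : 0 ≤ Klow := by
    rw [hKlow]
    exact mul_nonneg (Nat.cast_nonneg _) (sum_nonneg fun _ _ => sq_nonneg _)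
  refine ⟨Q, t₀, Klow, hQ0, hKlow0, fun t ht => by have := h2Q t ht; omega, ?_⟩
  intro M _ B f T hT
  set ξ : ZMod M → ℕ → ℝ := fun k r => B r * th k with hξ
  have hnrm := nrm_nonneg f
  -- the comparison
  choose g hg hsm using fun k : ZMod M =>
    sm_dec D hCg0 hκ0.le hκ1.le hG s₀ Q hQ0 hdvd hQ4 (ξ k)
  set bt : ℕ → ZMod M → ℂ := fun t k =>
    bk D (fun r => (2 ^ t) ^ (r + 1) / Q) (fun r => Q * ξ k r) with hbt
  -- the low part
  set mU : ℕ → ZMod M → ℂ := fun t k => ∑ s ∈ range (s₀ + 1),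
    (tm D s t (ξ k) - gam D s (fun _ => 1 / (4 * (Q : ℝ))) (ξ k) * bt t k) with hmU
  have hT1 : ∀ t ∈ T, (1 : ℝ) ≤ t := fun t ht => by
    have := ht₀pos.trans (hT t ht)
    exact_mod_cast this
  have hEsum : ∑ t ∈ T, (1 / (t : ℝ)) ^ 2 ≤ 2 ^ 2 := by
    refine (sum_inv_sq ht₀pos T hT).trans ?_
    have : (1 : ℝ) ≤ t₀ := by exact_mod_cast ht₀pos
    rw [div_le_iff₀ (by linarith)]
    linarith
  have hlow : ∀ k, ∑ t ∈ T, ‖mU t k‖ ^ 2 ≤ Klow := by
    intro k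
    have h1 : ∀ t ∈ T, ‖mU t k‖ ^ 2 ≤ ((s₀ + 1 : ℕ) : ℝ) * ∑ s ∈ range (s₀ + 1),
        ‖tm D s t (ξ k) - gam D s (fun _ => 1 / (4 * (Q : ℝ))) (ξ k) * bt t k‖ ^ 2 := by
      intro t _
      have h2 : ‖mU t k‖ ≤ ∑ s ∈ range (s₀ + 1),
          ‖tm D s t (ξ k) - gam D s (fun _ => 1 / (4 * (Q : ℝ))) (ξ k) * bt t k‖ :=
        norm_sum_le _ _
      refine (pow_le_pow_left₀ (norm_nonneg _) h2 2).trans ?_
      have h3 := sq_sum_le_card_mul_sum_sq (s := range (s₀ + 1)) (f := fun s =>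
        ‖tm D s t (ξ k) - gam D s (fun _ => 1 / (4 * (Q : ℝ))) (ξ k) * bt t k‖)
      rwa [card_range] at h3
    refine (sum_le_sum h1).trans ?_
    rw [← mul_sum, sum_comm, hKlow]
    refine mul_le_mul_of_nonneg_left (sum_le_sum fun s hs => ?_) (Nat.cast_nonneg _)
    have hs' : s ≤ s₀ := Nat.lt_succ_iff.1 (mem_range.1 hs)
    have hsSL : ∀ t ∈ T, s ≤ SL C m t := by
      intro t ht
      have h2 : 8 ^ s₀ ≤ t := ht₀4.trans (hT t ht)
      have h3 : 2 ^ s ≤ C * t ^ m := by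
        calc 2 ^ s ≤ 2 ^ s₀ := Nat.pow_le_pow_right (by norm_num) hs'
          _ ≤ 8 ^ s₀ := Nat.pow_le_pow_left (by norm_num) _
          _ ≤ t := h2
          _ ≤ t ^ m := Nat.le_self_pow (by omega) _
          _ ≤ C * t ^ m := Nat.le_mul_of_pos_left _ (by omega)
      exact le_clog_of_pow_le h3
    have hle1 : ∀ t ∈ T, ∀ s : ℕ, (1 : ℝ) / 2 ^ s * (1 / t) ≤ 1 / t := by
      intro t ht s
      have h4 : (1 : ℝ) / 2 ^ s ≤ 1 := by
        rw [div_le_one (by positivity)]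
        exact one_le_pow₀ (by norm_num)
      have h5 : (0 : ℝ) ≤ 1 / t := by positivity
      calc (1 : ℝ) / 2 ^ s * (1 / t) ≤ 1 * (1 / t) := by gcongr
        _ = 1 / t := one_mul _
    exact low_sq D hK hCg0 hκ0.le hG (ξ k) s Q hQ0
      (fun q h1 h2 => hdvd q h1 (h2.trans (Nat.pow_le_pow_right (by norm_num) hs')))
      ((Nat.pow_le_pow_right (by norm_num) hs').trans hQ4) T (fun t => 1 / (t : ℝ))
      (fun t ht r hr => by
        rw [hQdef]
        exact ((hBg t (hT t ht)).low (ht₀4.trans (hT t ht))).1 r hr)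
      (fun t ht ξ' a q hF => ((hBg t (hT t ht)).maj (hsSL t ht) ξ' a q hF).trans (hle1 t ht s))
      (fun t ht => h2Q t (hT t ht))
      (fun t ht => (((hBg t (hT t ht)).low (ht₀4.trans (hT t ht))).2.2.1).trans (hle1 t ht s₀))
      (fun t ht => by
        rw [hQdef]
        exact (((hBg t (hT t ht)).low (ht₀4.trans (hT t ht))).2.2.2).trans (hle1 t ht s₀))
      (E := 2) (by norm_num) hEsum
  -- the error of the decomposition into levels
  have herr : Dom (T : Set ℕ) (fun t => ml (fun k => w D (2 ^ t) (ξ k) -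
      ∑ s ∈ range (SL C m t + 1), tm D s t (ξ k)) f) (η * nrm f) := by
    refine dom_sq T (fun t (k : ZMod M) => w D (2 ^ t) (ξ k) -
      ∑ s ∈ range (SL C m t + 1), tm D s t (ξ k)) f fun k => ?_
    have h2 : ∀ t ∈ T, ‖w D (2 ^ t) (ξ k) -
        ∑ s ∈ range (SL C m t + 1), tm D s t (ξ k)‖ ^ 2 ≤ (1 / (t : ℝ)) ^ 2 := by
      intro t ht
      have h3 := (hBg t (hT t ht)).err hW (ξ k)
      gcongr
    exact (sum_le_sum h2).trans ((sum_inv_sq ht₀pos T hT).trans (ht₃ t₀ ht₀3))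
  -- the high levels
  obtain ⟨tm1, htm1⟩ : ∃ tm1, ∀ t ∈ T, t ≤ tm1 := ⟨T.sup id, fun t ht => le_sup (f := id) ht⟩
  have hhigh : Dom (T : Set ℕ) (fun t x => ∑ s ∈ Ico (s₀ + 1) (SL C m tm1 + 1),
      if s ≤ SL C m t then ml (fun k => tm D s t (ξ k)) f x else 0) (η * nrm f) := by
    have h1 := Dom.sum (X := ZMod M) (S := (Icc t₀ tm1 : Set ℕ)) (Ico (s₀ + 1) (SL C m tm1 + 1))
      (fun s t x => if s ≤ SL C m t then ml (fun k => tm D s t (ξ k)) f x else 0)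
      (fun s => lc D Cg κ K s * nrm f)
      (fun s _ => level hK hCg0 hκ hG ht₀pos hBg tm1 s B f)
      (fun s _ => mul_nonneg (lc_nonneg hCg0 hκ0.le hK0 s) hnrm)
    have h2 := h1.mono (D := η * nrm f)
      (sum_nonneg fun s _ => mul_nonneg (lc_nonneg hCg0 hκ0.le hK0 s) hnrm) (by
      rw [← sum_mul]
      refine mul_le_mul_of_nonneg_right (le_trans ?_ hs₀) hnrm
      rw [sum_Ico_eq_sum_range]
      have h3 := ((summable_nat_add_iff (s₀ + 1)).2 hsum).sum_le_tsum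
        (range (SL C m tm1 + 1 - (s₀ + 1))) fun s _ => lc_nonneg hCg0 hκ0.le hK0 _
      refine le_trans (le_of_eq ?_) h3
      exact sum_congr rfl fun s _ => by rw [add_comm])
    refine h2.subset fun t ht => ?_
    rw [mem_coe, mem_Icc]
    exact ⟨hT t (mem_coe.1 ht), htm1 t (mem_coe.1 ht)⟩
  -- the high part of the comparison averages
  have hH : Dom (T : Set ℕ) (fun t => ml (fun k => g k * bt t k) f) (η * nrm f) := by
    have h1 := dom_box g f (C := Cg * κ ^ (s₀ + 1)) (by positivity) hg Q B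
      (fun t r => (2 ^ t) ^ (r + 1) / Q) T D
    refine h1.mono (by positivity) ?_
    rw [← mul_assoc]
    exact mul_le_mul_of_nonneg_right hs₀' hnrm
  -- the error of the comparison averages
  have hEr : Dom (T : Set ℕ) (fun t => ml (fun k => sm D Q t (ξ k) -
      (∑ s ∈ range (s₀ + 1), gam D s (fun _ => 1 / (4 * (Q : ℝ))) (ξ k) + g k) * bt t k) f)
      (η * nrm f) := by
    refine dom_sq T (fun t (k : ZMod M) => sm D Q t (ξ k) -
      (∑ s ∈ range (s₀ + 1), gam D s (fun _ => 1 / (4 * (Q : ℝ))) (ξ k) + g k) * bt t k) f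
      fun k => ?_
    have h2 : ∀ t ∈ T, ‖sm D Q t (ξ k) - (∑ s ∈ range (s₀ + 1),
        gam D s (fun _ => 1 / (4 * (Q : ℝ))) (ξ k) + g k) * bt t k‖ ^ 2 ≤ (CQ / 2 ^ t) ^ 2 := by
      intro t ht
      exact pow_le_pow_left₀ (norm_nonneg _) (hsm k t (h2Q t (hT t ht))) 2
    exact (sum_le_sum h2).trans ((sum_quarter T t₀ hT CQ hCQ0).trans (ht₂ t₀ ht₀2))
  have hη' : 0 ≤ η * nrm f := by positivity
  have htot := ((herr.add hhigh hη' hη').sub hH (by positivity) hη').sub hEr (by positivity) hη'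
  obtain ⟨h, h1, h2, h3⟩ := htot
  refine ⟨fun t x => ‖ml (mU t) f x‖, h, fun _ _ => norm_nonneg _, h1, fun t ht x => ?_, ?_, ?_⟩
  · have h4 := h2 t (mem_coe.2 ht) x
    have htt := htm1 t ht
    have hSLmono : SL C m t ≤ SL C m tm1 := by
      unfold SL
      exact Nat.clog_mono_right 2 (Nat.mul_le_mul_left _ (Nat.pow_le_pow_left htt _))
    have hs₀SL : s₀ ≤ SL C m t := by
      have h2 : 8 ^ s₀ ≤ t := ht₀4.trans (hT t ht)
      have h3 : 2 ^ s₀ ≤ C * t ^ m := by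
        calc 2 ^ s₀ ≤ 8 ^ s₀ := Nat.pow_le_pow_left (by norm_num) _
          _ ≤ t := h2
          _ ≤ t ^ m := Nat.le_self_pow (by omega) _
          _ ≤ C * t ^ m := Nat.le_mul_of_pos_left _ (by omega)
      exact le_clog_of_pow_le h3
    have hhi : ∑ s ∈ Ico (s₀ + 1) (SL C m tm1 + 1), (if s ≤ SL C m t then
        ml (fun k => tm D s t (ξ k)) f x else 0) =
        ml (fun k => ∑ s ∈ Ico (s₀ + 1) (SL C m t + 1), tm D s t (ξ k)) f x := by
      rw [ml_sum, ← sum_filter]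
      refine sum_congr ?_ fun _ _ => rfl
      ext s
      rw [mem_filter, mem_Ico, mem_Ico]
      omega
    beta_reduce at h4
    rw [hhi] at h4
    have e : ml (fun k => w D (2 ^ t) (fun r => B r * th k) -
        sm D Q t (fun r => B r * th k)) f x = ml (mU t) f x +
        (ml (fun k => w D (2 ^ t) (ξ k) - ∑ s ∈ range (SL C m t + 1), tm D s t (ξ k)) f x +
        ml (fun k => ∑ s ∈ Ico (s₀ + 1) (SL C m t + 1), tm D s t (ξ k)) f x -
        ml (fun k => g k * bt t k) f x -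
        ml (fun k => sm D Q t (ξ k) - (∑ s ∈ range (s₀ + 1),
          gam D s (fun _ => 1 / (4 * (Q : ℝ))) (ξ k) + g k) * bt t k) f x) := by
      rw [← ml_add, ← ml_sub, ← ml_sub, ← ml_add]
      congr 1
      funext k
      have h5 : ∑ s ∈ range (SL C m t + 1), tm D s t (ξ k) =
          ∑ s ∈ range (s₀ + 1), tm D s t (ξ k) +
          ∑ s ∈ Ico (s₀ + 1) (SL C m t + 1), tm D s t (ξ k) := by
        rw [Finset.sum_range_add_sum_Ico _ (by omega)]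
      rw [h5, hmU]
      simp only [sum_sub_distrib, add_mul, sum_mul]
      ring
    rw [e]
    exact (norm_add_le _ _).trans (by gcongr)
  · have h4 := ml_sq_sum T mU f (C := √Klow) fun k => by
      rw [Real.sq_sqrt hKlow0]
      exact hlow k
    refine h4.trans (le_of_eq ?_)
    rw [mul_pow, Real.sq_sqrt hKlow0, nrm_sq]
  · refine h3.trans ?_
    have e : (η * nrm f + η * nrm f + η * nrm f + η * nrm f) ^ 2 =
        (4 * η) ^ 2 * ∑ x, ‖f x‖ ^ 2 := by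
      rw [← nrm_sq]
      ring
    rw [e]
    exact mul_le_mul_of_nonneg_right hη (sum_nonneg fun _ _ => sq_nonneg _)

end Pool.Agent.Zk89.PE
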