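import Pool.Agent.Zk89.PE.Low

/-!
# The multiplier of the comparison averages
-/

set_option autoImplicit false
set_option linter.unusedSectionVars false

open Finset Filter Topology

noncomputable section

namespace Pool.Agent.Zk89.PE

open Pool.Agent.Zk89.BT (DK DK_norm_le DK_near DK_far' DK_cmp DK_int DK_add_int norm_ee_sub_one)
open Pool.Agent.Zk89.MT
open Pool.Agent.Helper602.MK (ee)
open Pool.Agent.Helper602.MK.N_J5b (ee_add ee_zero norm_ee ee_int ee_add_int)

theorem w_shift (D : ℕ) {N : ℕ} (hN : 1 ≤ N) (α β : ℕ → ℝ) :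
    ‖w D N (fun r => α r + β r) - w D N α‖ ≤ 2 * Real.pi * XX D N β := by
  have hN0 : (0 : ℝ) < N := by exact_mod_cast hN
  have e : w D N (fun r => α r + β r) - w D N α =
      (N : ℂ)⁻¹ * ∑ n ∈ range N, ee (ph D α n) * (ee (ph D β n) - 1) := by
    unfold w
    rw [← mul_sub, ← sum_sub_distrib]
    congr 1
    refine sum_congr rfl fun n _ => ?_
    rw [ph_add, ee_add]
    ring
  rw [e, norm_mul, norm_inv, Complex.norm_natCast, inv_mul_le_iff₀ hN0]
  refine (norm_sum_le _ _).trans ?_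
  have h1 : ∀ n ∈ range N, ‖ee (ph D α n) * (ee (ph D β n) - 1)‖ ≤
      2 * Real.pi * XX D N β := by
    intro n hn
    rw [norm_mul, norm_ee, one_mul]
    refine (norm_ee_sub_one _).trans ?_
    have := ph_le D β (mem_range.1 hn).le
    have hpi := Real.pi_pos
    gcongr
  refine (sum_le_sum h1).trans ?_
  rw [sum_const, card_range, nsmul_eq_mul]

theorem w_per (D : ℕ) {q : ℕ} (hq : 1 ≤ q) (a : ℕ → ℤ) {k : ℕ} (hk : 1 ≤ k) :
    w D (q * k) (fun r => (a r : ℝ) / q) = GS D q a := by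
  set g : ℕ → ℂ := fun n => ee (ph D (fun r => (a r : ℝ) / q) n) with hg
  have hper : ∀ n, g (n + q) = g n := ee_per D hq a
  have h1 : ∀ k n, g (q * k + n) = g n := by
    intro k
    induction k with
    | zero => intro n; rw [mul_zero, zero_add]
    | succ k ih =>
      intro n
      have : q * (k + 1) + n = q * k + n + q := by ring
      rw [this, hper, ih]
  have h2 : ∀ k : ℕ, ∑ n ∈ range (q * k), g n = k * ∑ n ∈ range q, g n := by
    intro k
    induction k with
    | zero => simp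
    | succ k ih =>
      rw [mul_add, mul_one, Finset.sum_range_add, ih]
      simp only [h1]
      push_cast
      ring
  have hk0 : (k : ℂ) ≠ 0 := by exact_mod_cast (show k ≠ 0 by omega)
  have hq0 : (q : ℂ) ≠ 0 := by exact_mod_cast (show q ≠ 0 by omega)
  show ((q * k : ℕ) : ℂ)⁻¹ * ∑ n ∈ range (q * k), g n = (q : ℂ)⁻¹ * ∑ n ∈ range q, g n
  rw [h2]
  push_cast
  field_simp

/-- lower bound for the side lengths -/
theorem side_ge {Q t : ℕ} (hQ0 : 0 < Q) (hQ : 2 * Q ≤ 2 ^ t) (r : ℕ) :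
    0 < (2 ^ t) ^ (r + 1) / Q ∧ (2 : ℝ) ^ t ≤ 2 * ((((2 ^ t) ^ (r + 1) / Q : ℕ) : ℝ) * Q) := by
  have hQX : 2 * Q ≤ (2 ^ t) ^ (r + 1) := hQ.trans (Nat.le_self_pow (by omega) _)
  refine ⟨Nat.div_pos (by omega) hQ0, ?_⟩
  have h12 := Nat.lt_div_mul_add (a := (2 ^ t) ^ (r + 1)) hQ0
  have h14 : (2 ^ t) ^ (r + 1) ≤ 2 * ((2 ^ t) ^ (r + 1) / Q * Q) := by omega
  have h15 : 2 ^ t ≤ (2 ^ t) ^ (r + 1) := Nat.le_self_pow (by omega) _
  have h16 : 2 ^ t ≤ 2 * ((2 ^ t) ^ (r + 1) / Q * Q) := h15.trans h14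
  exact_mod_cast h16

theorem bk_le_one_factor (D : ℕ) (L : ℕ → ℕ) (β : ℕ → ℝ) {r : ℕ} (hr : r < D) :
    ‖bk D L β‖ ≤ ‖DK (L r) (β r)‖ := by
  unfold bk
  rw [← mul_prod_erase _ _ (mem_range.2 hr), norm_mul]
  refine mul_le_of_le_one_right (norm_nonneg _) ?_
  rw [norm_prod]
  exact prod_le_one (fun _ _ => norm_nonneg _) fun _ _ => DK_norm_le _ _

/-- **The comparison multiplier.** -/
theorem sm_dec (D : ℕ) {Cg κ : ℝ} (hCg : 0 ≤ Cg) (hκ0 : 0 ≤ κ) (hκ1 : κ ≤ 1) (hG : GB D Cg κ)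
    (s₀ Q : ℕ) (hQ0 : 0 < Q) (hdvd : ∀ q, 1 ≤ q → q ≤ 2 ^ s₀ → q ∣ Q) (hQ4 : 4 ^ s₀ ≤ Q)
    (ξ : ℕ → ℝ) : ∃ g : ℂ, ‖g‖ ≤ Cg * κ ^ (s₀ + 1) ∧ ∀ t, 2 * Q ≤ 2 ^ t →
      ‖sm D Q t ξ - (∑ s ∈ range (s₀ + 1), gam D s (fun _ => 1 / (4 * Q)) ξ + g) *
        bk D (fun r => (2 ^ t) ^ (r + 1) / Q) (fun r => Q * ξ r)‖ ≤
      (8 * Q + 4 * Real.pi * (D * (Q : ℝ) ^ D)) / 2 ^ t := by
  classical
  have hQ0' : (0 : ℝ) < Q := by exact_mod_cast hQ0
  have hQ1' : (1 : ℝ) ≤ Q := by exact_mod_cast hQ0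
  have hpi := Real.pi_pos
  have hrad : ∀ s ≤ s₀, (1 : ℝ) / (4 * Q) ≤ 1 / (4 * 4 ^ s) := by
    intro s hs
    have h1 : ((4 : ℝ) ^ s) ≤ Q := by
      have : 4 ^ s ≤ Q := (Nat.pow_le_pow_right (by norm_num) hs).trans hQ4
      exact_mod_cast this
    have h2 : (0 : ℝ) < 4 ^ s := by positivity
    gcongr
  have hmult : ∀ (q : ℕ) (a : ℤ), 1 ≤ q → q ∣ Q → ∃ b : ℤ, (a : ℝ) / q = b / Q := by
    intro q a hq hqQ
    obtain ⟨c, hc⟩ := hqQ
    refine ⟨a * c, ?_⟩
    have hq0 : (q : ℝ) ≠ 0 := by exact_mod_cast (show q ≠ 0 by omega)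
    have hc0 : (c : ℝ) ≠ 0 := by
      intro h0
      have : c = 0 := by exact_mod_cast h0
      rw [this, mul_zero] at hc
      omega
    rw [hc]
    push_cast
    field_simp
  by_cases hz : ∃ b : ℕ → ℤ, ∀ r < D, |ξ r - b r / Q| ≤ 1 / (4 * Q)
  · obtain ⟨b, hb⟩ := hz
    obtain ⟨a, q, hq1, hqQ, hcop, hab⟩ := reduce D Q b hQ0
    have hq0 : (0 : ℝ) < q := by exact_mod_cast hq1
    have hdv : q ∣ Q := by
      refine cop_dvd (D := D) hq1 hQ0 hcop (a' := b) fun r hr => ?_
      have h1 := hab r hr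
      rw [div_eq_div_iff hQ0'.ne' hq0.ne'] at h1
      have h2 : ((b r * q : ℤ) : ℝ) = ((a r * Q : ℤ) : ℝ) := by
        push_cast
        exact h1
      exact (Int.cast_injective h2).symm
    set s := Nat.clog 2 q with hs
    have hFr : Fr D s (fun _ => 1 / (4 * (Q : ℝ))) ξ a q :=
      ⟨hq1, rfl, hcop, fun r hr => by rw [← hab r hr]; exact hb r hr⟩
    -- uniqueness
    have huniq : ∀ s' ≤ s₀, ∀ x : (ℕ → ℤ) × ℕ, Fr D s' (fun _ => 1 / (4 * (Q : ℝ))) ξ x.1 x.2 →
        s' = s := by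
      intro s' hs' ⟨a', q'⟩ hx
      simp only at hx
      have hq'Q : q' ∣ Q := hdvd q' hx.1 (hx.le.trans (Nat.pow_le_pow_right (by norm_num) hs'))
      have h1 : ∀ r < D, a r * q' = a' r * q := by
        intro r hr
        obtain ⟨A, hA⟩ := hmult q (a r) hq1 hdv
        obtain ⟨A', hA'⟩ := hmult q' (a' r) hx.1 hq'Q
        have h2 := hFr.2.2.2 r hr
        have h3 := hx.2.2.2 r hr
        rw [hA] at h2
        rw [hA'] at h3
        have h4 : |(A : ℝ) / Q - A' / Q| ≤ 1 / (4 * Q) + 1 / (4 * Q) := by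
          have e : (A : ℝ) / Q - A' / Q = (ξ r - A' / Q) - (ξ r - A / Q) := by ring
          rw [e]
          refine (abs_sub _ _).trans ?_
          linarith
        have h5 : |((A - A' : ℤ) : ℝ)| < 1 := by
          have e : (A : ℝ) / Q - A' / Q = ((A - A' : ℤ) : ℝ) / Q := by
            push_cast
            ring
          rw [e, abs_div, abs_of_pos hQ0', div_le_iff₀ hQ0'] at h4
          refine lt_of_le_of_lt h4 ?_
          have : (1 / (4 * (Q : ℝ)) + 1 / (4 * Q)) * Q = 1 / 2 := by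
            field_simp
            norm_num
          rw [this]
          norm_num
        have h6 : A - A' = 0 := by
          have h7 : |A - A'| < 1 := by
            have : ((|A - A'| : ℤ) : ℝ) < 1 := by
              push_cast
              push_cast at h5
              exact h5
            exact_mod_cast this
          exact Int.abs_lt_one_iff.1 h7
        have h7 : (a r : ℝ) / q = a' r / q' := by
          rw [hA, hA', show A = A' by omega]
        have hq'0 : (0 : ℝ) < q' := by exact_mod_cast hx.1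
        rw [div_eq_div_iff hq0.ne' hq'0.ne'] at h7
        exact_mod_cast h7
      obtain ⟨-, h2⟩ := cop_eq hq1 hx.1 hcop hx.2.2.1 h1
      rw [← hx.2.1, hs, h2]
    have hgz : ∀ s' ≤ s₀, s' ≠ s → gam D s' (fun _ => 1 / (4 * (Q : ℝ))) ξ = 0 := by
      intro s' hs' hne
      exact gam_zero fun ⟨x, hx⟩ => hne (huniq s' hs' x hx)
    refine ⟨if s ≤ s₀ then 0 else GS D q a, ?_, fun t ht => ?_⟩
    · split_ifs with h
      · rw [norm_zero]
        positivity
      · refine (hG s _ _ _ _ hFr).trans ?_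
        have : κ ^ s ≤ κ ^ (s₀ + 1) := pow_le_pow_of_le_one hκ0 hκ1 (by omega)
        gcongr
    · have hsum : ∑ s' ∈ range (s₀ + 1), gam D s' (fun _ => 1 / (4 * (Q : ℝ))) ξ +
          (if s ≤ s₀ then 0 else GS D q a) = GS D q a := by
        by_cases h : s ≤ s₀
        · rw [if_pos h, add_zero, sum_eq_single_of_mem s (mem_range.2 (by omega))]
          · exact gam_eq hFr fun _ _ => hrad s h
          · intro s' hs' hne
            exact hgz s' (by have := mem_range.1 hs'; omega) hne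
        · rw [if_neg h, sum_eq_zero, zero_add]
          intro s' hs'
          have h1 := mem_range.1 hs'
          exact hgz s' (by omega) (by omega)
      rw [hsum]
      unfold sm
      rw [← sub_mul, norm_mul]
      set β : ℕ → ℝ := fun r => ξ r - a r / q with hβ
      have h1 : ‖w D Q ξ - GS D q a‖ ≤ 2 * Real.pi * XX D Q β := by
        obtain ⟨k, hk⟩ := hdv
        have hk1 : 1 ≤ k := by
          rcases Nat.eq_zero_or_pos k with h0 | h0
          · rw [h0, mul_zero] at hk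
            omega
          · exact h0
        have h2 := w_shift D hQ0 (fun r => (a r : ℝ) / q) β
        have e1 : (fun r => (a r : ℝ) / q + β r) = ξ := by
          funext r
          rw [hβ]
          ring
        rw [e1] at h2
        have h3 : w D Q (fun r => (a r : ℝ) / q) = GS D q a := by
          conv_lhs => rw [hk]
          exact w_per D hq1 a hk1
        rwa [h3] at h2
      have h7 : bk D (fun r => (2 ^ t) ^ (r + 1) / Q) (fun r => Q * ξ r) =
          bk D (fun r => (2 ^ t) ^ (r + 1) / Q) (fun r => Q * β r) :=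
        bk_int D _ hq1 hdv a ξ
      have h2t : (0 : ℝ) < 2 ^ t := by positivity
      have h8 : XX D Q β * ‖bk D (fun r => (2 ^ t) ^ (r + 1) / Q) (fun r => Q * ξ r)‖ ≤
          D * (Q : ℝ) ^ D * (2 / 2 ^ t) := by
        rw [h7]
        unfold XX
        rw [sum_mul]
        have h9 : ∀ r ∈ range D, (Q : ℝ) ^ (r + 1) * |β r| *
            ‖bk D (fun r => (2 ^ t) ^ (r + 1) / Q) (fun r => Q * β r)‖ ≤
            (Q : ℝ) ^ D * (2 / 2 ^ t) := by
          intro r hr
          have hrD := mem_range.1 hr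
          rcases eq_or_ne (β r) 0 with h0 | h0
          · rw [h0, abs_zero, mul_zero, zero_mul]
            positivity
          · have hb0 : 0 < |β r| := abs_pos.2 h0
            obtain ⟨g1, g2⟩ := side_ge hQ0 ht r
            have hL0 : (0 : ℝ) < (((2 ^ t) ^ (r + 1) / Q : ℕ) : ℝ) := by exact_mod_cast g1
            have g3 : |(Q : ℝ) * β r| = Q * |β r| := by rw [abs_mul, abs_of_pos hQ0']
            have g4 := DK_far' g1 (β := Q * β r) (by
              intro h10
              rcases mul_eq_zero.1 h10 with h11 | h11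
              · exact hQ0'.ne' h11
              · exact h0 h11) (by
              rw [g3]
              have := hFr.2.2.2 r hrD
              calc (Q : ℝ) * |β r| ≤ Q * (1 / (4 * Q)) := by gcongr
                _ = 1 / 4 := by field_simp
                _ ≤ 1 / 2 := by norm_num)
            rw [g3] at g4
            have g5 := (bk_le_one_factor D (fun r => (2 ^ t) ^ (r + 1) / Q) (fun r => Q * β r)
              hrD).trans g4
            have g6 : (Q : ℝ) ^ (r + 1) ≤ (Q : ℝ) ^ D := pow_le_pow_right₀ hQ1' hrD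
            have g7 : |β r| * ‖bk D (fun r => (2 ^ t) ^ (r + 1) / Q) (fun r => Q * β r)‖ ≤
                2 / 2 ^ t := by
              calc |β r| * ‖bk D (fun r => (2 ^ t) ^ (r + 1) / Q) (fun r => Q * β r)‖ ≤
                  |β r| * (1 / ((((2 ^ t) ^ (r + 1) / Q : ℕ) : ℝ) * (Q * |β r|))) := by
                    gcongr
                _ = 1 / ((((2 ^ t) ^ (r + 1) / Q : ℕ) : ℝ) * Q) := by
                    field_simp
                _ ≤ 2 / 2 ^ t := by
                    rw [div_le_div_iff₀ (by positivity) h2t, one_mul]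
                    exact g2
            calc (Q : ℝ) ^ (r + 1) * |β r| *
                ‖bk D (fun r => (2 ^ t) ^ (r + 1) / Q) (fun r => Q * β r)‖ =
                (Q : ℝ) ^ (r + 1) * (|β r| *
                ‖bk D (fun r => (2 ^ t) ^ (r + 1) / Q) (fun r => Q * β r)‖) := by ring
              _ ≤ (Q : ℝ) ^ D * (2 / 2 ^ t) := by gcongr
        refine (sum_le_sum h9).trans ?_
        rw [sum_const, card_range, nsmul_eq_mul]
        exact le_of_eq (by ring)
      calc ‖w D Q ξ - GS D q a‖ *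
          ‖bk D (fun r => (2 ^ t) ^ (r + 1) / Q) (fun r => Q * ξ r)‖ ≤
          2 * Real.pi * XX D Q β *
          ‖bk D (fun r => (2 ^ t) ^ (r + 1) / Q) (fun r => Q * ξ r)‖ := by gcongr
        _ = 2 * Real.pi * (XX D Q β *
          ‖bk D (fun r => (2 ^ t) ^ (r + 1) / Q) (fun r => Q * ξ r)‖) := by ring
        _ ≤ 2 * Real.pi * (D * (Q : ℝ) ^ D * (2 / 2 ^ t)) := by gcongr
        _ = (4 * Real.pi * (D * (Q : ℝ) ^ D)) / 2 ^ t := by ring
        _ ≤ (8 * Q + 4 * Real.pi * (D * (Q : ℝ) ^ D)) / 2 ^ t := by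
          gcongr
          linarith
  · refine ⟨0, by rw [norm_zero]; positivity, fun t ht => ?_⟩
    have hgz : ∀ s ∈ range (s₀ + 1), gam D s (fun _ => 1 / (4 * (Q : ℝ))) ξ = 0 := by
      intro s hs
      refine gam_zero fun ⟨⟨a, q⟩, hx⟩ => hz ?_
      simp only at hx
      have hs' : s ≤ s₀ := Nat.lt_succ_iff.1 (mem_range.1 hs)
      have hqQ : q ∣ Q := hdvd q hx.1 (hx.le.trans (Nat.pow_le_pow_right (by norm_num) hs'))
      choose b hb using fun r => hmult q (a r) hx.1 hqQ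
      exact ⟨b, fun r hr => by rw [← hb r]; exact hx.2.2.2 r hr⟩
    rw [sum_eq_zero hgz, add_zero, zero_mul, sub_zero]
    push Not at hz
    obtain ⟨r, hr, hr1⟩ := hz fun r => round (Q * ξ r)
    obtain ⟨g1, g2⟩ := side_ge hQ0 ht r
    have hL0 : (0 : ℝ) < (((2 ^ t) ^ (r + 1) / Q : ℕ) : ℝ) := by exact_mod_cast g1
    set θ : ℝ := Q * ξ r - (round (Q * ξ r) : ℤ) with hθ
    have h1 : |θ| ≤ 1 / 2 := abs_sub_round _
    have h2 : 1 / 4 < |θ| := by
      have e : θ = Q * (ξ r - (round (Q * ξ r) : ℤ) / Q) := by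
        rw [hθ]
        field_simp
      rw [e, abs_mul, abs_of_pos hQ0']
      calc (1 : ℝ) / 4 = Q * (1 / (4 * Q)) := by field_simp
        _ < _ := by gcongr
    have h3 : DK ((2 ^ t) ^ (r + 1) / Q) (Q * ξ r) = DK ((2 ^ t) ^ (r + 1) / Q) θ := by
      rw [← DK_add_int _ θ (round (Q * ξ r))]
      congr 1
      rw [hθ]
      ring
    have h4 := DK_far' g1 (β := θ) (by
      intro h0
      rw [h0, abs_zero] at h2
      linarith) h1
    have h5 := bk_le_one_factor D (fun r => (2 ^ t) ^ (r + 1) / Q) (fun r => Q * ξ r) hr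
    rw [h3] at h5
    have h2t : (0 : ℝ) < 2 ^ t := by positivity
    unfold sm
    rw [norm_mul]
    calc ‖w D Q ξ‖ * ‖bk D (fun r => (2 ^ t) ^ (r + 1) / Q) (fun r => Q * ξ r)‖ ≤
        1 * (1 / ((((2 ^ t) ^ (r + 1) / Q : ℕ) : ℝ) * |θ|)) := by
          have := w_norm_le D Q ξ
          have := h5.trans h4
          gcongr
      _ ≤ 1 * (1 / ((((2 ^ t) ^ (r + 1) / Q : ℕ) : ℝ) * (1 / 4))) := by gcongr
      _ = 4 / (((2 ^ t) ^ (r + 1) / Q : ℕ) : ℝ) := by field_simp
      _ ≤ (8 * Q) / 2 ^ t := by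
        rw [div_le_div_iff₀ hL0 h2t]
        nlinarith
      _ ≤ (8 * Q + 4 * Real.pi * (D * (Q : ℝ) ^ D)) / 2 ^ t := by
        gcongr
        have : 0 ≤ 4 * Real.pi * (D * (Q : ℝ) ^ D) := by positivity
        linarith

end Pool.Agent.Zk89.PE
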