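import Pool.Agent.Zk89.MT.Bp
import Pool.Agent.W761.Box.Main

/-!
# The pointwise ergodic theorem along the moment curve for all actions of abelian groups

Statements of the modules.
-/

set_option autoImplicit false

open Finset Filter Topology MeasureTheory

noncomputable section

namespace Pool.Agent.Zk89.PE

open Pool.Agent.Zk89.MT (w bk gc cav)
open Pool.Agent.Zk89.BT (ml nrm Dom th)
open Pool.Agent.W761.Box (bxc)
open Pool.Agent.W761.Gauss (GaussSpace Adm ex)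

/-- operator on `ZMod M` with kernel `∑_{i ∈ I} c i δ_{v i}`, the vectors `v i ∈ ℕ^D` -/
def opZ {ι : Type} {M : ℕ} (D : ℕ) (I : Finset ι) (v : ι → ℕ → ℕ) (c : ι → ℂ) (B : ℕ → ℕ)
    (f : ZMod M → ℂ) (x : ZMod M) : ℂ :=
  ∑ i ∈ I, c i * f (x + ((∑ r ∈ range D, v i r * B r : ℕ) : ZMod M))

/-- the same operator for an action -/
def opX {ι : Type} {X C : Type*} [CommGroup C] (Ψ : C →* Equiv.Perm X) (a : ℕ → C) (D : ℕ)
    (I : Finset ι) (v : ι → ℕ → ℕ) (c : ι → ℂ) (F : X → ℂ) (x : X) : ℂ :=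
  ∑ i ∈ I, c i * F (Ψ (∏ r ∈ range D, a r ^ v i r) x)

/-- **TR** (transference of a block inequality). Model: `Pool.Agent.Zk89.MT.trans`
(file `MT/Tr.lean`), same proof with sums over `j`. -/
def S_TR : Prop := ∀ {ι : Type} (D J : ℕ) (T : Fin J → Finset ℕ) (I : ℕ → Finset ι)
  (v : ℕ → ι → ℕ → ℕ) (c : ℕ → ι → ℂ) (A : ℝ), 0 ≤ A →
  (∀ (M : ℕ) [NeZero M] (B : ℕ → ℕ) (f : ZMod M → ℂ) (τ : Fin J → ZMod M → ℕ),
    (∀ j x, τ j x ∈ T j) →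
    ∑ j, ∑ x, ‖opZ D (I (τ j x)) (v (τ j x)) (c (τ j x)) B f x‖ ^ 2 ≤ A * ∑ x, ‖f x‖ ^ 2) →
  ∀ {X C : Type} [MeasurableSpace X] {μ : Measure X} [IsProbabilityMeasure μ] [CommGroup C]
    {Ψ : C →* Equiv.Perm X}, (∀ a, MeasurePreserving (Ψ a) μ μ) → ∀ (a : ℕ → C) {F : X → ℂ},
    Measurable F → ∀ {b : ℝ}, (∀ x, ‖F x‖ ≤ b) → ∀ G : Fin J → X → ℝ, (∀ j, Measurable (G j)) →
    (∀ j x, 0 ≤ G j x) →
    (∀ j x, ∃ t ∈ T j, G j x ≤ ‖opX Ψ a D (I t) (v t) (c t) F x‖) →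
    ∑ j, ∫ x, G j x ^ 2 ∂μ ≤ 2 * A * ∫ x, ‖F x‖ ^ 2 ∂μ

/-- **AB** (abstract convergence from block inequalities). Proof: fix `ε`. Let
`R t = ‖α t - σ t‖`. For `τ ≥ t₀` let `M_τ = sup_{t ≥ τ} R t ≤ 2`, decreasing in `τ`, measurable.
Claim: `∫ (inf_τ M_τ)² ≤ ε`. Otherwise choose successive finite blocks `T_j = [τ_j, τ_{j+1})`
with `∫ (max_{t ∈ T_j} R t)² ≥ ∫ M_{τ_j}² - η ≥ ε + η` (monotone convergence), contradiction to
the block inequality for `J` large. So `limsup R t` has small `L²` norm, `σ t` converges, hence the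
oscillation `limsup_{t, t'} ‖α t - α t'‖` is a.e. zero as `ε → 0`. -/
def S_AB : Prop := ∀ {X : Type} [MeasurableSpace X] {μ : Measure X} [IsProbabilityMeasure μ]
  (α : ℕ → X → ℂ), (∀ t, Measurable (α t)) → (∀ t x, ‖α t x‖ ≤ 1) →
  (∀ ε : ℝ, 0 < ε → ∃ (σ : ℕ → X → ℂ) (t₀ : ℕ) (K : ℝ), (∀ t, Measurable (σ t)) ∧
    (∀ t x, ‖σ t x‖ ≤ 1) ∧ (∀ᵐ x ∂μ, ∃ L, Tendsto (fun t => σ t x) atTop (𝓝 L)) ∧
    ∀ (J : ℕ) (T : Fin J → Finset ℕ), (∀ j, (T j).Nonempty) → (∀ j, ∀ t ∈ T j, t₀ ≤ t) →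
      (∀ i j, i ≠ j → Disjoint (T i) (T j)) →
      ∀ G : Fin J → X → ℝ, (∀ j, Measurable (G j)) → (∀ j x, 0 ≤ G j x) →
      (∀ j x, ∃ t ∈ T j, G j x ≤ ‖α t x - σ t x‖) →
      ∑ j, ∫ x, G j x ^ 2 ∂μ ≤ K + ε * J) →
  ∀ᵐ x ∂μ, ∃ L, Tendsto (fun t => α t x) atTop (𝓝 L)

/-- **EX** (exponential sums). `w D N ξ = N⁻¹ ∑_{n < N} e(∑_{r < D} ξ_r n^(r+1))`, see `MT/Wy.lean`.
Proof: let `δ > 0`. If `‖w D N ξ‖ ≥ δ` then by `MT.weyl` there is a vector of fractions `b/q`,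
`q ≤ C δ^{-m}` with `|ξ_r - b_r/q| ≤ C δ^{-m} / N^(r+1)`. For `t ≥ t₀(δ)` these fractions are the
same for all `t` for which one of `‖w D (u 2^t) ξ‖`, `‖w D (2^(K+t)) ξ‖` is `≥ δ`; with
`β = ξ - b/q` and `MT.w_major` both are `GS D q b * w D N β` up to `δ`, and `w D N β` is `1` up to
`C XX D N β` (`MT.w_near`). As `XX D (2^t) β` at least doubles with `t`, only
`O(log (1/δ))` of the `t` have `δ ≤ XX ≤ C δ^{-m}`. -/
def S_EX : Prop := ∀ (D u K : ℕ), 1 ≤ u → ∀ ε : ℝ, 0 < ε → ∃ T₀ : ℕ, ∀ T ≥ T₀, ∀ ξ : ℕ → ℝ,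
  ∑ t ∈ range T, ‖w D (u * 2 ^ t) ξ - w D (2 ^ (K + t)) ξ‖ ^ 2 ≤ ε * T

/-- **BX** (convergence of the comparison averages). From the multi-parameter pointwise ergodic
theorem for bounded functions and commuting maps in `Pool/Agent/W761/Box/Dz.lean`, restricted to
the boxes with sides `(2^t)^(r+1) / Q`. -/
def S_BX : Prop := ∀ {X C : Type} [MeasurableSpace X] {μ : Measure X} [IsProbabilityMeasure μ]
  [CommGroup C] {Ψ : C →* Equiv.Perm X}, (∀ a, MeasurePreserving (Ψ a) μ μ) →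
  ∀ (D Q : ℕ), 1 ≤ Q → ∀ (a : ℕ → C) {F : X → ℂ}, Measurable F → (∃ b, ∀ x, ‖F x‖ ≤ b) →
  ∀ᵐ x ∂μ, ∃ L, Tendsto (fun t : ℕ => (∏ r : Fin D, (((2 ^ t) ^ ((r : ℕ) + 1) / Q : ℕ) : ℂ))⁻¹ *
    ∑ z ∈ Fintype.piFinset (fun r : Fin D => range ((2 ^ t) ^ ((r : ℕ) + 1) / Q)),
      F (Ψ (∏ r : Fin D, a r ^ (Q * z r)) x)) atTop (𝓝 L)

/-- convergence along powers of two for all actions -/
def DY (D : ℕ) : Prop := ∀ {X C : Type} [MeasurableSpace X] {μ : Measure X}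
  [IsProbabilityMeasure μ] [CommGroup C] {Ψ : C →* Equiv.Perm X},
  (∀ a, MeasurePreserving (Ψ a) μ μ) → ∀ (a : ℕ → C) {F : X → ℂ}, Measurable F →
  (∃ b, ∀ x, ‖F x‖ ≤ b) →
  ∀ᵐ x ∂μ, ∃ L, Tendsto (fun t : ℕ => cav Ψ a D F (2 ^ t) x) atTop (𝓝 L)

/-- convergence along all integers for all actions: the pointwise ergodic theorem -/
def PG (D : ℕ) : Prop := ∀ {X C : Type} [MeasurableSpace X] {μ : Measure X}
  [IsProbabilityMeasure μ] [CommGroup C] {Ψ : C →* Equiv.Perm X},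
  (∀ a, MeasurePreserving (Ψ a) μ μ) → ∀ (a : ℕ → C) {F : X → ℂ}, Measurable F →
  (∃ b, ∀ x, ‖F x‖ ≤ b) →
  ∀ᵐ x ∂μ, ∃ L, Tendsto (fun N : ℕ => cav Ψ a D F N x) atTop (𝓝 L)

/-- **FU** (from powers of two to all integers). Proof: for `u ≥ 1`,
`cav Ψ a D F (u 2^t) = u⁻¹ ∑_{r < u} (cav Ψ a⁽ʳ⁾ D F (2^t)) ∘ Ψ (gc a D r)`, where
`gc a D (u n + r) = gc a D r * gc a⁽ʳ⁾ D n` (binomial theorem; `a⁽ʳ⁾_i` is a product of powers of the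
`a_l`, `l ≥ i`), so the averages over `u 2^t` converge a.e., to `L_u`. By `S_EX` (with the
multiplier formula `MT.ml_w` and Parseval, `BT/Four.lean`) and `S_TR` (blocks `T_j = {j}`)
`∑_{t < T} ∫ |cav (u 2^t) - cav (2^(K+t))|² ≤ 2 ε T ∫ |F|²`, so `L_u = L_1` a.e. by dominated
convergence and Cesàro. If `u 2^t ≤ N < (u+1) 2^t`, `2^K ≤ u < 2^(K+1)`, then
`|cav N - cav (u 2^t)| ≤ 2 b / u`. -/
def S_FU : Prop := ∀ D : ℕ, S_TR → S_EX → DY D → PG D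

/-- **GA** (Gaussian actions, exponentials). `G` abelian, `W` any map such that one bounded function
has convergent box averages along `W` for all actions of `G`. Model: `GaussSpace.core` and
`GaussSpace.conv_exp` in `Pool/Agent/W761/Gauss/{Core,Act}.lean` (there `G = ℤ`, `W = b`): replace
the index set `ℤ` by `G`, the shift by `(τ_g ω) h = ω (h * g)`, `S j ^ n` by `S j g`,
`V j k g = (S k g)⁻¹ * S j g`, the two-sided averages `A2` by the box averages `bxc k N`. -/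
def S_GA : Prop := ∀ {G : Type} [CommGroup G] {k : ℕ} (W : (Fin k → ℕ) → G),
  (∀ {Ω : Type} [MeasurableSpace Ω] {P : Measure Ω} [IsProbabilityMeasure P]
    {Ψ : G →* Equiv.Perm Ω}, (∀ g, MeasurePreserving (Ψ g) P P) → ∀ F : Ω → ℂ, Measurable F →
    (∃ C : ℝ, ∀ ω, ‖F ω‖ ≤ C) →
    ∀ᵐ ω ∂P, ∃ L, Tendsto (fun N => bxc k N fun m => F (Ψ (W m) ω)) atTop (𝓝 L)) →
  ∀ {X : Type} [MeasurableSpace X] {μ : Measure X} [IsProbabilityMeasure μ]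
    {H : Submodule ℝ (X → ℝ)}, GaussSpace μ H → ∀ {J : ℕ} (S : Fin J → G →* Equiv.Perm X),
    (∀ j g, Adm μ H (S j g)) → (∀ i j g g', Commute (S i g) (S j g')) →
    ∀ h : Fin J → X → ℝ, (∀ j, h j ∈ H) →
    ∀ᵐ x ∂μ, ∃ L, Tendsto (fun N => bxc k N fun m => ex (∑ j, h j (S j (W m) x))) atTop (𝓝 L)

/-- the multiplier of the comparison averages -/
def sm (D Q t : ℕ) (ξ : ℕ → ℝ) : ℂ :=
  w D Q ξ * bk D (fun r => (2 ^ t) ^ (r + 1) / Q) (fun r => Q * ξ r)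

/-- the block decomposition on `ZMod M` -/
def BLK (D : ℕ) : Prop := ∀ ε : ℝ, 0 < ε → ∃ (Q t₀ : ℕ) (K : ℝ), 1 ≤ Q ∧ 0 ≤ K ∧
  (∀ t ≥ t₀, Q ≤ 2 ^ t) ∧
  ∀ (M : ℕ) [NeZero M] (B : ℕ → ℕ) (f : ZMod M → ℂ) (T : Finset ℕ), (∀ t ∈ T, t₀ ≤ t) →
  ∃ (U : ℕ → ZMod M → ℝ) (h : ZMod M → ℝ), (∀ t x, 0 ≤ U t x) ∧ (∀ x, 0 ≤ h x) ∧
    (∀ t ∈ T, ∀ x, ‖ml (fun k => w D (2 ^ t) (fun r => B r * th k) -
      sm D Q t (fun r => B r * th k)) f x‖ ≤ U t x + h x) ∧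
    ∑ t ∈ T, ∑ x, U t x ^ 2 ≤ K * ∑ x, ‖f x‖ ^ 2 ∧ ∑ x, h x ^ 2 ≤ ε * ∑ x, ‖f x‖ ^ 2

/-- **DYA** (assembly): from the block decomposition to convergence along powers of two. The averages
`cav (2^t)` and the comparison averages are `opX` for suitable `I, v, c` (for the comparison
averages: index type `ℕ × (Fin D → ℕ)`, index `(n, z)`, `n < Q`, `z` in the box, vector `n^(r+1) + Q z_r`); their multipliers on
`ZMod M` are `w D (2^t)` and `sm D Q t` (`MT.ml_w`, `MT.ml_bk`). Use `S_TR`, `S_AB`, `S_BX`. -/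
def S_DYA : Prop := ∀ D : ℕ, S_TR → S_AB → S_BX → BLK D → DY D

end Pool.Agent.Zk89.PE
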