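import Pool.Agent.Zk89.PE.Defs

/-!
# Statement of the last module
-/

set_option autoImplicit false

open Finset Filter Topology MeasureTheory

noncomputable section

namespace Pool.Agent.Zk89.PE

open Pool.Agent.W761.Box (bxc)
open Pool.Agent.W761.Gauss (GaussSpace Adm ex)

/-- **GAX** (`S_GA` with one more function on an arbitrary system). Model: `Zk59/PE/GAcore.lean`.
In `pg_fieldG` use the product of `(G → ℝ, P)` with `(Z, ρ)`, the action `shG × V` and the function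
`ex (ω 1) * F z`. In `coreG` start from a.e. `((x, ω), z)`, rearrange to a.e. `((x, z), ω)`
(`measurePreserving_prodAssoc`, `Measure.prod_swap`) and integrate over `ω` as before. -/
def S_GAX : Prop := ∀ {G : Type} [CommGroup G] {k : ℕ} (W : (Fin k → ℕ) → G),
  (∀ {Ω : Type} [MeasurableSpace Ω] {P : Measure Ω} [IsProbabilityMeasure P]
    {Ψ : G →* Equiv.Perm Ω}, (∀ g, MeasurePreserving (Ψ g) P P) → ∀ F : Ω → ℂ, Measurable F →
    (∃ C : ℝ, ∀ ω, ‖F ω‖ ≤ C) →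
    ∀ᵐ ω ∂P, ∃ L, Tendsto (fun N => bxc k N fun m => F (Ψ (W m) ω)) atTop (𝓝 L)) →
  ∀ {X Z : Type} [MeasurableSpace X] [MeasurableSpace Z] {μ : Measure X} [IsProbabilityMeasure μ]
    {ρ : Measure Z} [IsProbabilityMeasure ρ]
    {H : Submodule ℝ (X → ℝ)}, GaussSpace μ H → ∀ {J : ℕ} (S : Fin J → G →* Equiv.Perm X),
    (∀ j g, Adm μ H (S j g)) → (∀ i j g g', Commute (S i g) (S j g')) →
    ∀ (V : G →* Equiv.Perm Z), (∀ g, MeasurePreserving (V g) ρ ρ) →
    ∀ h : Fin J → X → ℝ, (∀ j, h j ∈ H) →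
    ∀ F : Z → ℂ, Measurable F → (∃ C : ℝ, ∀ z, ‖F z‖ ≤ C) →
    ∀ᵐ p ∂(μ.prod ρ), ∃ L, Tendsto (fun N => bxc k N fun m =>
      ex (∑ j, h j (S j (W m) p.1)) * F (V (W m) p.2)) atTop (𝓝 L)

end Pool.Agent.Zk89.PE
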