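import Pool.Agent.Zk89.PE.Dsc

/-!
# Products of discrete spectrum, Gaussian and arbitrary systems
-/

set_option autoImplicit false
set_option linter.unusedSectionVars false

open Filter Topology MeasureTheory Polynomial ProbabilityTheory
open scoped ENNReal

noncomputable section

namespace Pool.Agent.Zk89.PE

open Pool.Agent.W761.Box (BM bx bxc Good1 Cv Cv_closed Cv_add Cv_smul Cv_zero)
open Pool.Agent.W761.Gauss (mp_prod mp_zpow IsFactor inter_prod BM_of_memLp)

variable {X Z D Y : Type} [MeasurableSpace X] [MeasurableSpace Z] [MeasurableSpace D]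
  [MeasurableSpace Y] {μ : Measure X} [IsProbabilityMeasure μ] {ρ : Measure Z}
  [IsProbabilityMeasure ρ] {δ : Measure D} [IsProbabilityMeasure δ] {ν : Measure Y}
  {d d' n k : ℕ}

/-- maps of the slots -/
def gS (T : Fin d → Equiv.Perm X) (V : Fin d' → Equiv.Perm Z)
    (P : Fin n → Fin d → MvPolynomial (Fin k) ℤ) (Q : Fin d' → MvPolynomial (Fin k) ℤ)
    (s : Option (Fin n)) : (Fin k → ℕ) → X × Z → X × Z :=
  match s with
  | some j => g3 T V (P j) fun _ => 0
  | none => g3 T V (fun _ => 0) Q

theorem disc_JP {Δ : Fin d → Equiv.Perm D} (hD : IsDisc δ Δ) {T : Fin d → Equiv.Perm X}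
    (hJ : JP μ T) : JP (δ.prod μ) (pT Δ T) := by
  have hms : ∀ i, Measurable (pT Δ T i).symm := fun i =>
    ((hD.meas_symm i).comp measurable_fst).prodMk ((hJ.meas_symm i).comp measurable_snd)
  have hmp : ∀ i, MeasurePreserving (pT Δ T i) (δ.prod μ) (δ.prod μ) := fun i =>
    (hD.mp i).prod (hJ.mp i)
  have hcm : ∀ i j, Commute (pT Δ T i) (pT Δ T j) := by
    intro i j
    apply Equiv.ext
    intro p
    have e1 := congrArg (fun e : Equiv.Perm D => e p.1) (hD.comm i j).eq
    have e2 := congrArg (fun e : Equiv.Perm X => e p.2) (hJ.comm i j).eq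
    exact Prod.ext e1 e2
  refine ⟨hms, hmp, hcm, ?_⟩
  intro n k d' Z _ ρ _ V hVm hV hVc P hP Q hQ f hf F hF
  classical
  have h0 : ∀ s ∈ (0 : MvPolynomial (Fin k) ℤ).support, s.support.card ≤ 1 := by simp
  have hgmp : ∀ (s : Option (Fin n)) (m : Fin k → ℕ),
      MeasurePreserving (gS (pT Δ T) V P Q s m) ((δ.prod μ).prod ρ) ((δ.prod μ).prod ρ) := by
    intro s m
    rcases s with _ | j
    · exact g3_mp hms hmp hVm hV _ _ m
    · exact g3_mp hms hmp hVm hV _ _ m
  have hggood : ∀ s : Option (Fin n), Good1 ((δ.prod μ).prod ρ) (gS (pT Δ T) V P Q s) := by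
    intro s
    rcases s with _ | j
    · exact g3_good hms hmp hcm hVm hV hVc _ (fun _ => h0) _ hQ
    · exact g3_good hms hmp hcm hVm hV hVc _ (hP j) _ (fun _ => h0)
  have key : ∀ (B : Finset (Fin n)) (f : Fin n → D × X → ℂ), (∀ j ∈ B, BM (f j)) →
      (∀ j ∉ B, ∃ (e : D → ℂ) (u : X → ℂ), e ∈ Eigf δ Δ ∧ BM u ∧ f j = tens e u) →
      Cv ((δ.prod μ).prod ρ) (gS (pT Δ T) V P Q) (lft f F) := by
    intro B
    induction B using Finset.induction_on with
    | empty =>
      intro f _ h2
      choose e u he hu hfe using fun j => h2 j (Finset.notMem_empty j)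
      choose c hc using fun j => (he j).2
      have h1 := hJ.phase' P hP u hu (κ := Fin n × Fin d) (fun q => c q.1 q.2)
        (fun q => P q.1 q.2) (fun q => hP q.1 q.2) V hVm hV hVc Q hQ F hF
      have h2 : ∀ᵐ a ∂δ, ∀ (m : Fin k → ℕ) (j : Fin n), e j (mv Δ (P j) m a) =
          ((∏ i, c j i ^ ev (P j) m i : Circle) : ℂ) * e j a := by
        rw [ae_all_iff]
        intro m
        rw [ae_all_iff]
        intro j
        exact eig_prod d Δ hD.mp (inv_mp hD.meas_symm hD.mp) (c j) (hc j) (ev (P j) m)
      have h3 : ∀ᵐ q ∂(δ.prod (μ.prod ρ)), ∃ L : ℂ, Tendsto (fun N => bxc k N fun m =>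
          ∏ s, lft f F s (gS (pT Δ T) V P Q s m ((q.1, q.2.1), q.2.2))) atTop (𝓝 L) := by
        filter_upwards [Measure.quasiMeasurePreserving_fst.ae h2,
          Measure.quasiMeasurePreserving_snd.ae h1] with q hq1 hq2
        obtain ⟨L, hL⟩ := hq2
        refine ⟨(∏ j, e j q.1) * L, (hL.const_mul (∏ j, e j q.1)).congr fun N => ?_⟩
        rw [← Pool.Agent.W761.Box.bxc_mul]
        congr 1
        funext m
        rw [Fintype.prod_option]
        have e1 : lft f F none (gS (pT Δ T) V P Q none m ((q.1, q.2.1), q.2.2)) =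
            F (mv V Q m q.2.2) := rfl
        have e2 : ∀ j : Fin n, lft f F (some j) (gS (pT Δ T) V P Q (some j) m
            ((q.1, q.2.1), q.2.2)) = ((∏ i, c j i ^ ev (P j) m i : Circle) : ℂ) * e j q.1 *
              u j (mv T (P j) m q.2.1) := by
          intro j
          show f j (mv (pT Δ T) (P j) m (q.1, q.2.1)) = _
          rw [mv_pT, hfe j]
          show e j (mv Δ (P j) m q.1) * u j (mv T (P j) m q.2.1) = _
          rw [hq1 m j]
        rw [e1, Finset.prod_congr rfl fun j _ => e2 j, Finset.prod_mul_distrib,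
          Finset.prod_mul_distrib]
        have e3 : ((∏ q : Fin n × Fin d, c q.1 q.2 ^
            (MvPolynomial.eval (fun l => ((m l : ℕ) : ℤ)) (P q.1 q.2)) : Circle) : ℂ) =
            ∏ j, ((∏ i, c j i ^ ev (P j) m i : Circle) : ℂ) := by
          rw [Fintype.prod_prod_type]
          exact map_prod Circle.coeHom _ _
        rw [e3]
        ring
      have h4 := (measurePreserving_prodAssoc δ μ ρ).quasiMeasurePreserving.ae h3
      exact h4
    | insert j B hj ih =>
      intro f h1 h2
      have hBMall : ∀ l, BM (f l) := by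
        intro l
        by_cases hl : l ∈ insert j B
        · exact h1 l hl
        · obtain ⟨e, u, he, hu, e'⟩ := h2 l hl
          rw [e']
          exact tens_BM he.1 hu
      have hlft : ∀ s, BM (lft f F s) := by
        intro s
        rcases s with _ | l
        · obtain ⟨hm, C, hC⟩ := hF
          exact ⟨hm.comp measurable_snd, C, fun p => hC _⟩
        · obtain ⟨hm, C, hC⟩ := hBMall l
          exact ⟨hm.comp measurable_fst, C, fun p => hC _⟩
      have hmain : Cv ((δ.prod μ).prod ρ) (gS (pT Δ T) V P Q)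
          (Function.update (lft f F) (some j) (fun p => f j p.1)) := by
        refine Cv_closed hgmp hggood hlft (hlft (some j)) ?_
        intro ε hε
        obtain ⟨f', hf', hff'⟩ := ES_dense (μ := μ) hD (hBMall j) hε
        have hcv : Cv ((δ.prod μ).prod ρ) (gS (pT Δ T) V P Q)
            (lft (Function.update f j f') F) := by
          refine Submodule.span_induction
            (p := fun (f' : D × X → ℂ) _ =>
              Cv ((δ.prod μ).prod ρ) (gS (pT Δ T) V P Q) (lft (Function.update f j f') F))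
            ?_ ?_ ?_ ?_ hf'
          · rintro _ ⟨e, u, he, hu, rfl⟩
            apply ih
            · intro l hl
              have hlj : l ≠ j := fun e => hj (e ▸ hl)
              rw [Function.update_of_ne hlj]
              exact h1 l (Finset.mem_insert_of_mem hl)
            · intro l hl
              by_cases hlj : l = j
              · subst hlj
                exact ⟨e, u, he, hu, by rw [Function.update_self]⟩
              · rw [Function.update_of_ne hlj]
                apply h2
                intro hmem'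
                rcases Finset.mem_insert.mp hmem' with h5 | h5
                · exact hlj h5
                · exact hl h5
          · rw [lft_update]
            exact Cv_zero
          · rintro g₁ g₂ _ _ c₁ c₂
            rw [lft_update] at c₁ c₂ ⊢
            exact Cv_add c₁ c₂
          · rintro c g₁ _ c₁
            rw [lft_update] at c₁ ⊢
            exact Cv_smul c c₁
        obtain ⟨hm', C', hC'⟩ := ES_BM hf'
        rw [lft_update] at hcv
        refine ⟨fun p => f' p.1, ⟨hm'.comp measurable_fst, C', fun p => hC' _⟩, ?_, hcv⟩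
        have hmpf : MeasurePreserving (Prod.fst : (D × X) × Z → D × X) ((δ.prod μ).prod ρ)
            (δ.prod μ) := measurePreserving_fst
        have h5 : ∫ x, ‖f j x - f' x‖ ∂(((δ.prod μ).prod ρ).map Prod.fst) =
            ∫ p, ‖f j p.1 - f' p.1‖ ∂((δ.prod μ).prod ρ) :=
          integral_map hmpf.measurable.aemeasurable (by
            rw [hmpf.map_eq]
            exact ((hBMall j).1.sub hm').norm.aestronglyMeasurable)
        rw [hmpf.map_eq] at h5
        exact h5.symm.le.trans hff'
      rw [← lft_update, Function.update_eq_self] at hmain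
      exact hmain
  have hfin := key Finset.univ f (fun j _ => hf j) fun j hj => absurd (Finset.mem_univ j) hj
  unfold Cv at hfin
  refine hfin.mono fun p hp => ?_
  obtain ⟨L, hL⟩ := hp
  refine ⟨L, hL.congr fun N => ?_⟩
  congr 1
  funext m
  rw [Fintype.prod_option, mul_comm]
  rfl

/-- **All bounded functions on the product with an arbitrary system.** -/
theorem jp_prod {T : Fin d → Equiv.Perm X} (hJ : JP μ T)
    {V : Fin d' → Equiv.Perm Z} (hVm : ∀ i, Measurable (V i).symm)
    (hV : ∀ i, MeasurePreserving (V i) ρ ρ) (hVc : ∀ i j, Commute (V i) (V j))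
    (P : Fin n → Fin d → MvPolynomial (Fin k) ℤ)
    (hP : ∀ j i, ∀ s ∈ (P j i).support, s.support.card ≤ 1)
    (Q : Fin d' → MvPolynomial (Fin k) ℤ) (hQ : ∀ i, ∀ s ∈ (Q i).support, s.support.card ≤ 1)
    {f : Fin n → X × Z → ℂ} (hf : ∀ j, BM (f j)) :
    Cv (μ.prod ρ) (fun j => g3 T V (P j) Q) f := by
  have hmp : ∀ (j : Fin n) (m : Fin k → ℕ),
      MeasurePreserving (g3 T V (P j) Q m) (μ.prod ρ) (μ.prod ρ) := fun j m =>
    g3_mp hJ.meas_symm hJ.mp hVm hV (P j) Q m
  have hgood : ∀ j : Fin n, Good1 (μ.prod ρ) (g3 T V (P j) Q) := fun j =>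
    g3_good hJ.meas_symm hJ.mp hJ.comm hVm hV hVc (P j) (hP j) Q hQ
  have key : ∀ (B : Finset (Fin n)) (F : Fin n → X × Z → ℂ), (∀ j ∈ B, BM (F j)) →
      (∀ j ∉ B, ∃ (u : X → ℂ) (F' : Z → ℂ), BM u ∧ BM F' ∧ F j = tens u F') →
      Cv (μ.prod ρ) (fun j => g3 T V (P j) Q) F := by
    intro B
    induction B using Finset.induction_on with
    | empty =>
      intro F _ h2
      choose u F' hu hF' hFh using fun j => h2 j (Finset.notMem_empty j)
      have hprod : BM (fun z : Z => ∏ j, F' j z) := by
        choose hm C hC using hF'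
        refine ⟨Finset.measurable_fun_prod _ fun j _ => hm j, ∏ j, C j, fun z => ?_⟩
        rw [norm_prod]
        exact Finset.prod_le_prod (fun j _ => norm_nonneg _) fun j _ => hC j z
      have h3 := hJ.conv n k d' Z ρ V hVm hV hVc P hP Q hQ u hu _ hprod
      unfold Cv
      refine h3.mono fun p hp => ?_
      obtain ⟨L, hL⟩ := hp
      refine ⟨L, hL.congr fun N => ?_⟩
      congr 1
      funext m
      rw [← Finset.prod_mul_distrib]
      refine Finset.prod_congr rfl fun j _ => ?_
      rw [hFh j]
      rfl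
    | insert j B hj ih =>
      intro F h1 h2
      have hBMall : ∀ l, BM (F l) := by
        intro l
        by_cases hl : l ∈ insert j B
        · exact h1 l hl
        · obtain ⟨u, F', hu, hF', e⟩ := h2 l hl
          rw [e]
          exact tens_BM hu hF'
      have hmain : Cv (μ.prod ρ) (fun j => g3 T V (P j) Q) (Function.update F j (F j)) := by
        refine Cv_closed hmp hgood hBMall (hBMall j) ?_
        intro ε hε
        obtain ⟨f', hf', hff'⟩ := tens_dense (m := μ.prod ρ) (hBMall j) hε
        refine ⟨f', TS_BM hf', hff', ?_⟩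
        refine Submodule.span_induction
          (p := fun (f' : X × Z → ℂ) _ =>
            Cv (μ.prod ρ) (fun j => g3 T V (P j) Q) (Function.update F j f')) ?_ ?_ ?_ ?_ hf'
        · rintro _ ⟨u, F', hu, hF', rfl⟩
          apply ih
          · intro l hl
            have hlj : l ≠ j := fun e => hj (e ▸ hl)
            rw [Function.update_of_ne hlj]
            exact h1 l (Finset.mem_insert_of_mem hl)
          · intro l hl
            by_cases hlj : l = j
            · subst hlj
              exact ⟨u, F', hu, hF', by rw [Function.update_self]⟩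
            · rw [Function.update_of_ne hlj]
              apply h2
              intro hmem'
              rcases Finset.mem_insert.mp hmem' with h5 | h5
              · exact hlj h5
              · exact hl h5
        · exact Cv_zero
        · rintro g₁ g₂ _ _ c₁ c₂
          exact Cv_add c₁ c₂
        · rintro c g₁ _ c₁
          exact Cv_smul c c₁
      rwa [Function.update_eq_self] at hmain
  exact key Finset.univ f (fun j _ => hf j) fun j hj => absurd (Finset.mem_univ j) hj

/-- **Factors.** -/
theorem jp_factor {T : Fin d → Equiv.Perm X} (hJ : JP μ T)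
    {R : Fin d → Equiv.Perm Y} (hRm : ∀ i, Measurable (R i).symm)
    (hR : ∀ i, MeasurePreserving (R i) ν ν) (hfac : IsFactor μ T ν R)
    {V : Fin d' → Equiv.Perm Z} (hVm : ∀ i, Measurable (V i).symm)
    (hV : ∀ i, MeasurePreserving (V i) ρ ρ) (hVc : ∀ i j, Commute (V i) (V j))
    (P : Fin n → Fin d → MvPolynomial (Fin k) ℤ)
    (hP : ∀ j i, ∀ s ∈ (P j i).support, s.support.card ≤ 1)
    (Q : Fin d' → MvPolynomial (Fin k) ℤ) (hQ : ∀ i, ∀ s ∈ (Q i).support, s.support.card ≤ 1)
    {f : Fin n → Y × Z → ℂ} (hf : ∀ j, MemLp (f j) ∞ (ν.prod ρ)) :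
    ∀ᵐ p ∂(ν.prod ρ), ∃ L : ℂ, Tendsto (fun N => bxc k N fun m =>
      ∏ j, f j (mv R (P j) m p.1, mv V Q m p.2)) atTop (𝓝 L) := by
  obtain ⟨π, hπ, hπT⟩ := hfac
  have hνp : IsProbabilityMeasure ν := by
    rw [← hπ.map_eq]
    exact Measure.isProbabilityMeasure_map hπ.measurable.aemeasurable
  choose g hg hfg using fun j => BM_of_memLp (hf j)
  have hπ2 : MeasurePreserving (Prod.map π (id : Z → Z)) (μ.prod ρ) (ν.prod ρ) :=
    hπ.prod (MeasurePreserving.id ρ)
  have h1 := jp_prod hJ hVm hV hVc P hP Q hQ (f := fun j => g j ∘ Prod.map π id) (fun j => by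
    obtain ⟨gm, C, hC⟩ := hg j
    exact ⟨gm.comp hπ2.measurable, C, fun x => hC _⟩)
  unfold Cv at h1
  have h2 : ∀ᵐ x ∂μ, ∀ (m : Fin k → ℕ) (j : Fin n),
      π (mv T (P j) m x) = mv R (P j) m (π x) := by
    rw [ae_all_iff]
    intro m
    rw [ae_all_iff]
    intro j
    exact inter_prod hJ.mp (inv_mp hJ.meas_symm hJ.mp) hπT _
  have h2' : ∀ᵐ p ∂(μ.prod ρ), ∀ (m : Fin k → ℕ) (j : Fin n),
      π (mv T (P j) m p.1) = mv R (P j) m (π p.1) :=
    (measurePreserving_fst (μ := μ) (ν := ρ)).quasiMeasurePreserving.ae h2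
  have hmp : ∀ (j : Fin n) (m : Fin k → ℕ),
      MeasurePreserving (g3 R V (P j) Q m) (ν.prod ρ) (ν.prod ρ) := fun j m =>
    g3_mp (μ := ν) hRm hR hVm hV (P j) Q m
  set A : Set (Y × Z) := {p | ∃ L : ℂ, Tendsto (fun N => bxc k N fun m =>
      ∏ j, g j (g3 R V (P j) Q m p)) atTop (𝓝 L)} with hA
  have hms : MeasurableSet A := by
    apply measurableSet_exists_tendsto
    intro N
    unfold bxc
    refine (Finset.measurable_fun_sum _ fun m _ => ?_).const_mul _
    exact Finset.measurable_fun_prod _ fun j _ => (hg j).1.comp (hmp j m).measurable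
  have h3 : ∀ᵐ p ∂(μ.prod ρ), Prod.map π (id : Z → Z) p ∈ A := by
    filter_upwards [h1, h2'] with p hp1 hp2
    obtain ⟨L, hL⟩ := hp1
    refine ⟨L, hL.congr fun N => ?_⟩
    congr 1
    funext m
    refine Finset.prod_congr rfl fun j _ => ?_
    show g j (π (mv T (P j) m p.1), mv V Q m p.2) = g j (mv R (P j) m (π p.1), mv V Q m p.2)
    rw [hp2]
  have h4 : ∀ᵐ p ∂(ν.prod ρ), p ∈ A := by
    rw [← hπ2.map_eq]
    exact (ae_map_iff hπ2.measurable.aemeasurable hms).mpr h3
  have h5 : ∀ᵐ p ∂(ν.prod ρ), ∀ (m : Fin k → ℕ) (j : Fin n),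
      f j (g3 R V (P j) Q m p) = g j (g3 R V (P j) Q m p) := by
    rw [ae_all_iff]
    intro m
    rw [ae_all_iff]
    intro j
    exact (hmp j m).quasiMeasurePreserving.ae (hfg j)
  filter_upwards [h4, h5] with p hp4 hp5
  obtain ⟨L, hL⟩ := hp4
  refine ⟨L, hL.congr fun N => ?_⟩
  congr 1
  funext m
  refine Finset.prod_congr rfl fun j _ => ?_
  exact (hp5 m j).symm

end Pool.Agent.Zk89.PE
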