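import Pool.Agent.Zk89.PE.Phs

/-!
# Products with discrete spectrum
-/

set_option autoImplicit false
set_option linter.unusedSectionVars false

open Filter Topology MeasureTheory Polynomial ProbabilityTheory
open scoped ENNReal

noncomputable section

namespace Pool.Agent.Zk89.PE

open Pool.Agent.W761.Box (BM bx bxc Good1 Cv Cv_closed Cv_add Cv_smul Cv_zero)
open Pool.Agent.W761.Gauss (mp_prod mp_zpow IsFactor inter_prod BM_of_memLp)

variable {X Z D Y : Type} [MeasurableSpace X] [MeasurableSpace Z] [MeasurableSpace D]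
  [MeasurableSpace Y] {μ : Measure X} [IsProbabilityMeasure μ] {ρ : Measure Z}
  [IsProbabilityMeasure ρ] {δ : Measure D} [IsProbabilityMeasure δ] {ν : Measure Y}
  {d d' n k : ℕ}

/-- The commuting maps `Δ_1, …, Δ_d` have discrete spectrum: finite linear combinations of bounded
eigenfunctions are dense in `L¹`. -/
structure IsDisc (δ : Measure D) (Δ : Fin d → Equiv.Perm D) : Prop where
  meas_symm : ∀ i, Measurable (Δ i).symm
  mp : ∀ i, MeasurePreserving (Δ i) δ δ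
  comm : ∀ i j, Commute (Δ i) (Δ j)
  dense : ∀ f : D → ℂ, BM f → ∀ ε : ℝ, 0 < ε → ∃ s ∈ Submodule.span ℂ (Eigf δ Δ),
    ∫ x, ‖f x - s x‖ ∂δ ≤ ε

theorem Eig_BM {Δ : Fin d → Equiv.Perm D} {s : D → ℂ} (h : s ∈ Submodule.span ℂ (Eigf δ Δ)) :
    BM s := by
  refine Submodule.span_induction (p := fun (f : D → ℂ) _ => BM f) ?_ ?_ ?_ ?_ h
  · intro e he
    exact he.1
  · exact ⟨measurable_const, 0, fun x => by simp⟩
  · rintro g₁ g₂ _ _ ⟨m₁, C₁, b₁⟩ ⟨m₂, C₂, b₂⟩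
    exact ⟨m₁.add m₂, C₁ + C₂, fun x => (norm_add_le _ _).trans (add_le_add (b₁ x) (b₂ x))⟩
  · rintro c g₁ _ ⟨m₁, C₁, b₁⟩
    refine ⟨m₁.const_smul c, ‖c‖ * C₁, fun x => ?_⟩
    rw [Pi.smul_apply, norm_smul]
    exact mul_le_mul_of_nonneg_left (b₁ x) (norm_nonneg _)

/-- span of eigenfunction times bounded function -/
def ES (X : Type) [MeasurableSpace X] (δ : Measure D) (Δ : Fin d → Equiv.Perm D) :
    Submodule ℂ (D × X → ℂ) :=
  Submodule.span ℂ {Φ | ∃ (e : D → ℂ) (u : X → ℂ), e ∈ Eigf δ Δ ∧ BM u ∧ Φ = tens e u}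

theorem ES_BM {Δ : Fin d → Equiv.Perm D} {Φ : D × X → ℂ} (h : Φ ∈ ES X δ Δ) : BM Φ := by
  refine TS_BM (Submodule.span_mono ?_ h)
  rintro _ ⟨e, u, he, hu, rfl⟩
  exact ⟨e, u, he.1, hu, rfl⟩

theorem tens_mem {Δ : Fin d → Equiv.Perm D} {s : D → ℂ} (h : s ∈ Submodule.span ℂ (Eigf δ Δ))
    {u : X → ℂ} (hu : BM u) : tens s u ∈ ES X δ Δ := by
  refine Submodule.span_induction (p := fun (f : D → ℂ) _ => tens f u ∈ ES X δ Δ) ?_ ?_ ?_ ?_ h
  · intro e he
    exact Submodule.subset_span ⟨e, u, he, hu, rfl⟩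
  · have e0 : tens (0 : D → ℂ) u = 0 := by
      funext p
      simp [tens]
    rw [e0]
    exact (ES X δ Δ).zero_mem
  · intro g₁ g₂ _ _ h₁ h₂
    have e0 : tens (g₁ + g₂) u = tens g₁ u + tens g₂ u := by
      funext p
      simp only [tens, Pi.add_apply]
      ring
    rw [e0]
    exact (ES X δ Δ).add_mem h₁ h₂
  · intro c g₁ _ h₁
    have e0 : tens (c • g₁) u = c • tens g₁ u := by
      funext p
      simp only [tens, Pi.smul_apply, smul_eq_mul]
      ring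
    rw [e0]
    exact (ES X δ Δ).smul_mem c h₁

theorem ES_dense {Δ : Fin d → Equiv.Perm D} (hD : IsDisc δ Δ) {f : D × X → ℂ} (hf : BM f)
    {ε : ℝ} (hε : 0 < ε) : ∃ Φ ∈ ES X δ Δ, ∫ p, ‖f p - Φ p‖ ∂(δ.prod μ) ≤ ε := by
  have key : ∀ Φ ∈ TS D X, BM Φ ∧ ∀ ε : ℝ, 0 < ε → ∃ Ψ ∈ ES X δ Δ,
      ∫ p, ‖Φ p - Ψ p‖ ∂(δ.prod μ) ≤ ε := by
    intro Φ hΦ
    refine ⟨TS_BM hΦ, ?_⟩
    refine Submodule.span_induction (p := fun (Φ : D × X → ℂ) hΦ =>
      ∀ ε : ℝ, 0 < ε → ∃ Ψ ∈ ES X δ Δ, ∫ p, ‖Φ p - Ψ p‖ ∂(δ.prod μ) ≤ ε) ?_ ?_ ?_ ?_ hΦ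
    · rintro _ ⟨u₁, u₂, h₁, h₂, rfl⟩ ε hε
      obtain ⟨C, hC⟩ := h₂.2
      obtain ⟨s, hs, hi⟩ := hD.dense u₁ h₁ (ε / (|C| + 1)) (by positivity)
      refine ⟨tens s u₂, tens_mem hs h₂, ?_⟩
      have hb := BM_sub h₁ (Eig_BM hs)
      have hint : Integrable (fun p : D × X => ‖u₁ p.1 - s p.1‖ * (|C| + 1)) (δ.prod μ) := by
        obtain ⟨hm, C', hC'⟩ := hb
        have hb2 : BM (fun p : D × X => u₁ p.1 - s p.1) :=
          ⟨hm.comp measurable_fst, C', fun p => hC' _⟩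
        exact (BM_int hb2).norm.mul_const _
      calc ∫ p, ‖tens u₁ u₂ p - tens s u₂ p‖ ∂(δ.prod μ)
          ≤ ∫ p, ‖u₁ p.1 - s p.1‖ * (|C| + 1) ∂(δ.prod μ) := by
            refine integral_mono_of_nonneg (Eventually.of_forall fun p => norm_nonneg _) hint
              (Eventually.of_forall fun p => ?_)
            show ‖u₁ p.1 * u₂ p.2 - s p.1 * u₂ p.2‖ ≤ ‖u₁ p.1 - s p.1‖ * (|C| + 1)
            rw [← sub_mul, norm_mul]
            exact mul_le_mul_of_nonneg_left ((hC _).trans ((le_abs_self C).trans (by linarith)))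
              (norm_nonneg _)
        _ = (∫ x, ‖u₁ x - s x‖ ∂δ) * (|C| + 1) := by
            rw [integral_mul_const]
            congr 1
            have hmp : MeasurePreserving (Prod.fst : D × X → D) (δ.prod μ) δ :=
              measurePreserving_fst
            have h5 : ∫ x, ‖u₁ x - s x‖ ∂((δ.prod μ).map Prod.fst) =
                ∫ p, ‖u₁ p.1 - s p.1‖ ∂(δ.prod μ) :=
              integral_map hmp.measurable.aemeasurable (by
                rw [hmp.map_eq]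
                exact hb.1.norm.aestronglyMeasurable)
            rw [hmp.map_eq] at h5
            exact h5.symm
        _ ≤ ε / (|C| + 1) * (|C| + 1) := mul_le_mul_of_nonneg_right hi (by positivity)
        _ = ε := by field_simp
    · intro ε hε
      refine ⟨0, (ES X δ Δ).zero_mem, ?_⟩
      simp only [Pi.zero_apply, sub_self, norm_zero, integral_zero]
      exact hε.le
    · intro g₁ g₂ m₁ m₂ h₁ h₂ ε hε
      obtain ⟨Ψ₁, p₁, i₁⟩ := h₁ (ε / 2) (half_pos hε)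
      obtain ⟨Ψ₂, p₂, i₂⟩ := h₂ (ε / 2) (half_pos hε)
      refine ⟨Ψ₁ + Ψ₂, (ES X δ Δ).add_mem p₁ p₂, ?_⟩
      have b₁ := (BM_int (m := δ.prod μ) (BM_sub (TS_BM m₁) (ES_BM p₁))).norm
      have b₂ := (BM_int (m := δ.prod μ) (BM_sub (TS_BM m₂) (ES_BM p₂))).norm
      calc ∫ p, ‖(g₁ + g₂) p - (Ψ₁ + Ψ₂) p‖ ∂(δ.prod μ)
          ≤ ∫ p, (‖g₁ p - Ψ₁ p‖ + ‖g₂ p - Ψ₂ p‖) ∂(δ.prod μ) := by
            refine integral_mono_of_nonneg (Eventually.of_forall fun p => norm_nonneg _)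
              (b₁.add b₂) (Eventually.of_forall fun p => ?_)
            have e : (g₁ + g₂) p - (Ψ₁ + Ψ₂) p = (g₁ p - Ψ₁ p) + (g₂ p - Ψ₂ p) := by
              simp only [Pi.add_apply]
              ring
            show ‖_‖ ≤ _
            rw [e]
            exact norm_add_le _ _
        _ = _ := integral_add b₁ b₂
        _ ≤ ε / 2 + ε / 2 := add_le_add i₁ i₂
        _ = ε := by ring
    · intro c g₁ m₁ h₁ ε hε
      obtain ⟨Ψ₁, p₁, i₁⟩ := h₁ (ε / (‖c‖ + 1)) (by positivity)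
      refine ⟨c • Ψ₁, (ES X δ Δ).smul_mem c p₁, ?_⟩
      have e : ∀ p, ‖(c • g₁) p - (c • Ψ₁) p‖ = ‖c‖ * ‖g₁ p - Ψ₁ p‖ := by
        intro p
        rw [Pi.smul_apply, Pi.smul_apply, ← smul_sub, norm_smul]
      simp only [e]
      rw [integral_const_mul]
      calc ‖c‖ * ∫ p, ‖g₁ p - Ψ₁ p‖ ∂(δ.prod μ) ≤ (‖c‖ + 1) * (ε / (‖c‖ + 1)) :=
            mul_le_mul (by linarith) i₁ (integral_nonneg fun _ => norm_nonneg _) (by positivity)
        _ = ε := by field_simp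
  obtain ⟨Φ, hΦ, h1⟩ := tens_dense (m := δ.prod μ) hf (half_pos hε)
  obtain ⟨Ψ, hΨ, h2⟩ := (key Φ hΦ).2 (ε / 2) (half_pos hε)
  refine ⟨Ψ, hΨ, ?_⟩
  calc _ ≤ _ := tri hf (TS_BM hΦ) (ES_BM hΨ)
    _ ≤ ε / 2 + ε / 2 := add_le_add h1 h2
    _ = ε := by ring

/-- product of permutations -/
def kap {D X : Type} : Equiv.Perm D × Equiv.Perm X →* Equiv.Perm (D × X) where
  toFun a := Equiv.prodCongr a.1 a.2
  map_one' := rfl
  map_mul' _ _ := rfl

/-- product of actions -/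
def pT {D X : Type} (Δ : Fin d → Equiv.Perm D) (T : Fin d → Equiv.Perm X) (i : Fin d) :
    Equiv.Perm (D × X) := Equiv.prodCongr (Δ i) (T i)

theorem mv_pT {D X : Type} (Δ : Fin d → Equiv.Perm D) (T : Fin d → Equiv.Perm X)
    (P : Fin d → MvPolynomial (Fin k) ℤ) (m : Fin k → ℕ) (p : D × X) :
    mv (pT Δ T) P m p = (mv Δ P m p.1, mv T P m p.2) := by
  have e1 : mv (pT Δ T) P m = kap (mv Δ P m, mv T P m) := by
    have e2 : mv (pT Δ T) P m =
        kap ((List.ofFn fun i => ((Δ i, T i) : Equiv.Perm D × Equiv.Perm X) ^ ev P m i).prod) := by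
      unfold mv
      rw [map_list_prod, List.map_ofFn]
      congr 2
      funext i
      rw [Function.comp_apply, map_zpow]
      rfl
    rw [e2]
    congr 1
    apply Prod.ext
    · show (MonoidHom.fst (Equiv.Perm D) (Equiv.Perm X)) _ = _
      rw [map_list_prod, List.map_ofFn]
      rfl
    · show (MonoidHom.snd (Equiv.Perm D) (Equiv.Perm X)) _ = _
      rw [map_list_prod, List.map_ofFn]
      rfl
  rw [e1]
  rfl

theorem mv_zero {Ω : Type} (T : Fin d → Equiv.Perm Ω) (m : Fin k → ℕ) :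
    mv T (fun _ => (0 : MvPolynomial (Fin k) ℤ)) m = 1 := by
  unfold mv ev
  simp

end Pool.Agent.Zk89.PE
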