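import Pool.Agent.Zk89.PE.Gauss
import Pool.Agent.Zk89.KC.Fin
import Pool.Agent.Zk59.PE.GAX
import Pool.Agent.W761.Box.Main

/-!
# Factors of Gaussian actions along polynomials, with one more function on an arbitrary system
-/

set_option autoImplicit false
set_option linter.unusedSectionVars false

open Filter Topology MeasureTheory Polynomial ProbabilityTheory
open scoped ENNReal

noncomputable section

namespace Pool.Agent.Zk89.PE

open Pool.Agent.W761.Box (BM bx bxc Good1 Cv)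
open Pool.Agent.W761.Gauss (GaussSpace Adm sig sat le_sat sig_mono IsGaussianAction IsFactor
  adm_prod inter_prod mp_prod BM_of_memLp)
open Pool.Agent.Zk89.AP (act act_apply)

variable {X Y Z : Type} [MeasurableSpace X] [MeasurableSpace Y] [MeasurableSpace Z]
  {μ : Measure X} [IsProbabilityMeasure μ] {ν : Measure Y} {ρ : Measure Z}
  [IsProbabilityMeasure ρ] {d n k : ℕ}

/-- exponents -/
def ev (P : Fin d → MvPolynomial (Fin k) ℤ) (m : Fin k → ℕ) (i : Fin d) : ℤ :=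
  MvPolynomial.eval (fun l => ((m l : ℕ) : ℤ)) (P i)

/-- the maps -/
def mv {Ω : Type} (T : Fin d → Equiv.Perm Ω) (P : Fin d → MvPolynomial (Fin k) ℤ)
    (m : Fin k → ℕ) : Equiv.Perm Ω :=
  (List.ofFn fun i => T i ^ ev P m i).prod

theorem inv_mp {Ω : Type} [MeasurableSpace Ω] {P : Measure Ω} {T : Fin d → Equiv.Perm Ω}
    (hTm : ∀ i, Measurable (T i).symm) (hT : ∀ i, MeasurePreserving (T i) P P) (i : Fin d) :
    MeasurePreserving ((T i)⁻¹ : Equiv.Perm Ω) P P := by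
  let e : Ω ≃ᵐ Ω := ⟨T i, (hT i).measurable, hTm i⟩
  exact (hT i).symm e

theorem gauss_conv {T : Fin d → Equiv.Perm X} (hT : IsGaussianAction μ T)
    {V : Fin d → Equiv.Perm Z} (hVm : ∀ i, Measurable (V i).symm)
    (hV : ∀ i, MeasurePreserving (V i) ρ ρ) (hVc : ∀ i j, Commute (V i) (V j))
    (P : Fin n → Fin d → MvPolynomial (Fin k) ℤ)
    (hP : ∀ j i, ∀ s ∈ (P j i).support, s.support.card ≤ 1)
    (Q : Fin d → MvPolynomial (Fin k) ℤ) (hQ : ∀ i, ∀ s ∈ (Q i).support, s.support.card ≤ 1)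
    {f : Fin n → X → ℂ} (hf : ∀ j, BM (f j)) {F : Z → ℂ} (hF : BM F) :
    ∀ᵐ p ∂(μ.prod ρ), ∃ L : ℂ, Tendsto (fun N => bxc k N fun m =>
      (∏ j, f j (mv T (P j) m p.1)) * F (mv V Q m p.2)) atTop (𝓝 L) := by
  obtain ⟨H, h1, h2, h3⟩ := hT.gauss
  have hH : GaussSpace μ H := ⟨fun h hh => (h1 h hh).1, fun h hh => (h1 h hh).2⟩
  have hadm : ∀ i, Adm μ (sat μ H) (T i) := by
    intro i
    have hinv : MeasurePreserving ((T i)⁻¹ : Equiv.Perm X) μ μ := inv_mp hT.meas_symm hT.mp i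
    refine ⟨hT.mp i, hinv, ?_, ?_⟩
    · rintro g ⟨hg, h, hh, e⟩
      obtain ⟨h', hh', e'⟩ := (h2 i h hh).1
      refine ⟨hg.comp (hT.mp i).measurable, h', hh', ?_⟩
      exact ((hT.mp i).quasiMeasurePreserving.ae_eq_comp e).trans e'
    · rintro g ⟨hg, h, hh, e⟩
      obtain ⟨h', hh', e'⟩ := (h2 i h hh).2
      refine ⟨hg.comp hinv.measurable, h', hh', ?_⟩
      exact (hinv.quasiMeasurePreserving.ae_eq_comp e).trans e'
  have hgen : ∀ A, MeasurableSet A → ∃ B, MeasurableSet[sig (sat μ H)] B ∧ A =ᵐ[μ] B := by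
    intro A hA
    obtain ⟨B, hB, e⟩ := h3 A hA
    exact ⟨B, sig_mono (le_sat hH) B hB, e⟩
  choose b R _ hR using fun (s : Option (Fin n)) (i : Fin d) =>
    Pool.Agent.Zk89.KC.exists_sep0 (s.elim (Q i) fun j => P j i) (by
      rcases s with _ | j
      · exact hQ i
      · exact hP j i)
  have hxs : ∀ (j : Fin n) (m : Fin k → ℕ), xp (b (some j)) (R (some j)) m = ev (P j) m := by
    intro j m
    funext i
    exact (hR (some j) i fun l => ((m l : ℕ) : ℤ)).symm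
  have hxn : ∀ (m : Fin k → ℕ), xp (b none) (R none) m = ev Q m := by
    intro m
    funext i
    exact (hR none i fun l => ((m l : ℕ) : ℤ)).symm
  have hA : ∀ a : Multiplicative (Fin d → ℤ), Adm μ (sat μ H) (act T hT.comm a) := by
    intro a
    exact adm_prod hadm (Multiplicative.toAdd a)
  have hB : ∀ a : Multiplicative (Fin d → ℤ), MeasurePreserving (act V hVc a) ρ ρ := by
    intro a
    exact mp_prod hV (inv_mp hVm hV) (Multiplicative.toAdd a)
  have hmain := cv_all (n := n) (k := k) Pool.Agent.Zk59.PE.thmGAX hH.sat hgen hT.comm hA hVc hB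
    b R hf hF
  unfold Cv at hmain
  refine hmain.mono fun p hp => ?_
  obtain ⟨L, hL⟩ := hp
  refine ⟨L, hL.congr fun N => ?_⟩
  congr 1
  funext m
  rw [Fintype.prod_option, mul_comm]
  refine congrArg₂ (· * ·) (Finset.prod_congr rfl fun j _ => ?_) ?_
  · show f j ((List.ofFn fun i => T i ^ xp (b (some j)) (R (some j)) m i).prod p.1) = _
    rw [hxs]
    rfl
  · show F ((List.ofFn fun i => V i ^ xp (b none) (R none) m i).prod p.2) = _
    rw [hxn]
    rfl

/-- **Factors.** -/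
theorem gauss_factor {T : Fin d → Equiv.Perm X} (hT : IsGaussianAction μ T)
    {R : Fin d → Equiv.Perm Y} (hRm : ∀ i, Measurable (R i).symm)
    (hR : ∀ i, MeasurePreserving (R i) ν ν) (hfac : IsFactor μ T ν R)
    {V : Fin d → Equiv.Perm Z} (hVm : ∀ i, Measurable (V i).symm)
    (hV : ∀ i, MeasurePreserving (V i) ρ ρ) (hVc : ∀ i j, Commute (V i) (V j))
    (P : Fin n → Fin d → MvPolynomial (Fin k) ℤ)
    (hP : ∀ j i, ∀ s ∈ (P j i).support, s.support.card ≤ 1)
    (Q : Fin d → MvPolynomial (Fin k) ℤ) (hQ : ∀ i, ∀ s ∈ (Q i).support, s.support.card ≤ 1)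
    {f : Fin n → Y → ℂ} (hf : ∀ j, MemLp (f j) ∞ ν) {F : Z → ℂ} (hF : MemLp F ∞ ρ) :
    ∀ᵐ p ∂(ν.prod ρ), ∃ L : ℂ, Tendsto (fun N => bxc k N fun m =>
      (∏ j, f j (mv R (P j) m p.1)) * F (mv V Q m p.2)) atTop (𝓝 L) := by
  obtain ⟨π, hπ, hπT⟩ := hfac
  have hνp : IsProbabilityMeasure ν := by
    rw [← hπ.map_eq]
    exact Measure.isProbabilityMeasure_map hπ.measurable.aemeasurable
  choose g hg hfg using fun j => BM_of_memLp (hf j)
  obtain ⟨G, hG, hFG⟩ := BM_of_memLp hF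
  have h1 := gauss_conv hT hVm hV hVc P hP Q hQ (f := fun j => g j ∘ π) (fun j => by
    obtain ⟨gm, C, hC⟩ := hg j
    exact ⟨gm.comp hπ.measurable, C, fun x => hC _⟩) hG
  have h2 : ∀ᵐ x ∂μ, ∀ (m : Fin k → ℕ) (j : Fin n),
      π (mv T (P j) m x) = mv R (P j) m (π x) := by
    rw [ae_all_iff]
    intro m
    rw [ae_all_iff]
    intro j
    exact inter_prod hT.mp (inv_mp hT.meas_symm hT.mp) hπT _
  have h2' : ∀ᵐ p ∂(μ.prod ρ), ∀ (m : Fin k → ℕ) (j : Fin n),
      π (mv T (P j) m p.1) = mv R (P j) m (π p.1) :=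
    (measurePreserving_fst (μ := μ) (ν := ρ)).quasiMeasurePreserving.ae h2
  have hmR : ∀ (m : Fin k → ℕ) (P : Fin d → MvPolynomial (Fin k) ℤ),
      MeasurePreserving (mv R P m) ν ν := fun m P => mp_prod hR (inv_mp hRm hR) _
  have hmV : ∀ (m : Fin k → ℕ) (P : Fin d → MvPolynomial (Fin k) ℤ),
      MeasurePreserving (mv V P m) ρ ρ := fun m P => mp_prod hV (inv_mp hVm hV) _
  set A : Set (Y × Z) := {p | ∃ L : ℂ, Tendsto (fun N => bxc k N fun m =>
      (∏ j, g j (mv R (P j) m p.1)) * G (mv V Q m p.2)) atTop (𝓝 L)} with hA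
  have hms : MeasurableSet A := by
    apply measurableSet_exists_tendsto
    intro N
    unfold bxc
    refine (Finset.measurable_fun_sum _ fun m _ => ?_).const_mul _
    refine (Finset.measurable_fun_prod _ fun j _ => ?_).mul ?_
    · exact (hg j).1.comp ((hmR m (P j)).measurable.comp measurable_fst)
    · exact hG.1.comp ((hmV m Q).measurable.comp measurable_snd)
  have hπ2 : MeasurePreserving (Prod.map π (id : Z → Z)) (μ.prod ρ) (ν.prod ρ) :=
    hπ.prod (MeasurePreserving.id ρ)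
  have h3 : ∀ᵐ p ∂(μ.prod ρ), Prod.map π (id : Z → Z) p ∈ A := by
    filter_upwards [h1, h2'] with p hp1 hp2
    obtain ⟨L, hL⟩ := hp1
    refine ⟨L, hL.congr fun N => ?_⟩
    congr 1
    funext m
    refine congrArg₂ (· * ·) (Finset.prod_congr rfl fun j _ => ?_) rfl
    show g j (π (mv T (P j) m p.1)) = g j (mv R (P j) m (π p.1))
    rw [hp2]
  have h4 : ∀ᵐ p ∂(ν.prod ρ), p ∈ A := by
    rw [← hπ2.map_eq]
    exact (ae_map_iff hπ2.measurable.aemeasurable hms).mpr h3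
  have h5 : ∀ᵐ y ∂ν, ∀ (m : Fin k → ℕ) (j : Fin n),
      f j (mv R (P j) m y) = g j (mv R (P j) m y) := by
    rw [ae_all_iff]
    intro m
    rw [ae_all_iff]
    intro j
    exact (hmR m (P j)).quasiMeasurePreserving.ae (hfg j)
  have h6 : ∀ᵐ z ∂ρ, ∀ (m : Fin k → ℕ), F (mv V Q m z) = G (mv V Q m z) := by
    rw [ae_all_iff]
    intro m
    exact (hmV m Q).quasiMeasurePreserving.ae hFG
  have h5' : ∀ᵐ p ∂(ν.prod ρ), ∀ (m : Fin k → ℕ) (j : Fin n),
      f j (mv R (P j) m p.1) = g j (mv R (P j) m p.1) :=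
    (measurePreserving_fst (μ := ν) (ν := ρ)).quasiMeasurePreserving.ae h5
  have h6' : ∀ᵐ p ∂(ν.prod ρ), ∀ (m : Fin k → ℕ), F (mv V Q m p.2) = G (mv V Q m p.2) :=
    (measurePreserving_snd (μ := ν) (ν := ρ)).quasiMeasurePreserving.ae h6
  filter_upwards [h4, h5', h6'] with p hp4 hp5 hp6
  obtain ⟨L, hL⟩ := hp4
  refine ⟨L, hL.congr fun N => ?_⟩
  congr 1
  funext m
  simp only [hp5, hp6]

end Pool.Agent.Zk89.PE
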