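import Pool.Agent.Zk89.PE.GaussA

/-!
# Gaussian actions along polynomials, with one more function on an arbitrary system
-/

set_option autoImplicit false
set_option linter.unusedSectionVars false

open Filter Topology MeasureTheory Polynomial
open scoped ENNReal

noncomputable section

namespace Pool.Agent.Zk89.PE

open Pool.Agent.W761.Box (BM bx bxc Good1 Cv Cv_closed Cv_add Cv_smul Cv_zero prod_zpow_add)
open Pool.Agent.W761.Gauss (GaussSpace ex ex_sum norm_ex meas_exh Adm sig dense_EP)
open Pool.Agent.Zk89.AP (act act_apply gen prod_gen)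

variable {X Z : Type} [MeasurableSpace X] [MeasurableSpace Z] {μ : Measure X}
  [IsProbabilityMeasure μ] {ρ : Measure Z} [IsProbabilityMeasure ρ]
  {H : Submodule ℝ (X → ℝ)} {d n k : ℕ}

/-- the action on the product, first factor -/
def prodL {A : Type} [Group A] (Φ : A →* Equiv.Perm X) : A →* Equiv.Perm (X × Z) where
  toFun a := Equiv.prodCongr (Φ a) (Equiv.refl Z)
  map_one' := by
    apply Equiv.ext
    intro p
    show (Φ 1 p.1, p.2) = p
    rw [map_one]
    rfl
  map_mul' a b := by
    apply Equiv.ext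
    intro p
    show (Φ (a * b) p.1, p.2) = (Φ a (Φ b p.1), p.2)
    rw [map_mul]
    rfl

/-- the action on the product, second factor -/
def prodR {A : Type} [Group A] (Φ : A →* Equiv.Perm Z) : A →* Equiv.Perm (X × Z) where
  toFun a := Equiv.prodCongr (Equiv.refl X) (Φ a)
  map_one' := by
    apply Equiv.ext
    intro p
    show (p.1, Φ 1 p.2) = p
    rw [map_one]
    rfl
  map_mul' a b := by
    apply Equiv.ext
    intro p
    show (p.1, Φ (a * b) p.2) = (p.1, Φ a (Φ b p.2))
    rw [map_mul]
    rfl

theorem prodL_apply {A : Type} [Group A] (Φ : A →* Equiv.Perm X) (a : A) (p : X × Z) :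
    prodL Φ a p = (Φ a p.1, p.2) := rfl

theorem prodR_apply {A : Type} [Group A] (Φ : A →* Equiv.Perm Z) (a : A) (p : X × Z) :
    prodR Φ a p = (p.1, Φ a p.2) := rfl

/-- the maps of the slots -/
def gg (T : Fin d → Equiv.Perm X) (V : Fin d → Equiv.Perm Z) (b : Option (Fin n) → Fin d → ℤ)
    (Q : Option (Fin n) → Fin d → Fin k → ℤ[X]) (s : Option (Fin n)) (m : Fin k → ℕ)
    (p : X × Z) : X × Z :=
  match s with
  | some j => ((List.ofFn fun i => T i ^ xp (b (some j)) (Q (some j)) m i).prod p.1, p.2)
  | none => (p.1, (List.ofFn fun i => V i ^ xp (b none) (Q none) m i).prod p.2)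

/-- the functions of the slots -/
def lft (F : Fin n → X → ℂ) (F' : Z → ℂ) (s : Option (Fin n)) (p : X × Z) : ℂ :=
  match s with
  | some j => F j p.1
  | none => F' p.2

theorem lft_update (F : Fin n → X → ℂ) (F' : Z → ℂ) (j : Fin n) (f : X → ℂ) :
    lft (Function.update F j f) F' = Function.update (lft F F') (some j) (fun p => f p.1) := by
  funext s p
  rcases s with _ | i
  · rw [Function.update_of_ne (by simp)]
    rfl
  · by_cases h : i = j
    · subst h
      rw [Function.update_self]
      show Function.update F i f i p.1 = _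
      rw [Function.update_self]
    · rw [Function.update_of_ne (by simpa using h)]
      show Function.update F j f i p.1 = _
      rw [Function.update_of_ne h]
      rfl

theorem gen_xp (b : Fin d → ℤ) (Q : Fin d → Fin k → ℤ[X]) (m : Fin k → ℕ) :
    (Multiplicative.ofAdd (xp b Q m) : Multiplicative (Fin d → ℤ)) =
      Multiplicative.ofAdd b * ∏ l, ∏ i, gen i ^ (Q i l).eval ((m l : ℕ) : ℤ) := by
  simp only [prod_gen]
  rw [← ofAdd_sum, ← ofAdd_add]
  congr 1
  funext i
  rw [Pi.add_apply, Finset.sum_apply]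
  rfl

theorem gg_some {T : Fin d → Equiv.Perm X} (hc : ∀ i j, Commute (T i) (T j))
    (V : Fin d → Equiv.Perm Z)
    (b : Option (Fin n) → Fin d → ℤ) (Q : Option (Fin n) → Fin d → Fin k → ℤ[X])
    (j : Fin n) (m : Fin k → ℕ) : gg T V b Q (some j) m =
      (prodL (Z := Z) (act T hc) (Multiplicative.ofAdd (xp (b (some j)) (Q (some j)) m)) :
        X × Z → X × Z) := by
  funext p
  rw [prodL_apply, act_apply]
  rfl

theorem gg_none (T : Fin d → Equiv.Perm X)
    {V : Fin d → Equiv.Perm Z} (hVc : ∀ i j, Commute (V i) (V j))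
    (b : Option (Fin n) → Fin d → ℤ) (Q : Option (Fin n) → Fin d → Fin k → ℤ[X])
    (m : Fin k → ℕ) : gg T V b Q none m =
      (prodR (X := X) (act V hVc) (Multiplicative.ofAdd (xp (b none) (Q none) m)) :
        X × Z → X × Z) := by
  funext p
  rw [prodR_apply, act_apply]
  rfl

theorem prodL_mp {A : Type} [Group A] {Φ : A →* Equiv.Perm X}
    (hΦ : ∀ a, MeasurePreserving (Φ a) μ μ) (a : A) :
    MeasurePreserving (prodL (Z := Z) Φ a) (μ.prod ρ) (μ.prod ρ) := by
  have h1 : (prodL (Z := Z) Φ a : X × Z → X × Z) = Prod.map (Φ a) id := rfl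
  rw [h1]
  exact (hΦ a).prod (MeasurePreserving.id ρ)

theorem prodR_mp {A : Type} [Group A] {Φ : A →* Equiv.Perm Z}
    (hΦ : ∀ a, MeasurePreserving (Φ a) ρ ρ) (a : A) :
    MeasurePreserving (prodR (X := X) Φ a) (μ.prod ρ) (μ.prod ρ) := by
  have h1 : (prodR (X := X) Φ a : X × Z → X × Z) = Prod.map id (Φ a) := rfl
  rw [h1]
  exact (MeasurePreserving.id μ).prod (hΦ a)

theorem gg_mp {T : Fin d → Equiv.Perm X}
    (hc : ∀ i j, Commute (T i) (T j)) (hT : ∀ a : Multiplicative (Fin d → ℤ),
      MeasurePreserving (act T hc a) μ μ) {V : Fin d → Equiv.Perm Z}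
    (hVc : ∀ i j, Commute (V i) (V j))
    (hV : ∀ a : Multiplicative (Fin d → ℤ), MeasurePreserving (act V hVc a) ρ ρ)
    (b : Option (Fin n) → Fin d → ℤ) (Q : Option (Fin n) → Fin d → Fin k → ℤ[X])
    (s : Option (Fin n)) (m : Fin k → ℕ) :
    MeasurePreserving (gg T V b Q s m) (μ.prod ρ) (μ.prod ρ) := by
  rcases s with _ | j
  · rw [gg_none T hVc]
    exact prodR_mp hV _
  · rw [gg_some hc]
    exact prodL_mp hT _

theorem good_xp {Ω : Type} [MeasurableSpace Ω] {P : Measure Ω} [IsProbabilityMeasure P]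
    {Ψ : Multiplicative (Fin d → ℤ) →* Equiv.Perm Ω} (hΨ : ∀ g, MeasurePreserving (Ψ g) P P)
    (b : Fin d → ℤ) (Q : Fin d → Fin k → ℤ[X]) :
    Good1 P (fun m : Fin k → ℕ => (Ψ (Multiplicative.ofAdd (xp b Q m)) : Ω → Ω)) := by
  have h1 := good_box hΨ (Multiplicative.ofAdd b) (fun i : Fin d => gen i) (fun l i => Q i l)
  have h2 : (fun m : Fin k → ℕ => (Ψ (Multiplicative.ofAdd (xp b Q m)) : Ω → Ω)) =
      fun m : Fin k → ℕ => (Ψ (Multiplicative.ofAdd b *
        ∏ l, ∏ i, gen i ^ (Q i l).eval ((m l : ℕ) : ℤ)) : Ω → Ω) := by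
    funext m
    rw [gen_xp]
  rw [h2]
  exact h1

theorem gg_good {T : Fin d → Equiv.Perm X}
    (hc : ∀ i j, Commute (T i) (T j)) (hT : ∀ a : Multiplicative (Fin d → ℤ),
      MeasurePreserving (act T hc a) μ μ) {V : Fin d → Equiv.Perm Z}
    (hVc : ∀ i j, Commute (V i) (V j))
    (hV : ∀ a : Multiplicative (Fin d → ℤ), MeasurePreserving (act V hVc a) ρ ρ)
    (b : Option (Fin n) → Fin d → ℤ) (Q : Option (Fin n) → Fin d → Fin k → ℤ[X])
    (s : Option (Fin n)) : Good1 (μ.prod ρ) (gg T V b Q s) := by
  rcases s with _ | j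
  · have h1 := good_xp (Ψ := prodR (X := X) (act V hVc)) (P := μ.prod ρ)
      (fun a => prodR_mp hV a) (b none) (Q none)
    have h2 : gg T V b Q none = fun m : Fin k → ℕ =>
        (prodR (X := X) (act V hVc) (Multiplicative.ofAdd (xp (b none) (Q none) m)) :
        X × Z → X × Z) := by
      funext m
      exact gg_none T hVc b Q m
    rw [h2]
    exact h1
  · have h1 := good_xp (Ψ := prodL (Z := Z) (act T hc)) (P := μ.prod ρ)
      (fun a => prodL_mp hT a) (b (some j)) (Q (some j))
    have h2 : gg T V b Q (some j) = fun m : Fin k → ℕ =>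
        (prodL (Z := Z) (act T hc) (Multiplicative.ofAdd (xp (b (some j)) (Q (some j)) m)) :
        X × Z → X × Z) := by
      funext m
      exact gg_some hc V b Q j m
    rw [h2]
    exact h1

/-- **All bounded functions.** -/
theorem cv_all (hGAX : S_GAX) (hH : GaussSpace μ H)
    (hgen : ∀ A, MeasurableSet A → ∃ B, MeasurableSet[sig H] B ∧ A =ᵐ[μ] B)
    {T : Fin d → Equiv.Perm X}
    (hc : ∀ i j, Commute (T i) (T j)) (hadm : ∀ a : Multiplicative (Fin d → ℤ),
      Adm μ H (act T hc a)) {V : Fin d → Equiv.Perm Z} (hVc : ∀ i j, Commute (V i) (V j))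
    (hV : ∀ a : Multiplicative (Fin d → ℤ), MeasurePreserving (act V hVc a) ρ ρ)
    (b : Option (Fin n) → Fin d → ℤ) (Q : Option (Fin n) → Fin d → Fin k → ℤ[X])
    {F : Fin n → X → ℂ} (hF : ∀ j, BM (F j)) {F' : Z → ℂ} (hF' : BM F') :
    Cv (μ.prod ρ) (gg T V b Q) (lft F F') := by
  classical
  have key : ∀ (B : Finset (Fin n)) (F : Fin n → X → ℂ), (∀ j ∈ B, BM (F j)) →
      (∀ j ∉ B, ∃ h ∈ H, F j = fun x => ex (h x)) → Cv (μ.prod ρ) (gg T V b Q) (lft F F') := by
    intro B
    induction B using Finset.induction_on with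
    | empty =>
      intro F _ h2
      choose h hh hFh using fun j => h2 j (Finset.notMem_empty j)
      have h3 := base hGAX hH hc hadm hVc hV b Q hh hF'
      filter_upwards [h3] with x hx
      obtain ⟨L, hL⟩ := hx
      refine ⟨L, hL.congr fun N => ?_⟩
      congr 1
      funext m
      rw [Fintype.prod_option, ex_sum, mul_comm]
      refine congrArg₂ (· * ·) rfl ?_
      refine Finset.prod_congr rfl fun j _ => ?_
      show _ = F j _
      rw [hFh j]
      rfl
    | insert j B hj ih =>
      intro F h1 h2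
      have hBMall : ∀ l, BM (F l) := by
        intro l
        by_cases hl : l ∈ insert j B
        · exact h1 l hl
        · obtain ⟨h, hh, e⟩ := h2 l hl
          rw [e]
          exact ⟨meas_exh hH hh, 1, fun x => (norm_ex _).le⟩
      have hlft : ∀ s, BM (lft F F' s) := by
        intro s
        rcases s with _ | l
        · obtain ⟨hm, C, hC⟩ := hF'
          exact ⟨hm.comp measurable_snd, C, fun p => hC _⟩
        · obtain ⟨hm, C, hC⟩ := hBMall l
          exact ⟨hm.comp measurable_fst, C, fun p => hC _⟩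
      have hbmj : BM (F j) := hBMall j
      have hmain : Cv (μ.prod ρ) (gg T V b Q)
          (Function.update (lft F F') (some j) (fun p => F j p.1)) := by
        refine Cv_closed (gg_mp hc (fun a => (hadm a).mp) hVc hV b Q)
          (gg_good hc (fun a => (hadm a).mp) hVc hV b Q) hlft (hlft (some j)) ?_
        intro ε hε
        obtain ⟨hfm, C, hC⟩ := hbmj
        have hmem : MemLp (F j) 2 μ := MemLp.of_bound hfm.aestronglyMeasurable C
          (Eventually.of_forall hC)
        obtain ⟨f', hf', hff'⟩ := dense_EP hH hgen hmem hε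
        have hg' : BM f' ∧ Cv (μ.prod ρ) (gg T V b Q) (lft (Function.update F j f') F') := by
          refine Submodule.span_induction
            (p := fun (f' : X → ℂ) _ => BM f' ∧
              Cv (μ.prod ρ) (gg T V b Q) (lft (Function.update F j f') F')) ?_ ?_ ?_ ?_ hf'
          · rintro _ ⟨h, hh, rfl⟩
            refine ⟨⟨meas_exh hH hh, 1, fun x => (norm_ex _).le⟩, ?_⟩
            apply ih
            · intro l hl
              have hlj : l ≠ j := fun e => hj (e ▸ hl)
              rw [Function.update_of_ne hlj]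
              exact h1 l (Finset.mem_insert_of_mem hl)
            · intro l hl
              by_cases hlj : l = j
              · subst hlj
                exact ⟨h, hh, by rw [Function.update_self]⟩
              · rw [Function.update_of_ne hlj]
                apply h2
                intro hmem'
                rcases Finset.mem_insert.mp hmem' with h5 | h5
                · exact hlj h5
                · exact hl h5
          · refine ⟨⟨measurable_const, 0, fun x => by simp⟩, ?_⟩
            rw [lft_update]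
            exact Cv_zero
          · rintro g₁ g₂ _ _ ⟨⟨m₁, C₁, b₁⟩, c₁⟩ ⟨⟨m₂, C₂, b₂⟩, c₂⟩
            refine ⟨⟨m₁.add m₂, C₁ + C₂, fun x => (norm_add_le _ _).trans
              (add_le_add (b₁ x) (b₂ x))⟩, ?_⟩
            rw [lft_update] at c₁ c₂ ⊢
            exact Cv_add c₁ c₂
          · rintro c g₁ _ ⟨⟨m₁, C₁, b₁⟩, c₁⟩
            refine ⟨⟨m₁.const_smul c, ‖c‖ * C₁, fun x => ?_⟩, ?_⟩
            · rw [Pi.smul_apply, norm_smul]
              exact mul_le_mul_of_nonneg_left (b₁ x) (norm_nonneg _)
            · rw [lft_update] at c₁ ⊢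
              exact Cv_smul c c₁
        obtain ⟨⟨hm', C', hC'⟩, hcv⟩ := hg'
        rw [lft_update] at hcv
        refine ⟨fun p => f' p.1, ⟨hm'.comp measurable_fst, C', fun p => hC' _⟩, ?_, hcv⟩
        have hmp : MeasurePreserving (Prod.fst : X × Z → X) (μ.prod ρ) μ := measurePreserving_fst
        have h5 : ∫ x, ‖F j x - f' x‖ ∂((μ.prod ρ).map Prod.fst) =
            ∫ p, ‖F j p.1 - f' p.1‖ ∂(μ.prod ρ) :=
          integral_map hmp.measurable.aemeasurable (by
            rw [hmp.map_eq]
            exact (hfm.sub hm').norm.aestronglyMeasurable)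
        rw [hmp.map_eq] at h5
        exact h5.symm.le.trans hff'
      rw [← lft_update, Function.update_eq_self] at hmain
      exact hmain
  exact key Finset.univ F (fun j _ => hF j) fun j hj => absurd (Finset.mem_univ j) hj

end Pool.Agent.Zk89.PE
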