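import Pool.Agent.Zk89.PE.Poly
import Pool.Agent.Zk89.PE.Defs2
import Pool.Agent.Zk89.KC.Fin

/-!
# Gaussian actions along polynomials, with one more function on an arbitrary system
-/

set_option autoImplicit false
set_option linter.unusedSectionVars false

open Filter Topology MeasureTheory Polynomial
open scoped ENNReal

noncomputable section

namespace Pool.Agent.Zk89.PE

open Pool.Agent.W761.Box (BM bx bxc Good1 Cv Cv_closed Cv_add Cv_smul Cv_zero prod_zpow_add)
open Pool.Agent.W761.Gauss (GaussSpace ex ex_sum norm_ex meas_exh Adm sig dense_EP)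
open Pool.Agent.Zk89.AP (act act_apply gen prod_gen)

theorem prod_single {ι : Type*} [Fintype ι] [DecidableEq ι] (e : ι → ℤ) :
    ∏ i, (Multiplicative.ofAdd (Pi.single i 1 : ι → ℤ)) ^ e i =
      (Multiplicative.ofAdd e : Multiplicative (ι → ℤ)) := by
  apply Multiplicative.toAdd.injective
  rw [toAdd_prod]
  funext l
  rw [Finset.sum_apply]
  have h : ∀ i, Multiplicative.toAdd ((Multiplicative.ofAdd (Pi.single i 1 : ι → ℤ)) ^ e i) l =
      if i = l then e i else 0 := by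
    intro i
    rw [toAdd_zpow, Pi.smul_apply, toAdd_ofAdd, Pi.single_apply, smul_eq_mul]
    by_cases hil : i = l
    · subst hil
      simp
    · rw [if_neg (fun h => hil h.symm), if_neg hil, mul_zero]
  simp only [h]
  rw [Finset.sum_ite_eq' Finset.univ l, if_pos (Finset.mem_univ l)]
  rfl

/-- projection to one slot -/
def pr {σ : Type} {d : ℕ} (s : σ) :
    Multiplicative (σ × Fin d → ℤ) →* Multiplicative (Fin d → ℤ) :=
  AddMonoidHom.toMultiplicative
    { toFun := fun z i => z (s, i), map_zero' := rfl, map_add' := fun _ _ => rfl }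

theorem pr_apply {σ : Type} {d : ℕ} (s : σ) (z : σ × Fin d → ℤ) :
    pr s (Multiplicative.ofAdd z) = Multiplicative.ofAdd fun i => z (s, i) := rfl

/-- the curve of all exponents -/
def WW {σ : Type} [Fintype σ] [DecidableEq σ] {d k : ℕ} (Q : σ → Fin d → Fin k → ℤ[X])
    (m : Fin k → ℕ) : Multiplicative (σ × Fin d → ℤ) :=
  ∏ l, ∏ i : σ × Fin d, (Multiplicative.ofAdd (Pi.single i 1 : σ × Fin d → ℤ)) ^
    (Q i.1 i.2 l).eval ((m l : ℕ) : ℤ)

theorem WW_eq {σ : Type} [Fintype σ] [DecidableEq σ] {d k : ℕ} (Q : σ → Fin d → Fin k → ℤ[X])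
    (m : Fin k → ℕ) : WW Q m =
      Multiplicative.ofAdd fun i : σ × Fin d => ∑ l, (Q i.1 i.2 l).eval ((m l : ℕ) : ℤ) := by
  unfold WW
  simp only [prod_single fun i : σ × Fin d => _]
  rw [← ofAdd_sum]
  congr 1
  funext i
  rw [Finset.sum_apply]

theorem pr_WW {σ : Type} [Fintype σ] [DecidableEq σ] {d k : ℕ} (Q : σ → Fin d → Fin k → ℤ[X])
    (m : Fin k → ℕ) (s : σ) : pr s (WW Q m) =
      Multiplicative.ofAdd fun i : Fin d => ∑ l, (Q s i l).eval ((m l : ℕ) : ℤ) := by
  rw [WW_eq, pr_apply]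

variable {X Z : Type} [MeasurableSpace X] [MeasurableSpace Z] {μ : Measure X}
  [IsProbabilityMeasure μ] {ρ : Measure Z} [IsProbabilityMeasure ρ]
  {H : Submodule ℝ (X → ℝ)} {d n k : ℕ}

/-- exponents with constant terms -/
def xp (b : Fin d → ℤ) (Q : Fin d → Fin k → ℤ[X]) (m : Fin k → ℕ) (i : Fin d) : ℤ :=
  b i + ∑ l, (Q i l).eval ((m l : ℕ) : ℤ)

theorem act_xp {Ω : Type*} [MeasurableSpace Ω] {T : Fin d → Equiv.Perm Ω} (hc : ∀ i j, Commute (T i) (T j))
    (b : Fin d → ℤ) (Q : Fin d → Fin k → ℤ[X]) (m : Fin k → ℕ) :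
    (List.ofFn fun i => T i ^ xp b Q m i).prod = act T hc (Multiplicative.ofAdd b) *
      act T hc (Multiplicative.ofAdd fun i => ∑ l, (Q i l).eval ((m l : ℕ) : ℤ)) := by
  rw [← map_mul, ← ofAdd_add, act_apply]
  rfl

theorem WW_good {σ : Type} [Fintype σ] [DecidableEq σ] {d k : ℕ} (Q : σ → Fin d → Fin k → ℤ[X])
    {Ω : Type} [MeasurableSpace Ω] {P : Measure Ω} [IsProbabilityMeasure P]
    {Ψ : Multiplicative (σ × Fin d → ℤ) →* Equiv.Perm Ω}
    (hΨ : ∀ g, MeasurePreserving (Ψ g) P P) (F : Ω → ℂ) (hF : Measurable F)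
    (hb : ∃ C : ℝ, ∀ ω, ‖F ω‖ ≤ C) :
    ∀ᵐ ω ∂P, ∃ L, Tendsto (fun N => bxc k N fun m => F (Ψ (WW Q m) ω)) atTop (𝓝 L) := by
  have h1 := good_W (fun i : σ × Fin d => (Multiplicative.ofAdd (Pi.single i 1 : σ × Fin d → ℤ)))
    (fun l i => Q i.1 i.2 l) hΨ F hF hb
  exact h1

/-- **Exponentials.** -/
theorem base (hGAX : S_GAX) (hH : GaussSpace μ H) {T : Fin d → Equiv.Perm X}
    (hc : ∀ i j, Commute (T i) (T j)) (hadm : ∀ a : Multiplicative (Fin d → ℤ),
      Adm μ H (act T hc a)) {V : Fin d → Equiv.Perm Z} (hVc : ∀ i j, Commute (V i) (V j))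
    (hV : ∀ a : Multiplicative (Fin d → ℤ), MeasurePreserving (act V hVc a) ρ ρ)
    (b : Option (Fin n) → Fin d → ℤ) (Q : Option (Fin n) → Fin d → Fin k → ℤ[X])
    {h : Fin n → X → ℝ} (hh : ∀ j, h j ∈ H) {F : Z → ℂ} (hF : BM F) :
    ∀ᵐ p ∂(μ.prod ρ), ∃ L, Tendsto (fun N => bxc k N fun m =>
      ex (∑ j, h j ((List.ofFn fun i => T i ^ xp (b (some j)) (Q (some j)) m i).prod p.1)) *
        F ((List.ofFn fun i => V i ^ xp (b none) (Q none) m i).prod p.2)) atTop (𝓝 L) := by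
  classical
  let S : Fin n → Multiplicative (Option (Fin n) × Fin d → ℤ) →* Equiv.Perm X :=
    fun j => (act T hc).comp (pr (some j))
  have hS : ∀ j g, Adm μ H (S j g) := fun j g => hadm (pr (some j) g)
  have hSc : ∀ i j g g', Commute (S i g) (S j g') := by
    intro i j g g'
    show (act T hc (pr (some i) g)) * (act T hc (pr (some j) g')) =
        (act T hc (pr (some j) g')) * (act T hc (pr (some i) g))
    rw [← map_mul, ← map_mul, mul_comm]
  let U : Multiplicative (Option (Fin n) × Fin d → ℤ) →* Equiv.Perm Z :=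
    (act V hVc).comp (pr none)
  have hU : ∀ g, MeasurePreserving (U g) ρ ρ := fun g => hV (pr none g)
  have hh' : ∀ j, (fun x => h j (act T hc (Multiplicative.ofAdd (b (some j))) x)) ∈ H :=
    fun j => (hadm (Multiplicative.ofAdd (b (some j)))).st _ (hh j)
  have hFm : Measurable (fun z => F (act V hVc (Multiplicative.ofAdd (b none)) z)) :=
    hF.1.comp (hV (Multiplicative.ofAdd (b none))).measurable
  have hFb : ∃ C : ℝ, ∀ z, ‖F (act V hVc (Multiplicative.ofAdd (b none)) z)‖ ≤ C := by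
    obtain ⟨C, hC⟩ := hF.2
    exact ⟨C, fun z => hC _⟩
  have key := @hGAX (Multiplicative (Option (Fin n) × Fin d → ℤ)) _ k (WW Q)
    (fun {Ω} _ {P} _ {Ψ} hΨ F hF hb => WW_good Q hΨ F hF hb) X Z _ _ μ _ ρ _ H hH n S hS hSc U hU
    (fun j x => h j (act T hc (Multiplicative.ofAdd (b (some j))) x)) hh'
    (fun z => F (act V hVc (Multiplicative.ofAdd (b none)) z)) hFm hFb
  refine key.mono fun p hp => ?_
  obtain ⟨L, hL⟩ := hp
  refine ⟨L, hL.congr fun N => ?_⟩
  congr 1
  funext m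
  have e1 : ∀ j : Fin n, (List.ofFn fun i => T i ^ xp (b (some j)) (Q (some j)) m i).prod p.1 =
      act T hc (Multiplicative.ofAdd (b (some j))) (S j (WW Q m) p.1) := by
    intro j
    rw [act_xp hc, Equiv.Perm.mul_apply]
    show _ = act T hc _ (act T hc (pr (some j) (WW Q m)) p.1)
    rw [pr_WW]
  have e2 : (List.ofFn fun i => V i ^ xp (b none) (Q none) m i).prod p.2 =
      act V hVc (Multiplicative.ofAdd (b none)) (U (WW Q m) p.2) := by
    rw [act_xp hVc, Equiv.Perm.mul_apply]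
    show _ = act V hVc _ (act V hVc (pr none (WW Q m)) p.2)
    rw [pr_WW]
  rw [e2]
  simp only [e1]

end Pool.Agent.Zk89.PE
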