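import Pool.Agent.W761.Box.Main

/-!
# Density of tensor products
-/

set_option autoImplicit false
set_option linter.unusedSectionVars false

open Filter Topology MeasureTheory
open scoped ENNReal

noncomputable section

namespace Pool.Agent.Zk89.PE

open Pool.Agent.W761.Box (BM)

variable {X Z : Type} [MeasurableSpace X] [MeasurableSpace Z]

/-- tensor product of functions -/
def tens (u : X → ℂ) (F : Z → ℂ) (p : X × Z) : ℂ := u p.1 * F p.2

/-- span of the tensor products of bounded functions -/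
def TS (X Z : Type) [MeasurableSpace X] [MeasurableSpace Z] : Submodule ℂ (X × Z → ℂ) :=
  Submodule.span ℂ {Φ | ∃ (u : X → ℂ) (F : Z → ℂ), BM u ∧ BM F ∧ Φ = tens u F}

theorem tens_BM {u : X → ℂ} {F : Z → ℂ} (hu : BM u) (hF : BM F) : BM (tens u F) := by
  obtain ⟨um, C, hC⟩ := hu
  obtain ⟨Fm, D, hD⟩ := hF
  refine ⟨(um.comp measurable_fst).mul (Fm.comp measurable_snd), C * D, fun p => ?_⟩
  unfold tens
  rw [norm_mul]
  exact mul_le_mul (hC _) (hD _) (norm_nonneg _) ((norm_nonneg _).trans (hC p.1))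

theorem TS_BM {Φ : X × Z → ℂ} (h : Φ ∈ TS X Z) : BM Φ := by
  refine Submodule.span_induction (p := fun (f : X × Z → ℂ) _ => BM f) ?_ ?_ ?_ ?_ h
  · rintro _ ⟨u, F, hu, hF, rfl⟩
    exact tens_BM hu hF
  · exact ⟨measurable_const, 0, fun x => by simp⟩
  · rintro g₁ g₂ _ _ ⟨m₁, C₁, b₁⟩ ⟨m₂, C₂, b₂⟩
    exact ⟨m₁.add m₂, C₁ + C₂, fun x => (norm_add_le _ _).trans (add_le_add (b₁ x) (b₂ x))⟩
  · rintro c g₁ _ ⟨m₁, C₁, b₁⟩
    refine ⟨m₁.const_smul c, ‖c‖ * C₁, fun x => ?_⟩
    rw [Pi.smul_apply, norm_smul]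
    exact mul_le_mul_of_nonneg_left (b₁ x) (norm_nonneg _)

theorem ind_BM {Ω : Type} [MeasurableSpace Ω] {A : Set Ω} (hA : MeasurableSet A) :
    BM (A.indicator fun _ => (1 : ℂ)) := by
  refine ⟨measurable_const.indicator hA, 1, fun x => ?_⟩
  by_cases h : x ∈ A
  · rw [Set.indicator_of_mem h]
    simp
  · rw [Set.indicator_of_notMem h]
    simp

theorem BM_int {Ω : Type} [MeasurableSpace Ω] {m : Measure Ω} [IsProbabilityMeasure m]
    {f : Ω → ℂ} (hf : BM f) : Integrable f m := by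
  obtain ⟨hm, C, hC⟩ := hf
  exact Integrable.of_bound hm.aestronglyMeasurable C (Eventually.of_forall hC)

theorem BM_sub {Ω : Type} [MeasurableSpace Ω] {f g : Ω → ℂ} (hf : BM f) (hg : BM g) :
    BM (fun x => f x - g x) := by
  obtain ⟨m₁, C₁, b₁⟩ := hf
  obtain ⟨m₂, C₂, b₂⟩ := hg
  exact ⟨m₁.sub m₂, C₁ + C₂, fun x => (norm_sub_le _ _).trans (add_le_add (b₁ x) (b₂ x))⟩

theorem tri {Ω : Type} [MeasurableSpace Ω] {m : Measure Ω} [IsProbabilityMeasure m]
    {f g h : Ω → ℂ} (hf : BM f) (hg : BM g) (hh : BM h) :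
    ∫ x, ‖f x - h x‖ ∂m ≤ ∫ x, ‖f x - g x‖ ∂m + ∫ x, ‖g x - h x‖ ∂m := by
  rw [← integral_add (BM_int (BM_sub hf hg)).norm (BM_int (BM_sub hg hh)).norm]
  refine integral_mono (BM_int (BM_sub hf hh)).norm
    ((BM_int (BM_sub hf hg)).norm.add (BM_int (BM_sub hg hh)).norm) fun x => ?_
  have h1 : f x - h x = (f x - g x) + (g x - h x) := by ring
  show ‖f x - h x‖ ≤ ‖f x - g x‖ + ‖g x - h x‖
  rw [h1]
  exact norm_add_le _ _

/-- approximable sets -/
def Ap (m : Measure (X × Z)) (A : Set (X × Z)) : Prop :=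
  ∀ ε : ℝ, 0 < ε → ∃ Φ ∈ TS X Z, ∫ p, ‖A.indicator (fun _ => (1 : ℂ)) p - Φ p‖ ∂m ≤ ε

variable {m : Measure (X × Z)} [IsProbabilityMeasure m]

theorem Ap_rect {s : Set X} {t : Set Z} (hs : MeasurableSet s) (ht : MeasurableSet t) :
    Ap m (s ×ˢ t) := by
  intro ε hε
  refine ⟨tens (s.indicator fun _ => 1) (t.indicator fun _ => 1),
    Submodule.subset_span ⟨_, _, ind_BM hs, ind_BM ht, rfl⟩, ?_⟩
  have h1 : ∀ p : X × Z, ‖(s ×ˢ t).indicator (fun _ => (1 : ℂ)) p -
      tens (s.indicator fun _ => 1) (t.indicator fun _ => 1) p‖ = 0 := by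
    intro p
    unfold tens
    by_cases h1 : p.1 ∈ s <;> by_cases h2 : p.2 ∈ t <;> simp [Set.indicator, Set.mem_prod, h1, h2]
  simp only [h1, integral_zero]
  exact hε.le

theorem one_mem : (fun _ : X × Z => (1 : ℂ)) ∈ TS X Z :=
  Submodule.subset_span ⟨fun _ => 1, fun _ => 1, ⟨measurable_const, 1, fun x => by simp⟩,
    ⟨measurable_const, 1, fun x => by simp⟩, by
      funext p
      simp [tens]⟩

theorem Ap_compl {A : Set (X × Z)} (h : Ap m A) : Ap m Aᶜ := by
  intro ε hε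
  obtain ⟨Φ, hΦ, h1⟩ := h ε hε
  refine ⟨(fun _ => 1) - Φ, (TS X Z).sub_mem one_mem hΦ, ?_⟩
  refine le_trans (le_of_eq ?_) h1
  congr 1
  funext p
  rw [Pi.sub_apply]
  by_cases hp : p ∈ A
  · rw [Set.indicator_of_notMem (by simpa using hp), Set.indicator_of_mem hp, ← norm_neg]
    congr 1
    ring
  · rw [Set.indicator_of_mem (by simpa using hp), Set.indicator_of_notMem hp, ← norm_neg]
    congr 1
    ring

theorem Ap_union {A B : Set (X × Z)} (hA : MeasurableSet A) (hB : MeasurableSet B)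
    (hd : Disjoint A B) (h : Ap m A) (h' : Ap m B) : Ap m (A ∪ B) := by
  intro ε hε
  obtain ⟨Φ, hΦ, h1⟩ := h (ε / 2) (half_pos hε)
  obtain ⟨Ψ, hΨ, h2⟩ := h' (ε / 2) (half_pos hε)
  refine ⟨Φ + Ψ, (TS X Z).add_mem hΦ hΨ, ?_⟩
  have i1 := (BM_int (m := m) (BM_sub (ind_BM hA) (TS_BM hΦ))).norm
  have i2 := (BM_int (m := m) (BM_sub (ind_BM hB) (TS_BM hΨ))).norm
  calc ∫ p, ‖(A ∪ B).indicator (fun _ => (1 : ℂ)) p - (Φ + Ψ) p‖ ∂m
      ≤ ∫ p, (‖A.indicator (fun _ => (1 : ℂ)) p - Φ p‖ +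
        ‖B.indicator (fun _ => (1 : ℂ)) p - Ψ p‖) ∂m := by
        refine integral_mono (BM_int (BM_sub (ind_BM (hA.union hB))
          (TS_BM ((TS X Z).add_mem hΦ hΨ)))).norm (i1.add i2) fun p => ?_
        have e : (A ∪ B).indicator (fun _ => (1 : ℂ)) p - (Φ + Ψ) p =
            (A.indicator (fun _ => (1 : ℂ)) p - Φ p) +
              (B.indicator (fun _ => (1 : ℂ)) p - Ψ p) := by
          rw [Set.indicator_union_of_disjoint hd, Pi.add_apply]
          ring
        show ‖_‖ ≤ _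
        rw [e]
        exact norm_add_le _ _
    _ = _ := integral_add i1 i2
    _ ≤ ε / 2 + ε / 2 := add_le_add h1 h2
    _ = ε := by ring

theorem Ap_iUnion {f : ℕ → Set (X × Z)} (hd : Pairwise (Function.onFun Disjoint f))
    (hf : ∀ i, MeasurableSet (f i)) (h : ∀ i, Ap m (f i)) : Ap m (⋃ i, f i) := by
  set B : ℕ → Set (X × Z) := fun N => ⋃ i ∈ Finset.range N, f i with hB
  have hBm : ∀ N, MeasurableSet (B N) := fun N => Finset.measurableSet_biUnion _ fun i _ => hf i
  have hBA : ∀ N, Ap m (B N) := by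
    intro N
    induction N with
    | zero =>
      have h0 : B 0 = ∅ := by simp [hB]
      rw [h0]
      intro ε hε
      refine ⟨0, (TS X Z).zero_mem, ?_⟩
      simp only [Set.indicator_empty, Pi.zero_apply, sub_self, norm_zero, integral_zero]
      exact hε.le
    | succ N ih =>
      have h0 : B (N + 1) = B N ∪ f N := by
        simp only [hB]
        rw [Finset.range_add_one, Finset.set_biUnion_insert, Set.union_comm]
      rw [h0]
      refine Ap_union (hBm N) (hf N) ?_ ih (h N)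
      rw [Set.disjoint_left]
      intro p hp hp'
      simp only [hB, Set.mem_iUnion, Finset.mem_range] at hp
      obtain ⟨i, hi, hp⟩ := hp
      exact Set.disjoint_left.mp (hd (ne_of_lt hi)) hp hp'
  have hA : MeasurableSet (⋃ i, f i) := MeasurableSet.iUnion hf
  have hlim : Tendsto (fun N => ∫ p, ‖(⋃ i, f i).indicator (fun _ => (1 : ℂ)) p -
      (B N).indicator (fun _ => (1 : ℂ)) p‖ ∂m) atTop (𝓝 (∫ _, (0 : ℝ) ∂m)) := by
    refine tendsto_integral_of_dominated_convergence (fun _ => (1 : ℝ)) (fun N => ?_)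
      (integrable_const _) (fun N => Eventually.of_forall fun p => ?_)
      (Eventually.of_forall fun p => ?_)
    · exact (BM_sub (ind_BM hA) (ind_BM (hBm N))).1.norm.aestronglyMeasurable
    · by_cases hp : p ∈ B N
      · have hp' : p ∈ ⋃ i, f i := by
          simp only [hB, Set.mem_iUnion, Finset.mem_range] at hp
          obtain ⟨i, _, hp⟩ := hp
          exact Set.mem_iUnion.mpr ⟨i, hp⟩
        rw [Set.indicator_of_mem hp, Set.indicator_of_mem hp']
        simp
      · rw [Set.indicator_of_notMem hp, sub_zero]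
        by_cases hp' : p ∈ ⋃ i, f i
        · rw [Set.indicator_of_mem hp']
          simp
        · rw [Set.indicator_of_notMem hp']
          simp
    · by_cases hp' : p ∈ ⋃ i, f i
      · obtain ⟨i, hi⟩ := Set.mem_iUnion.mp hp'
        refine tendsto_const_nhds.congr' ?_
        filter_upwards [eventually_gt_atTop i] with N hN
        have hp : p ∈ B N := by
          simp only [hB, Set.mem_iUnion, Finset.mem_range]
          exact ⟨i, hN, hi⟩
        rw [Set.indicator_of_mem hp, Set.indicator_of_mem hp']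
        simp
      · refine tendsto_const_nhds.congr fun N => ?_
        have hp : p ∉ B N := by
          intro hp
          simp only [hB, Set.mem_iUnion, Finset.mem_range] at hp
          obtain ⟨i, _, hp⟩ := hp
          exact hp' (Set.mem_iUnion.mpr ⟨i, hp⟩)
        rw [Set.indicator_of_notMem hp, Set.indicator_of_notMem hp']
        simp
  rw [integral_zero] at hlim
  intro ε hε
  obtain ⟨N, hN⟩ := ((tendsto_order.mp hlim).2 (ε / 2) (half_pos hε)).exists
  obtain ⟨Φ, hΦ, h1⟩ := hBA N (ε / 2) (half_pos hε)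
  refine ⟨Φ, hΦ, ?_⟩
  calc _ ≤ _ := tri (ind_BM hA) (ind_BM (hBm N)) (TS_BM hΦ)
    _ ≤ ε / 2 + ε / 2 := add_le_add hN.le h1
    _ = ε := by ring

theorem Ap_all {A : Set (X × Z)} (hA : MeasurableSet A) : Ap m A := by
  refine MeasurableSpace.induction_on_inter (C := fun A _ => Ap m A) generateFrom_prod.symm
    isPiSystem_prod ?_ ?_ ?_ ?_ A hA
  · intro ε hε
    refine ⟨0, (TS X Z).zero_mem, ?_⟩
    simp only [Set.indicator_empty, Pi.zero_apply, sub_self, norm_zero, integral_zero]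
    exact hε.le
  · rintro _ ⟨s, hs, t, ht, rfl⟩
    exact Ap_rect hs ht
  · intro t _ h
    exact Ap_compl h
  · intro f hd hf h
    exact Ap_iUnion hd hf h

/-- **Density.** -/
theorem tens_dense {f : X × Z → ℂ} (hf : BM f) {ε : ℝ} (hε : 0 < ε) :
    ∃ Φ ∈ TS X Z, ∫ p, ‖f p - Φ p‖ ∂m ≤ ε := by
  have conv : ∀ {g : X × Z → ℂ}, Integrable g m →
      eLpNorm g 1 m = ENNReal.ofReal (∫ p, ‖g p‖ ∂m) := by
    intro g hg
    rw [eLpNorm_one_eq_lintegral_enorm, ofReal_integral_norm_eq_lintegral_enorm hg]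
  have h0 : MemLp f 1 m := memLp_one_iff_integrable.mpr (BM_int hf)
  obtain ⟨g, hg1, hg2⟩ := MemLp.induction_dense (p := 1) (by simp) (fun g => g ∈ TS X Z)
    (by
      intro c s hs _ ε hε
      rcases eq_or_ne ε ∞ with he | he
      · exact ⟨0, by rw [he]; exact le_top, (TS X Z).zero_mem⟩
      have hε' : 0 < ε.toReal := ENNReal.toReal_pos hε he
      obtain ⟨Φ, hΦ, h1⟩ := Ap_all (m := m) hs (ε.toReal / (‖c‖ + 1)) (by positivity)
      refine ⟨c • Φ, ?_, (TS X Z).smul_mem c hΦ⟩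
      have e : (c • Φ - s.indicator fun _ => c) =
          c • (fun p => Φ p - s.indicator (fun _ => (1 : ℂ)) p) := by
        funext p
        simp only [Pi.sub_apply, Pi.smul_apply, smul_eq_mul]
        by_cases hp : p ∈ s
        · rw [Set.indicator_of_mem hp, Set.indicator_of_mem hp]
          ring
        · rw [Set.indicator_of_notMem hp, Set.indicator_of_notMem hp]
          ring
      have h2 := BM_sub (TS_BM hΦ) (ind_BM hs)
      rw [e, conv ((BM_int h2).smul c)]
      have e2 : ∫ p, ‖(c • (fun p => Φ p - s.indicator (fun _ => (1 : ℂ)) p)) p‖ ∂m =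
          ‖c‖ * ∫ p, ‖s.indicator (fun _ => (1 : ℂ)) p - Φ p‖ ∂m := by
        rw [← integral_const_mul]
        congr 1
        funext p
        rw [Pi.smul_apply, norm_smul, norm_sub_rev]
      rw [e2]
      rw [← ENNReal.ofReal_toReal he]
      apply ENNReal.ofReal_le_ofReal
      calc ‖c‖ * ∫ p, ‖s.indicator (fun _ => (1 : ℂ)) p - Φ p‖ ∂m
          ≤ (‖c‖ + 1) * (ε.toReal / (‖c‖ + 1)) :=
            mul_le_mul (by linarith) h1 (integral_nonneg fun _ => norm_nonneg _) (by positivity)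
        _ = ε.toReal := by field_simp)
    (fun f g hf hg => (TS X Z).add_mem hf hg)
    (fun f hf => (TS_BM hf).1.aestronglyMeasurable) h0
    (ε := ENNReal.ofReal ε) (by simpa using hε)
  refine ⟨g, hg2, ?_⟩
  have h3 : Integrable (f - g) m := BM_int (BM_sub hf (TS_BM hg2))
  rw [conv h3] at hg1
  exact (ENNReal.ofReal_le_ofReal_iff hε.le).mp hg1

end Pool.Agent.Zk89.PE
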