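import Pool.Agent.Zk89.PE.GFin
import Pool.Agent.Zk89.PE.Tens

/-!
# Products of Gaussian actions with arbitrary systems
-/

set_option autoImplicit false
set_option linter.unusedSectionVars false

open Filter Topology MeasureTheory Polynomial ProbabilityTheory
open scoped ENNReal

noncomputable section

namespace Pool.Agent.Zk89.PE

open Pool.Agent.W761.Box (BM bx bxc Good1 Cv Cv_closed Cv_add Cv_smul Cv_zero)
open Pool.Agent.W761.Gauss (IsGaussianAction IsFactor inter_prod mp_prod BM_of_memLp)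
open Pool.Agent.Zk89.AP (act act_apply gen prod_gen)

variable {X Y Z : Type} [MeasurableSpace X] [MeasurableSpace Y] [MeasurableSpace Z]
  {μ : Measure X} [IsProbabilityMeasure μ] {ν : Measure Y} {ρ : Measure Z}
  [IsProbabilityMeasure ρ] {d n k : ℕ}

/-- the product action -/
def prodAct {A : Type} [CommGroup A] (Φ : A →* Equiv.Perm X) (Ψ : A →* Equiv.Perm Z) :
    A × A →* Equiv.Perm (X × Z) where
  toFun a := Equiv.prodCongr (Φ a.1) (Ψ a.2)
  map_one' := by
    apply Equiv.ext
    intro p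
    show (Φ 1 p.1, Ψ 1 p.2) = p
    rw [map_one, map_one]
    rfl
  map_mul' a b := by
    apply Equiv.ext
    intro p
    show (Φ (a.1 * b.1) p.1, Ψ (a.2 * b.2) p.2) = (Φ a.1 (Φ b.1 p.1), Ψ a.2 (Ψ b.2 p.2))
    rw [map_mul, map_mul]
    rfl

theorem prodAct_apply {A : Type} [CommGroup A] (Φ : A →* Equiv.Perm X) (Ψ : A →* Equiv.Perm Z)
    (a : A × A) (p : X × Z) : prodAct Φ Ψ a p = (Φ a.1 p.1, Ψ a.2 p.2) := rfl

theorem prodAct_mp {A : Type} [CommGroup A] {Φ : A →* Equiv.Perm X} {Ψ : A →* Equiv.Perm Z}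
    (hΦ : ∀ a, MeasurePreserving (Φ a) μ μ) (hΨ : ∀ a, MeasurePreserving (Ψ a) ρ ρ) (a : A × A) :
    MeasurePreserving (prodAct Φ Ψ a) (μ.prod ρ) (μ.prod ρ) := by
  have h1 : (prodAct Φ Ψ a : X × Z → X × Z) = Prod.map (Φ a.1) (Ψ a.2) := rfl
  rw [h1]
  exact (hΦ a.1).prod (hΨ a.2)

theorem pair_elt (b b' : Fin d → ℤ) (Q Q' : Fin d → Fin k → ℤ[X]) (m : Fin k → ℕ) :
    ((Multiplicative.ofAdd (xp b Q m), Multiplicative.ofAdd (xp b' Q' m)) :
      Multiplicative (Fin d → ℤ) × Multiplicative (Fin d → ℤ)) =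
    (Multiplicative.ofAdd b, Multiplicative.ofAdd b') * ∏ l, ∏ i : Fin d ⊕ Fin d,
      (Sum.elim (fun i => (gen i, 1)) (fun i => (1, gen i)) i :
        Multiplicative (Fin d → ℤ) × Multiplicative (Fin d → ℤ)) ^
      ((Sum.elim (fun i => Q i l) (fun i => Q' i l) i : ℤ[X]).eval ((m l : ℕ) : ℤ)) := by
  apply Prod.ext
  · rw [Prod.fst_mul, Prod.fst_prod]
    show Multiplicative.ofAdd (xp b Q m) = Multiplicative.ofAdd b * _
    rw [gen_xp]
    congr 1
    refine Finset.prod_congr rfl fun l _ => ?_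
    rw [Prod.fst_prod, Fintype.prod_sum_type]
    simp only [Sum.elim_inl, Sum.elim_inr, Prod.pow_fst, one_zpow, Finset.prod_const_one, mul_one]
  · rw [Prod.snd_mul, Prod.snd_prod]
    show Multiplicative.ofAdd (xp b' Q' m) = Multiplicative.ofAdd b' * _
    rw [gen_xp]
    congr 1
    refine Finset.prod_congr rfl fun l _ => ?_
    rw [Prod.snd_prod, Fintype.prod_sum_type]
    simp only [Sum.elim_inl, Sum.elim_inr, Prod.pow_snd, one_zpow, Finset.prod_const_one, one_mul]

/-- the maps of the product -/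
def g2 (T : Fin d → Equiv.Perm X) (V : Fin d → Equiv.Perm Z)
    (P : Fin n → Fin d → MvPolynomial (Fin k) ℤ) (Q : Fin d → MvPolynomial (Fin k) ℤ)
    (j : Fin n) (m : Fin k → ℕ) (p : X × Z) : X × Z :=
  (mv T (P j) m p.1, mv V Q m p.2)

theorem g2_mp {T : Fin d → Equiv.Perm X} (hTm : ∀ i, Measurable (T i).symm)
    (hT : ∀ i, MeasurePreserving (T i) μ μ)
    {V : Fin d → Equiv.Perm Z} (hVm : ∀ i, Measurable (V i).symm)
    (hV : ∀ i, MeasurePreserving (V i) ρ ρ)
    (P : Fin n → Fin d → MvPolynomial (Fin k) ℤ) (Q : Fin d → MvPolynomial (Fin k) ℤ)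
    (j : Fin n) (m : Fin k → ℕ) :
    MeasurePreserving (g2 T V P Q j m) (μ.prod ρ) (μ.prod ρ) := by
  have h1 : g2 T V P Q j m = Prod.map (mv T (P j) m : X → X) (mv V Q m : Z → Z) := rfl
  rw [h1]
  exact (mp_prod hT (inv_mp hTm hT) _).prod (mp_prod hV (inv_mp hVm hV) _)

theorem g2_good {T : Fin d → Equiv.Perm X} (hTm : ∀ i, Measurable (T i).symm)
    (hT : ∀ i, MeasurePreserving (T i) μ μ) (hTc : ∀ i j, Commute (T i) (T j))
    {V : Fin d → Equiv.Perm Z} (hVm : ∀ i, Measurable (V i).symm)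
    (hV : ∀ i, MeasurePreserving (V i) ρ ρ) (hVc : ∀ i j, Commute (V i) (V j))
    (P : Fin n → Fin d → MvPolynomial (Fin k) ℤ)
    (hP : ∀ j i, ∀ s ∈ (P j i).support, s.support.card ≤ 1)
    (Q : Fin d → MvPolynomial (Fin k) ℤ) (hQ : ∀ i, ∀ s ∈ (Q i).support, s.support.card ≤ 1)
    (j : Fin n) : Good1 (μ.prod ρ) (g2 T V P Q j) := by
  choose b R _ hR using fun (i : Fin d) => Pool.Agent.Zk89.KC.exists_sep0 (P j i) (hP j i)
  choose b' R' _ hR' using fun (i : Fin d) => Pool.Agent.Zk89.KC.exists_sep0 (Q i) (hQ i)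
  have hA : ∀ a : Multiplicative (Fin d → ℤ), MeasurePreserving (act T hTc a) μ μ := fun a =>
    mp_prod hT (inv_mp hTm hT) (Multiplicative.toAdd a)
  have hB : ∀ a : Multiplicative (Fin d → ℤ), MeasurePreserving (act V hVc a) ρ ρ := fun a =>
    mp_prod hV (inv_mp hVm hV) (Multiplicative.toAdd a)
  have h1 := good_box (Ψ := prodAct (act T hTc) (act V hVc)) (μ := μ.prod ρ)
    (prodAct_mp hA hB) (Multiplicative.ofAdd b, Multiplicative.ofAdd b')
    (Sum.elim (fun i => (gen i, 1)) (fun i => (1, gen i)) :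
      Fin d ⊕ Fin d → Multiplicative (Fin d → ℤ) × Multiplicative (Fin d → ℤ))
    (fun l => Sum.elim (fun i => R i l) (fun i => R' i l))
  have h2 : g2 T V P Q j = fun m : Fin k → ℕ => (prodAct (act T hTc) (act V hVc)
      ((Multiplicative.ofAdd b, Multiplicative.ofAdd b') * ∏ l, ∏ i : Fin d ⊕ Fin d,
        (Sum.elim (fun i => (gen i, 1)) (fun i => (1, gen i)) i :
          Multiplicative (Fin d → ℤ) × Multiplicative (Fin d → ℤ)) ^
        ((Sum.elim (fun i => R i l) (fun i => R' i l) i : ℤ[X]).eval ((m l : ℕ) : ℤ))) :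
      X × Z → X × Z) := by
    funext m p
    rw [← pair_elt b b' R R' m, prodAct_apply]
    show (mv T (P j) m p.1, mv V Q m p.2) =
      (act T hTc (Multiplicative.ofAdd (xp b R m)) p.1,
        act V hVc (Multiplicative.ofAdd (xp b' R' m)) p.2)
    have e1 : xp b R m = ev (P j) m := by
      funext i
      exact (hR i fun l => ((m l : ℕ) : ℤ)).symm
    have e2 : xp b' R' m = ev Q m := by
      funext i
      exact (hR' i fun l => ((m l : ℕ) : ℤ)).symm
    rw [e1, e2]
    rfl
  rw [h2]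
  exact h1

/-- **All bounded functions on the product.** -/
theorem gauss_prod {T : Fin d → Equiv.Perm X} (hT : IsGaussianAction μ T)
    {V : Fin d → Equiv.Perm Z} (hVm : ∀ i, Measurable (V i).symm)
    (hV : ∀ i, MeasurePreserving (V i) ρ ρ) (hVc : ∀ i j, Commute (V i) (V j))
    (P : Fin n → Fin d → MvPolynomial (Fin k) ℤ)
    (hP : ∀ j i, ∀ s ∈ (P j i).support, s.support.card ≤ 1)
    (Q : Fin d → MvPolynomial (Fin k) ℤ) (hQ : ∀ i, ∀ s ∈ (Q i).support, s.support.card ≤ 1)
    {f : Fin n → X × Z → ℂ} (hf : ∀ j, BM (f j)) : Cv (μ.prod ρ) (g2 T V P Q) f := by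
  have hmp := g2_mp hT.meas_symm hT.mp hVm hV P Q
  have hgood := g2_good hT.meas_symm hT.mp hT.comm hVm hV hVc P hP Q hQ
  have key : ∀ (B : Finset (Fin n)) (F : Fin n → X × Z → ℂ), (∀ j ∈ B, BM (F j)) →
      (∀ j ∉ B, ∃ (u : X → ℂ) (F' : Z → ℂ), BM u ∧ BM F' ∧ F j = tens u F') →
      Cv (μ.prod ρ) (g2 T V P Q) F := by
    intro B
    induction B using Finset.induction_on with
    | empty =>
      intro F _ h2
      choose u F' hu hF' hFh using fun j => h2 j (Finset.notMem_empty j)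
      have hprod : BM (fun z : Z => ∏ j, F' j z) := by
        choose hm C hC using hF'
        refine ⟨Finset.measurable_fun_prod _ fun j _ => hm j, ∏ j, C j, fun z => ?_⟩
        rw [norm_prod]
        exact Finset.prod_le_prod (fun j _ => norm_nonneg _) fun j _ => hC j z
      have h3 := gauss_conv hT hVm hV hVc P hP Q hQ hu hprod
      unfold Cv
      refine h3.mono fun p hp => ?_
      obtain ⟨L, hL⟩ := hp
      refine ⟨L, hL.congr fun N => ?_⟩
      congr 1
      funext m
      rw [← Finset.prod_mul_distrib]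
      refine Finset.prod_congr rfl fun j _ => ?_
      rw [hFh j]
      rfl
    | insert j B hj ih =>
      intro F h1 h2
      have hBMall : ∀ l, BM (F l) := by
        intro l
        by_cases hl : l ∈ insert j B
        · exact h1 l hl
        · obtain ⟨u, F', hu, hF', e⟩ := h2 l hl
          rw [e]
          exact tens_BM hu hF'
      have hmain : Cv (μ.prod ρ) (g2 T V P Q) (Function.update F j (F j)) := by
        refine Cv_closed hmp hgood hBMall (hBMall j) ?_
        intro ε hε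
        obtain ⟨f', hf', hff'⟩ := tens_dense (m := μ.prod ρ) (hBMall j) hε
        have hg' : BM f' ∧ Cv (μ.prod ρ) (g2 T V P Q) (Function.update F j f') := by
          refine ⟨TS_BM hf', ?_⟩
          refine Submodule.span_induction
            (p := fun (f' : X × Z → ℂ) _ =>
              Cv (μ.prod ρ) (g2 T V P Q) (Function.update F j f')) ?_ ?_ ?_ ?_ hf'
          · rintro _ ⟨u, F', hu, hF', rfl⟩
            apply ih
            · intro l hl
              have hlj : l ≠ j := fun e => hj (e ▸ hl)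
              rw [Function.update_of_ne hlj]
              exact h1 l (Finset.mem_insert_of_mem hl)
            · intro l hl
              by_cases hlj : l = j
              · subst hlj
                exact ⟨u, F', hu, hF', by rw [Function.update_self]⟩
              · rw [Function.update_of_ne hlj]
                apply h2
                intro hmem'
                rcases Finset.mem_insert.mp hmem' with h5 | h5
                · exact hlj h5
                · exact hl h5
          · exact Cv_zero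
          · rintro g₁ g₂ _ _ c₁ c₂
            exact Cv_add c₁ c₂
          · rintro c g₁ _ c₁
            exact Cv_smul c c₁
        exact ⟨f', hg'.1, hff', hg'.2⟩
      rwa [Function.update_eq_self] at hmain
  exact key Finset.univ f (fun j _ => hf j) fun j hj => absurd (Finset.mem_univ j) hj

/-- **Factors.** -/
theorem gauss_prod_factor {T : Fin d → Equiv.Perm X} (hT : IsGaussianAction μ T)
    {R : Fin d → Equiv.Perm Y} (hRm : ∀ i, Measurable (R i).symm)
    (hR : ∀ i, MeasurePreserving (R i) ν ν) (hfac : IsFactor μ T ν R)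
    {V : Fin d → Equiv.Perm Z} (hVm : ∀ i, Measurable (V i).symm)
    (hV : ∀ i, MeasurePreserving (V i) ρ ρ) (hVc : ∀ i j, Commute (V i) (V j))
    (P : Fin n → Fin d → MvPolynomial (Fin k) ℤ)
    (hP : ∀ j i, ∀ s ∈ (P j i).support, s.support.card ≤ 1)
    (Q : Fin d → MvPolynomial (Fin k) ℤ) (hQ : ∀ i, ∀ s ∈ (Q i).support, s.support.card ≤ 1)
    {f : Fin n → Y × Z → ℂ} (hf : ∀ j, MemLp (f j) ∞ (ν.prod ρ)) :
    ∀ᵐ p ∂(ν.prod ρ), ∃ L : ℂ, Tendsto (fun N => bxc k N fun m =>
      ∏ j, f j (mv R (P j) m p.1, mv V Q m p.2)) atTop (𝓝 L) := by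
  obtain ⟨π, hπ, hπT⟩ := hfac
  have hνp : IsProbabilityMeasure ν := by
    rw [← hπ.map_eq]
    exact Measure.isProbabilityMeasure_map hπ.measurable.aemeasurable
  choose g hg hfg using fun j => BM_of_memLp (hf j)
  have hπ2 : MeasurePreserving (Prod.map π (id : Z → Z)) (μ.prod ρ) (ν.prod ρ) :=
    hπ.prod (MeasurePreserving.id ρ)
  have h1 := gauss_prod hT hVm hV hVc P hP Q hQ (f := fun j => g j ∘ Prod.map π id) (fun j => by
    obtain ⟨gm, C, hC⟩ := hg j
    exact ⟨gm.comp hπ2.measurable, C, fun x => hC _⟩)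
  unfold Cv at h1
  have h2 : ∀ᵐ x ∂μ, ∀ (m : Fin k → ℕ) (j : Fin n),
      π (mv T (P j) m x) = mv R (P j) m (π x) := by
    rw [ae_all_iff]
    intro m
    rw [ae_all_iff]
    intro j
    exact inter_prod hT.mp (inv_mp hT.meas_symm hT.mp) hπT _
  have h2' : ∀ᵐ p ∂(μ.prod ρ), ∀ (m : Fin k → ℕ) (j : Fin n),
      π (mv T (P j) m p.1) = mv R (P j) m (π p.1) :=
    (measurePreserving_fst (μ := μ) (ν := ρ)).quasiMeasurePreserving.ae h2
  have hmp := g2_mp (μ := ν) hRm hR hVm hV P Q
  set A : Set (Y × Z) := {p | ∃ L : ℂ, Tendsto (fun N => bxc k N fun m =>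
      ∏ j, g j (g2 R V P Q j m p)) atTop (𝓝 L)} with hA
  have hms : MeasurableSet A := by
    apply measurableSet_exists_tendsto
    intro N
    unfold bxc
    refine (Finset.measurable_fun_sum _ fun m _ => ?_).const_mul _
    exact Finset.measurable_fun_prod _ fun j _ => (hg j).1.comp (hmp j m).measurable
  have h3 : ∀ᵐ p ∂(μ.prod ρ), Prod.map π (id : Z → Z) p ∈ A := by
    filter_upwards [h1, h2'] with p hp1 hp2
    obtain ⟨L, hL⟩ := hp1
    refine ⟨L, hL.congr fun N => ?_⟩
    congr 1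
    funext m
    refine Finset.prod_congr rfl fun j _ => ?_
    show g j (π (mv T (P j) m p.1), mv V Q m p.2) = g j (mv R (P j) m (π p.1), mv V Q m p.2)
    rw [hp2]
  have h4 : ∀ᵐ p ∂(ν.prod ρ), p ∈ A := by
    rw [← hπ2.map_eq]
    exact (ae_map_iff hπ2.measurable.aemeasurable hms).mpr h3
  have h5 : ∀ᵐ p ∂(ν.prod ρ), ∀ (m : Fin k → ℕ) (j : Fin n),
      f j (g2 R V P Q j m p) = g j (g2 R V P Q j m p) := by
    rw [ae_all_iff]
    intro m
    rw [ae_all_iff]
    intro j
    exact (hmp j m).quasiMeasurePreserving.ae (hfg j)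
  filter_upwards [h4, h5] with p hp4 hp5
  obtain ⟨L, hL⟩ := hp4
  refine ⟨L, hL.congr fun N => ?_⟩
  congr 1
  funext m
  refine Finset.prod_congr rfl fun j _ => ?_
  exact (hp5 m j).symm

end Pool.Agent.Zk89.PE
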