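import Pool.Agent.Zk89.PE.Defs

/-!
# The square function of the low levels with a common modulus
-/

set_option autoImplicit false
set_option linter.unusedSectionVars false

open Finset Filter Topology

noncomputable section

namespace Pool.Agent.Zk89.PE

open Pool.Agent.Zk89.BT (DK DK_norm_le DK_near DK_far' DK_cmp DK_int QQ QQ_pos QQ_ge dvd_QQ rI
  rI_pos rI_le)
open Pool.Agent.Zk89.MT

/-- **Low levels, square function.** -/
theorem low_sq (D : ℕ) {K : ℝ} (hK : PC D K) {Cg κ : ℝ} (hCg : 0 ≤ Cg) (hκ : 0 ≤ κ)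
    (hG : GB D Cg κ) (ξ : ℕ → ℝ) (s Q : ℕ) (hQ0 : 0 < Q)
    (hdvd : ∀ q, 1 ≤ q → q ≤ 2 ^ s → q ∣ Q) (hQ4 : 4 ^ s ≤ Q) (T : Finset ℕ)
    (e : ℕ → ℝ) (hρ1 : ∀ t ∈ T, ∀ r < D, rh t r ≤ 1 / (4 * Q))
    (hmaj : ∀ t ∈ T, ∀ (ξ : ℕ → ℝ) (a : ℕ → ℤ) (q : ℕ), Fr D s (rh t) ξ a q →
      ‖w D (2 ^ t) ξ - GS D q a * w D (2 ^ t) (fun r => ξ r - a r / q)‖ ≤ e t)
    (hQ : ∀ t ∈ T, 2 * Q ≤ 2 ^ t)
    (he1 : ∀ t ∈ T, 2 / √((2 ^ t : ℕ) : ℝ) ≤ e t)
    (he2 : ∀ t ∈ T, ∑ r ∈ range D, (2 * Real.pi * (Q * rh t r) +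
      2 * (Q / ((2 ^ t : ℕ) : ℝ) ^ (r + 1))) ≤ e t)
    {E : ℝ} (hE0 : 0 ≤ E) (hE : ∑ t ∈ T, e t ^ 2 ≤ E ^ 2) :
    ∑ t ∈ T, ‖tm D s t ξ - gam D s (fun _ => 1 / (4 * Q)) ξ *
      bk D (fun r => (2 ^ t) ^ (r + 1) / Q) (fun r => Q * ξ r)‖ ^ 2 ≤
      (3 * E + 3 * (Cg * κ ^ s * K)) ^ 2 := by
  classical
  have hg0 : 0 ≤ Cg * κ ^ s := by positivity
  have hK0 : 0 ≤ K := hK.1
  have hQ0' : (0 : ℝ) < Q := by exact_mod_cast hQ0
  set rI' : ℝ := 1 / (4 * Q) with hrI
  have hrI4 : rI' ≤ 1 / (4 * 4 ^ s) := by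
    rw [hrI]
    have h1 : ((4 : ℝ) ^ s) ≤ Q := by exact_mod_cast hQ4
    have h2 : (0 : ℝ) < 4 ^ s := by positivity
    gcongr
  set G : ℂ := gam D s (fun _ => rI') ξ with hGdef
  have hGb : ‖G‖ ≤ Cg * κ ^ s := gam_norm hCg hκ hG s _ _
  have hρ4 : ∀ t ∈ T, ∀ r < D, rh t r ≤ 1 / (4 * 4 ^ s) := fun t ht r hr =>
    (hρ1 t ht r hr).trans hrI4
  have he0 : ∀ t ∈ T, 0 ≤ e t := fun t ht => le_trans (by positivity) (he1 t ht)
  have hrIhalf : rI' ≤ 1 / 2 := by
    refine hrI4.trans ?_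
    have h4 : (1 : ℝ) ≤ 4 ^ s := one_le_pow₀ (by norm_num)
    rw [div_le_div_iff₀ (by positivity) (by norm_num)]
    linarith
  obtain ⟨a, q, haq⟩ := common D s ξ T hρ4
  set β : ℕ → ℝ := fun r => ξ r - a r / q with hβ
  set T' := T.filter fun t => ∃ x : (ℕ → ℤ) × ℕ, Fr D s (rh t) ξ x.1 x.2 with hT'
  have hF : ∀ t ∈ T', Fr D s (rh t) ξ a q := fun t ht =>
    haq t (mem_filter.1 ht).1 (mem_filter.1 ht).2
  have hterm : ∀ t ∈ T, ‖tm D s t ξ - G *
      bk D (fun r => (2 ^ t) ^ (r + 1) / Q) (fun r => Q * ξ r)‖ ^ 2 ≤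
      6 * e t ^ 2 + 3 * ((Cg * κ ^ s) * (if t ∈ T' then
        ‖w D (2 ^ t) β - bk D (fun r => (2 ^ t) ^ (r + 1)) β‖ else 0)) ^ 2 := by
    intro t ht
    have hN0 : (0 : ℝ) < ((2 ^ t : ℕ) : ℝ) := by positivity
    have hN1 : (1 : ℝ) ≤ ((2 ^ t : ℕ) : ℝ) := by exact_mod_cast Nat.one_le_two_pow
    have hQX : ∀ r : ℕ, 2 * Q ≤ (2 ^ t) ^ (r + 1) := fun r =>
      (hQ t ht).trans (Nat.le_self_pow (by omega) _)
    by_cases h1 : ∃ x : (ℕ → ℤ) × ℕ, Fr D s (rh t) ξ x.1 x.2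
    · have htT' : t ∈ T' := mem_filter.2 ⟨ht, h1⟩
      rw [if_pos htT']
      have hF1 := hF t htT'
      have hF2 : Fr D s (fun _ => rI') ξ a q := hF1.mono (hρ1 t ht)
      have hGk : G = GS D q a := gam_eq hF2 fun _ _ => hrI4
      have h6 : tm D s t ξ = w D (2 ^ t) ξ := if_pos h1
      have h7 : bk D (fun r => (2 ^ t) ^ (r + 1) / Q) (fun r => Q * ξ r) =
          bk D (fun r => (2 ^ t) ^ (r + 1) / Q) (fun r => Q * β r) :=
        bk_int D _ hF1.1 (hdvd q hF1.1 hF1.le) a ξ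
      rw [h6, hGk, h7]
      have h8 : ‖bk D (fun r => (2 ^ t) ^ (r + 1)) β -
          bk D (fun r => (2 ^ t) ^ (r + 1) / Q) (fun r => Q * β r)‖ ≤ e t := by
        refine le_trans ?_ (he2 t ht)
        refine (prod_diff D _ _ (fun _ _ => DK_norm_le _ _) (fun _ _ => DK_norm_le _ _)).trans
          (sum_le_sum fun r hr => ?_)
        have h9 := DK_cmp (X := (2 ^ t) ^ (r + 1)) hQ0 (by have := hQX r; omega) (β r)
        refine h9.trans ?_
        have h10 : |β r| ≤ rh t r := hF1.2.2.2 r (mem_range.1 hr)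
        have hpi := Real.pi_pos
        push_cast
        gcongr
      have h9 : ‖GS D q a‖ ≤ 1 := GS_norm_le _ _ _
      have h10 : ‖w D (2 ^ t) ξ - GS D q a *
          bk D (fun r => (2 ^ t) ^ (r + 1) / Q) (fun r => Q * β r)‖ ≤
          e t + (Cg * κ ^ s) * ‖w D (2 ^ t) β - bk D (fun r => (2 ^ t) ^ (r + 1)) β‖ +
            e t := by
        have e1 : w D (2 ^ t) ξ - GS D q a *
            bk D (fun r => (2 ^ t) ^ (r + 1) / Q) (fun r => Q * β r) =
            (w D (2 ^ t) ξ - GS D q a * w D (2 ^ t) β) +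
            GS D q a * (w D (2 ^ t) β - bk D (fun r => (2 ^ t) ^ (r + 1)) β) +
            GS D q a * (bk D (fun r => (2 ^ t) ^ (r + 1)) β -
              bk D (fun r => (2 ^ t) ^ (r + 1) / Q) (fun r => Q * β r)) := by ring
        rw [e1]
        refine (norm_add_le _ _).trans (add_le_add ((norm_add_le _ _).trans
          (add_le_add (hmaj t ht _ a q hF1) ?_)) ?_)
        · rw [norm_mul]
          exact mul_le_mul_of_nonneg_right (hG s _ _ _ _ hF1) (norm_nonneg _)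
        · rw [norm_mul]
          calc ‖GS D q a‖ * _ ≤ 1 * e t := by gcongr
            _ = e t := one_mul _
      have h11 := sq3 (norm_nonneg _) h10
      linarith
    · have htT' : t ∉ T' := fun h => h1 (mem_filter.1 h).2
      rw [if_neg htT']
      have h6 : tm D s t ξ = 0 := if_neg h1
      rw [h6, zero_sub, norm_neg]
      have hle : ‖G * bk D (fun r => (2 ^ t) ^ (r + 1) / Q)
          (fun r => Q * ξ r)‖ ≤ e t := by
        by_cases h2 : ∃ x : (ℕ → ℤ) × ℕ, Fr D s (fun _ => rI') ξ x.1 x.2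
        · obtain ⟨⟨a', q'⟩, hx⟩ := h2
          simp only at hx
          have hGk : G = GS D q' a' := gam_eq hx fun _ _ => hrI4
          have h7 : bk D (fun r => (2 ^ t) ^ (r + 1) / Q) (fun r => Q * ξ r) =
              bk D (fun r => (2 ^ t) ^ (r + 1) / Q)
                (fun r => Q * (ξ r - a' r / q')) :=
            bk_int D _ hx.1 (hdvd q' hx.1 hx.le) a' ξ
          rw [h7, hGk, norm_mul]
          have h3 : ∃ r < D, rh t r < |ξ r - a' r / q'| := by
            by_contra hcon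
            push Not at hcon
            exact h1 ⟨(a', q'), hx.1, hx.2.1, hx.2.2.1, hcon⟩
          obtain ⟨r, hr, hr1⟩ := h3
          set b := ξ r - a' r / q' with hb
          have hrh0 : 0 < rh t r := by
            unfold rh
            positivity
          have hb0 : 0 < |b| := lt_trans hrh0 hr1
          have hbI : |b| ≤ rI' := hx.2.2.2 r hr
          have h8 : |(Q : ℝ) * b| = Q * |b| := by
            rw [abs_mul, abs_of_pos hQ0']
          have hL1 : 0 < (2 ^ t) ^ (r + 1) / Q :=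
            Nat.div_pos (by have := hQX r; omega) hQ0
          have h9 := DK_far' (X := (2 ^ t) ^ (r + 1) / Q) hL1
            (β := Q * b) (by
              intro h0
              rw [h0, abs_zero] at h8
              have : 0 < (Q : ℝ) * |b| := by positivity
              linarith) (by
              rw [h8]
              calc (Q : ℝ) * |b| ≤ Q * rI' := by gcongr
                _ = 1 / 4 := by rw [hrI]; field_simp
                _ ≤ 1 / 2 := by norm_num)
          have h10 : ‖bk D (fun r => (2 ^ t) ^ (r + 1) / Q)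
              (fun r => Q * (ξ r - a' r / q'))‖ ≤
              ‖DK ((2 ^ t) ^ (r + 1) / Q) (Q * b)‖ := by
            unfold bk
            rw [← mul_prod_erase _ _ (mem_range.2 hr), norm_mul]
            refine mul_le_of_le_one_right (norm_nonneg _) ?_
            rw [norm_prod]
            exact prod_le_one (fun _ _ => norm_nonneg _) fun _ _ => DK_norm_le _ _
          have h11 : ((2 ^ t : ℕ) : ℝ) ^ (r + 1) ≤
              2 * ((((2 ^ t) ^ (r + 1) / Q : ℕ) : ℝ) * Q) := by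
            have h12 := Nat.lt_div_mul_add (a := (2 ^ t) ^ (r + 1)) hQ0
            have h13 := hQX r
            have h14 : (2 ^ t) ^ (r + 1) ≤ 2 * ((2 ^ t) ^ (r + 1) / Q * Q) := by omega
            exact_mod_cast h14
          have h12 : 1 / ((((2 ^ t) ^ (r + 1) / Q : ℕ) : ℝ) * |(Q : ℝ) * b|) ≤ e t := by
            refine le_trans ?_ (he1 t ht)
            rw [h8]
            have hsq0 : 0 < √((2 ^ t : ℕ) : ℝ) := Real.sqrt_pos.2 hN0
            have hL1' : (0 : ℝ) < (((2 ^ t) ^ (r + 1) / Q : ℕ) : ℝ) := by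
              exact_mod_cast hL1
            rw [div_le_div_iff₀ (by positivity) hsq0, one_mul]
            have h15 : √((2 ^ t : ℕ) : ℝ) ≤ ((2 ^ t : ℕ) : ℝ) ^ (r + 1) * |b| := by
              unfold rh at hr1
              rw [div_lt_iff₀ (by positivity)] at hr1
              linarith
            calc √((2 ^ t : ℕ) : ℝ) ≤ ((2 ^ t : ℕ) : ℝ) ^ (r + 1) * |b| := h15
              _ ≤ 2 * ((((2 ^ t) ^ (r + 1) / Q : ℕ) : ℝ) * Q) * |b| := by gcongr
              _ = _ := by ring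
          calc ‖GS D q' a'‖ * ‖bk D (fun r => (2 ^ t) ^ (r + 1) / Q)
                (fun r => Q * (ξ r - a' r / q'))‖ ≤ 1 * e t := by
                have := GS_norm_le D q' a'
                have := (h10.trans h9).trans h12
                gcongr
            _ = e t := one_mul _
        · have hGk : G = 0 := gam_zero h2
          rw [hGk, zero_mul, norm_zero]
          exact he0 t ht
      have h7 := pow_le_pow_left₀ (norm_nonneg _) hle 2
      have : 0 ≤ e t ^ 2 := sq_nonneg _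
      rw [mul_zero]
      linarith
  have hKb := (hK.2 β T' (fun t ht r hr => (hF t ht).2.2.2 r hr)).1
  have hKb' : ∑ t ∈ T', ‖w D (2 ^ t) β - bk D (fun r => (2 ^ t) ^ (r + 1)) β‖ ^ 2 ≤ K ^ 2 := by
    rcases T'.eq_empty_or_nonempty with h0 | ⟨t, ht⟩
    · rw [h0, sum_empty]
      positivity
    · refine hKb fun r hr => ?_
      exact ((hF t ht).2.2.2 r hr).trans ((hρ1 t (mem_filter.1 ht).1 r hr).trans hrIhalf)
  have hsum2 : ∑ t ∈ T, ((if t ∈ T' then
        ‖w D (2 ^ t) β - bk D (fun r => (2 ^ t) ^ (r + 1)) β‖ else 0) : ℝ) ^ 2 ≤ K ^ 2 := by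
    refine le_trans (le_of_eq ?_) hKb'
    have e3 : ∀ t ∈ T, ((if t ∈ T' then
        ‖w D (2 ^ t) β - bk D (fun r => (2 ^ t) ^ (r + 1)) β‖ else 0) : ℝ) ^ 2 =
        if t ∈ T' then ‖w D (2 ^ t) β - bk D (fun r => (2 ^ t) ^ (r + 1)) β‖ ^ 2 else 0 := by
      intro t _
      split_ifs <;> simp
    rw [sum_congr rfl e3, ← sum_filter, filter_mem_eq_inter,
      inter_eq_right.2 (filter_subset _ _)]
  calc _ ≤ ∑ t ∈ T, (6 * e t ^ 2 + 3 * ((Cg * κ ^ s) * (if t ∈ T' then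
        ‖w D (2 ^ t) β - bk D (fun r => (2 ^ t) ^ (r + 1)) β‖ else 0)) ^ 2) :=
        sum_le_sum hterm
    _ = 6 * ∑ t ∈ T, e t ^ 2 + 3 * (Cg * κ ^ s) ^ 2 * ∑ t ∈ T, ((if t ∈ T' then
        ‖w D (2 ^ t) β - bk D (fun r => (2 ^ t) ^ (r + 1)) β‖ else 0) : ℝ) ^ 2 := by
        rw [sum_add_distrib, ← mul_sum]
        congr 1
        rw [mul_sum]
        refine sum_congr rfl fun t _ => ?_
        rw [mul_pow]
        ring
    _ ≤ 6 * E ^ 2 + 3 * (Cg * κ ^ s) ^ 2 * K ^ 2 := by gcongr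
    _ ≤ (3 * E + 3 * (Cg * κ ^ s * K)) ^ 2 := by
        have : 0 ≤ E * (Cg * κ ^ s * K) := by positivity
        nlinarith [sq_nonneg E, sq_nonneg (Cg * κ ^ s * K)]

end Pool.Agent.Zk89.PE
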