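import Pool.Agent.Zk89.PE.Blk
import Pool.Agent.Zk50.PE.TR
import Pool.Agent.Zk50.PE.BX
import Pool.Agent.Zk59.PE.AB
import Pool.Agent.Zk59.PE.GA
import Pool.Agent.Zk4.PE.EX
import Pool.Agent.Zk4.PE.DYA
import Pool.Agent.Zk17.PE.FU

/-!
# The pointwise ergodic theorem along the moment curve
-/

set_option autoImplicit false

open Finset Filter Topology MeasureTheory

noncomputable section

namespace Pool.Agent.Zk89.PE

/-- **The pointwise ergodic theorem along the moment curve**, all actions of abelian groups. -/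
theorem pg (D : ℕ) : PG D :=
  Pool.Agent.Zk17.PE.fu D Pool.Agent.Zk50.PE.thm Pool.Agent.Zk4.PE.thmEX
    (Pool.Agent.Zk4.PE.thmDYA D Pool.Agent.Zk50.PE.thm Pool.Agent.Zk59.PE.thm
      Pool.Agent.Zk50.PE.thmBX (blk D))

end Pool.Agent.Zk89.PE
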