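import Pool.Agent.Zk89.PE.Gen

/-!
# Jointly convergent actions
-/

set_option autoImplicit false
set_option linter.unusedSectionVars false

open Filter Topology MeasureTheory Polynomial ProbabilityTheory
open scoped ENNReal

noncomputable section

namespace Pool.Agent.Zk89.PE

open Pool.Agent.W761.Box (BM bx bxc Good1 Cv Cv_closed Cv_add Cv_smul Cv_zero)
open Pool.Agent.W761.Gauss (IsGaussianAction IsFactor inter_prod mp_prod BM_of_memLp)
open Pool.Agent.Zk89.AP (act act_apply gen prod_gen)

variable {X Z : Type} [MeasurableSpace X] [MeasurableSpace Z]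
  {μ : Measure X} [IsProbabilityMeasure μ] {ρ : Measure Z}
  [IsProbabilityMeasure ρ] {d d' n k : ℕ}

theorem mv_append {Ω : Type} (A : Fin d → Equiv.Perm Ω) (B : Fin d' → Equiv.Perm Ω)
    (P : Fin d → MvPolynomial (Fin k) ℤ) (Q : Fin d' → MvPolynomial (Fin k) ℤ)
    (m : Fin k → ℕ) : mv (Fin.append A B) (Fin.append P Q) m = mv A P m * mv B Q m := by
  unfold mv
  rw [← List.prod_append, ← List.ofFn_fin_append]
  congr 2
  funext i
  refine Fin.addCases (fun i => ?_) (fun i => ?_) i
  · unfold ev
    rw [Fin.append_left, Fin.append_left, Fin.append_left]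
  · unfold ev
    rw [Fin.append_right, Fin.append_right, Fin.append_right]

theorem mv_one {Ω : Type} (P : Fin d → MvPolynomial (Fin k) ℤ) (m : Fin k → ℕ) :
    mv (fun _ => (1 : Equiv.Perm Ω)) P m = 1 := by
  unfold mv
  simp only [one_zpow]
  rw [List.ofFn_const, List.prod_replicate, one_pow]

theorem gaussian_pad {T : Fin d → Equiv.Perm X} (hT : IsGaussianAction μ T) (d' : ℕ) :
    IsGaussianAction μ (Fin.append T fun _ : Fin d' => (1 : Equiv.Perm X)) := by
  refine ⟨?_, ?_, ?_, ?_⟩
  · intro i
    refine Fin.addCases (fun i => ?_) (fun i => ?_) i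
    · rw [Fin.append_left]
      exact hT.meas_symm i
    · rw [Fin.append_right]
      exact measurable_id
  · intro i
    refine Fin.addCases (fun i => ?_) (fun i => ?_) i
    · rw [Fin.append_left]
      exact hT.mp i
    · rw [Fin.append_right]
      exact MeasurePreserving.id μ
  · intro i j
    refine Fin.addCases (fun i => ?_) (fun i => ?_) i
    · refine Fin.addCases (fun j => ?_) (fun j => ?_) j
      · rw [Fin.append_left, Fin.append_left]
        exact hT.comm i j
      · rw [Fin.append_right]
        exact Commute.one_right _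
    · rw [Fin.append_right]
      exact Commute.one_left _
  · obtain ⟨H, h1, h2, h3⟩ := hT.gauss
    refine ⟨H, h1, ?_, h3⟩
    intro i
    refine Fin.addCases (fun i => ?_) (fun i => ?_) i
    · rw [Fin.append_left]
      exact h2 i
    · rw [Fin.append_right]
      intro h hh
      exact ⟨⟨h, hh, Filter.EventuallyEq.refl _ _⟩, ⟨h, hh, Filter.EventuallyEq.refl _ _⟩⟩

/-- The averages of `∏_j f_j (T^(P_j(m)) x) F (V^(Q(m)) z)` converge almost everywhere, for all
systems `V`, all bounded functions and all polynomials without mixed monomials. -/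
structure JP (μ : Measure X) (T : Fin d → Equiv.Perm X) : Prop where
  meas_symm : ∀ i, Measurable (T i).symm
  mp : ∀ i, MeasurePreserving (T i) μ μ
  comm : ∀ i j, Commute (T i) (T j)
  conv : ∀ (n k d' : ℕ) (Z : Type) [MeasurableSpace Z] (ρ : Measure Z) [IsProbabilityMeasure ρ]
    (V : Fin d' → Equiv.Perm Z), (∀ i, Measurable (V i).symm) →
    (∀ i, MeasurePreserving (V i) ρ ρ) → (∀ i j, Commute (V i) (V j)) →
    ∀ (P : Fin n → Fin d → MvPolynomial (Fin k) ℤ),
    (∀ j i, ∀ s ∈ (P j i).support, s.support.card ≤ 1) →
    ∀ (Q : Fin d' → MvPolynomial (Fin k) ℤ), (∀ i, ∀ s ∈ (Q i).support, s.support.card ≤ 1) →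
    ∀ (f : Fin n → X → ℂ), (∀ j, BM (f j)) → ∀ (F : Z → ℂ), BM F →
    ∀ᵐ p ∂(μ.prod ρ), ∃ L : ℂ, Tendsto (fun N => bxc k N fun m =>
      (∏ j, f j (mv T (P j) m p.1)) * F (mv V Q m p.2)) atTop (𝓝 L)

theorem gauss_JP {T : Fin d → Equiv.Perm X} (hT : IsGaussianAction μ T) : JP μ T := by
  refine ⟨hT.meas_symm, hT.mp, hT.comm, ?_⟩
  intro n k d' Z _ ρ _ V hVm hV hVc P hP Q hQ f hf F hF
  have h0 : ∀ s ∈ (0 : MvPolynomial (Fin k) ℤ).support, s.support.card ≤ 1 := by simp
  have h1 := gauss_conv (gaussian_pad hT d') (ρ := ρ)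
    (V := Fin.append (fun _ : Fin d => (1 : Equiv.Perm Z)) V)
    (by
      intro i
      refine Fin.addCases (fun i => ?_) (fun i => ?_) i
      · rw [Fin.append_left]
        exact measurable_id
      · rw [Fin.append_right]
        exact hVm i)
    (by
      intro i
      refine Fin.addCases (fun i => ?_) (fun i => ?_) i
      · rw [Fin.append_left]
        exact MeasurePreserving.id ρ
      · rw [Fin.append_right]
        exact hV i)
    (by
      intro i j
      refine Fin.addCases (fun i => ?_) (fun i => ?_) i
      · rw [Fin.append_left]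
        exact Commute.one_left _
      · refine Fin.addCases (fun j => ?_) (fun j => ?_) j
        · rw [Fin.append_left]
          exact Commute.one_right _
        · rw [Fin.append_right, Fin.append_right]
          exact hVc i j)
    (fun j => Fin.append (P j) fun _ => 0)
    (by
      intro j i
      refine Fin.addCases (fun i => ?_) (fun i => ?_) i
      · rw [Fin.append_left]
        exact hP j i
      · rw [Fin.append_right]
        exact h0)
    (Fin.append (fun _ => 0) Q)
    (by
      intro i
      refine Fin.addCases (fun i => ?_) (fun i => ?_) i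
      · rw [Fin.append_left]
        exact h0
      · rw [Fin.append_right]
        exact hQ i) hf hF
  refine h1.mono fun p hp => ?_
  obtain ⟨L, hL⟩ := hp
  refine ⟨L, hL.congr fun N => ?_⟩
  congr 1
  funext m
  simp only [mv_append, mv_one, mul_one, one_mul]

/-- **Maps of a product.** -/
def g3 (T : Fin d → Equiv.Perm X) (V : Fin d' → Equiv.Perm Z)
    (P : Fin d → MvPolynomial (Fin k) ℤ) (Q : Fin d' → MvPolynomial (Fin k) ℤ)
    (m : Fin k → ℕ) (p : X × Z) : X × Z :=
  (mv T P m p.1, mv V Q m p.2)

theorem g3_mp {T : Fin d → Equiv.Perm X} (hTm : ∀ i, Measurable (T i).symm)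
    (hT : ∀ i, MeasurePreserving (T i) μ μ)
    {V : Fin d' → Equiv.Perm Z} (hVm : ∀ i, Measurable (V i).symm)
    (hV : ∀ i, MeasurePreserving (V i) ρ ρ)
    (P : Fin d → MvPolynomial (Fin k) ℤ) (Q : Fin d' → MvPolynomial (Fin k) ℤ)
    (m : Fin k → ℕ) : MeasurePreserving (g3 T V P Q m) (μ.prod ρ) (μ.prod ρ) := by
  have h1 : g3 T V P Q m = Prod.map (mv T P m : X → X) (mv V Q m : Z → Z) := rfl
  rw [h1]
  exact (mp_prod hT (inv_mp hTm hT) _).prod (mp_prod hV (inv_mp hVm hV) _)

theorem g3_good {T : Fin d → Equiv.Perm X} (hTm : ∀ i, Measurable (T i).symm)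
    (hT : ∀ i, MeasurePreserving (T i) μ μ) (hTc : ∀ i j, Commute (T i) (T j))
    {V : Fin d' → Equiv.Perm Z} (hVm : ∀ i, Measurable (V i).symm)
    (hV : ∀ i, MeasurePreserving (V i) ρ ρ) (hVc : ∀ i j, Commute (V i) (V j))
    (P : Fin d → MvPolynomial (Fin k) ℤ)
    (hP : ∀ i, ∀ s ∈ (P i).support, s.support.card ≤ 1)
    (Q : Fin d' → MvPolynomial (Fin k) ℤ) (hQ : ∀ i, ∀ s ∈ (Q i).support, s.support.card ≤ 1) :
    Good1 (μ.prod ρ) (g3 T V P Q) := by
  have h0 : ∀ s ∈ (0 : MvPolynomial (Fin k) ℤ).support, s.support.card ≤ 1 := by simp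
  have h1 := g2_good (n := 1) (μ := μ) (ρ := ρ)
    (T := Fin.append T fun _ : Fin d' => (1 : Equiv.Perm X))
    (by
      intro i
      refine Fin.addCases (fun i => ?_) (fun i => ?_) i
      · rw [Fin.append_left]
        exact hTm i
      · rw [Fin.append_right]
        exact measurable_id)
    (by
      intro i
      refine Fin.addCases (fun i => ?_) (fun i => ?_) i
      · rw [Fin.append_left]
        exact hT i
      · rw [Fin.append_right]
        exact MeasurePreserving.id μ)
    (by
      intro i j
      refine Fin.addCases (fun i => ?_) (fun i => ?_) i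
      · refine Fin.addCases (fun j => ?_) (fun j => ?_) j
        · rw [Fin.append_left, Fin.append_left]
          exact hTc i j
        · rw [Fin.append_right]
          exact Commute.one_right _
      · rw [Fin.append_right]
        exact Commute.one_left _)
    (V := Fin.append (fun _ : Fin d => (1 : Equiv.Perm Z)) V)
    (by
      intro i
      refine Fin.addCases (fun i => ?_) (fun i => ?_) i
      · rw [Fin.append_left]
        exact measurable_id
      · rw [Fin.append_right]
        exact hVm i)
    (by
      intro i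
      refine Fin.addCases (fun i => ?_) (fun i => ?_) i
      · rw [Fin.append_left]
        exact MeasurePreserving.id ρ
      · rw [Fin.append_right]
        exact hV i)
    (by
      intro i j
      refine Fin.addCases (fun i => ?_) (fun i => ?_) i
      · rw [Fin.append_left]
        exact Commute.one_left _
      · refine Fin.addCases (fun j => ?_) (fun j => ?_) j
        · rw [Fin.append_left]
          exact Commute.one_right _
        · rw [Fin.append_right, Fin.append_right]
          exact hVc i j)
    (fun _ : Fin 1 => Fin.append P fun _ => 0)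
    (by
      intro j i
      refine Fin.addCases (fun i => ?_) (fun i => ?_) i
      · rw [Fin.append_left]
        exact hP i
      · rw [Fin.append_right]
        exact h0)
    (Fin.append (fun _ => 0) Q)
    (by
      intro i
      refine Fin.addCases (fun i => ?_) (fun i => ?_) i
      · rw [Fin.append_left]
        exact h0
      · rw [Fin.append_right]
        exact hQ i) 0
  have h2 : g3 T V P Q = g2 (Fin.append T fun _ : Fin d' => (1 : Equiv.Perm X))
      (Fin.append (fun _ : Fin d => (1 : Equiv.Perm Z)) V)
      (fun _ : Fin 1 => Fin.append P fun _ => 0) (Fin.append (fun _ => 0) Q) 0 := by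
    funext m p
    unfold g3 g2
    simp only [mv_append, mv_one, mul_one, one_mul]
  rw [h2]
  exact h1

end Pool.Agent.Zk89.PE
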