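import Pool.Agent.Zk89.PE.Pad

/-!
# Phases
-/

set_option autoImplicit false
set_option linter.unusedSectionVars false

open Filter Topology MeasureTheory Polynomial ProbabilityTheory
open scoped ENNReal

noncomputable section

namespace Pool.Agent.Zk89.PE

open Pool.Agent.W761.Box (BM bx bxc Good1 Cv Cv_closed Cv_add Cv_smul Cv_zero)
open Pool.Agent.W761.Gauss (mp_prod mp_zpow)

variable {X Z D : Type} [MeasurableSpace X] [MeasurableSpace Z] [MeasurableSpace D]
  {μ : Measure X} [IsProbabilityMeasure μ] {ρ : Measure Z}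
  [IsProbabilityMeasure ρ] {δ : Measure D} [IsProbabilityMeasure δ] {d d' n k : ℕ}

theorem mv_cons {Ω : Type} (A : Equiv.Perm Ω) (V : Fin d → Equiv.Perm Ω)
    (p : MvPolynomial (Fin k) ℤ) (Q : Fin d → MvPolynomial (Fin k) ℤ) (m : Fin k → ℕ) :
    mv (Fin.cons A V : Fin (d + 1) → Equiv.Perm Ω)
      (Fin.cons p Q : Fin (d + 1) → MvPolynomial (Fin k) ℤ) m =
      A ^ (MvPolynomial.eval (fun l => ((m l : ℕ) : ℤ)) p) * mv V Q m := by
  unfold mv
  rw [List.ofFn_succ, List.prod_cons]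
  rfl

theorem mv_hom {Ω Ω' : Type} (h : Equiv.Perm Ω →* Equiv.Perm Ω') (V : Fin d → Equiv.Perm Ω)
    (Q : Fin d → MvPolynomial (Fin k) ℤ) (m : Fin k → ℕ) :
    mv (fun i => h (V i)) Q m = h (mv V Q m) := by
  unfold mv
  rw [map_list_prod, List.map_ofFn]
  congr 2
  funext i
  rw [Function.comp_apply, map_zpow]

theorem exists_angle (ζ : Circle) : ∃ t : UnitAddCircle, AddCircle.toCircle t = ζ := by
  refine ⟨((Complex.arg ζ / (2 * Real.pi) : ℝ) : UnitAddCircle), ?_⟩
  rw [AddCircle.toCircle_apply_mk]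
  have : 2 * Real.pi / 1 * (Complex.arg ζ / (2 * Real.pi)) = Complex.arg ζ := by
    field_simp
  rw [this, Circle.exp_arg]

theorem addRight_zpow {A : Type*} [AddCommGroup A] (θ : A) (e : ℤ) :
    (Equiv.addRight θ : Equiv.Perm A) ^ e = Equiv.addRight (e • θ) := by
  let h : Multiplicative A →* Equiv.Perm A :=
    { toFun := fun a => Equiv.addRight (Multiplicative.toAdd a)
      map_one' := by
        apply Equiv.ext
        intro t
        show t + 0 = t
        rw [add_zero]
      map_mul' := fun a b => by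
        apply Equiv.ext
        intro t
        show t + (Multiplicative.toAdd a + Multiplicative.toAdd b) =
          t + Multiplicative.toAdd b + Multiplicative.toAdd a
        abel }
  exact (map_zpow h (Multiplicative.ofAdd θ) e).symm

/-- phases -/
def phs (l : List (Circle × MvPolynomial (Fin k) ℤ)) (m : Fin k → ℕ) : Circle :=
  (l.map fun q => q.1 ^ (MvPolynomial.eval (fun l => ((m l : ℕ) : ℤ)) q.2)).prod

theorem JP.phase {T : Fin d → Equiv.Perm X} (hJ : JP μ T)
    (P : Fin n → Fin d → MvPolynomial (Fin k) ℤ)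
    (hP : ∀ j i, ∀ s ∈ (P j i).support, s.support.card ≤ 1)
    (f : Fin n → X → ℂ) (hf : ∀ j, BM (f j)) (l : List (Circle × MvPolynomial (Fin k) ℤ)) :
    (∀ q ∈ l, ∀ s ∈ q.2.support, s.support.card ≤ 1) →
    ∀ (d' : ℕ) (Z : Type) [MeasurableSpace Z] (ρ : Measure Z) [IsProbabilityMeasure ρ]
    (V : Fin d' → Equiv.Perm Z), (∀ i, Measurable (V i).symm) →
    (∀ i, MeasurePreserving (V i) ρ ρ) → (∀ i j, Commute (V i) (V j)) →
    ∀ (Q : Fin d' → MvPolynomial (Fin k) ℤ), (∀ i, ∀ s ∈ (Q i).support, s.support.card ≤ 1) →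
    ∀ (F : Z → ℂ), BM F →
    ∀ᵐ p ∂(μ.prod ρ), ∃ L : ℂ, Tendsto (fun N => bxc k N fun m =>
      (phs l m : ℂ) * ((∏ j, f j (mv T (P j) m p.1)) * F (mv V Q m p.2))) atTop (𝓝 L) := by
  induction l with
  | nil =>
    intro _ d' Z _ ρ _ V hVm hV hVc Q hQ F hF
    refine (hJ.conv n k d' Z ρ V hVm hV hVc P hP Q hQ f hf F hF).mono fun p hp => ?_
    obtain ⟨L, hL⟩ := hp
    refine ⟨L, hL.congr fun N => ?_⟩
    congr 1
    funext m
    unfold phs
    simp
  | cons q l ih =>
    intro hl d' Z _ ρ _ V hVm hV hVc Q hQ F hF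
    obtain ⟨θ, hθ⟩ := exists_angle q.1
    let R : Measure UnitAddCircle := AddCircle.haarAddCircle (T := (1 : ℝ))
    let A : Equiv.Perm (Z × UnitAddCircle) :=
      prodR (X := Z) (MonoidHom.id (Equiv.Perm UnitAddCircle)) (Equiv.addRight θ)
    let ι : Equiv.Perm Z →* Equiv.Perm (Z × UnitAddCircle) :=
      prodL (Z := UnitAddCircle) (MonoidHom.id (Equiv.Perm Z))
    let V' : Fin (d' + 1) → Equiv.Perm (Z × UnitAddCircle) := Fin.cons A fun i => ι (V i)
    have hAι : ∀ i, Commute A (ι (V i)) := by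
      intro i
      apply Equiv.ext
      rintro ⟨z, t⟩
      rfl
    have hVm' : ∀ i, Measurable (V' i).symm := by
      intro i
      refine Fin.cases ?_ (fun i => ?_) i
      · exact measurable_fst.prodMk ((measurable_add_const (-θ)).comp measurable_snd)
      · exact ((hVm i).comp measurable_fst).prodMk measurable_snd
    have hV' : ∀ i, MeasurePreserving (V' i) (ρ.prod R) (ρ.prod R) := by
      intro i
      refine Fin.cases ?_ (fun i => ?_) i
      · exact (MeasurePreserving.id ρ).prod (measurePreserving_add_right R θ)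
      · exact (hV i).prod (MeasurePreserving.id R)
    have hVc' : ∀ i j, Commute (V' i) (V' j) := by
      intro i j
      refine Fin.cases ?_ (fun i => ?_) i
      · refine Fin.cases ?_ (fun j => ?_) j
        · exact Commute.refl _
        · exact hAι j
      · refine Fin.cases ?_ (fun j => ?_) j
        · exact (hAι i).symm
        · exact (hVc i j).map ι
    have hQ' : ∀ i, ∀ s ∈ ((Fin.cons q.2 Q : Fin (d' + 1) → MvPolynomial (Fin k) ℤ) i).support,
        s.support.card ≤ 1 := by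
      intro i
      refine Fin.cases ?_ (fun i => ?_) i
      · exact hl q List.mem_cons_self
      · exact hQ i
    have hc : Measurable fun t : UnitAddCircle => ((AddCircle.toCircle t : Circle) : ℂ) :=
      (Continuous.comp (by fun_prop : Continuous fun c : Circle => (c : ℂ))
        AddCircle.continuous_toCircle).measurable
    have hF' : BM fun p : Z × UnitAddCircle => F p.1 * ((AddCircle.toCircle p.2 : Circle) : ℂ) := by
      obtain ⟨hm, C, hC⟩ := hF
      refine ⟨(hm.comp measurable_fst).mul (hc.comp measurable_snd), C, fun p => ?_⟩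
      rw [norm_mul, Circle.norm_coe, mul_one]
      exact hC _
    have h1 := ih (fun q' hq' => hl q' (List.mem_cons_of_mem _ hq')) (d' + 1)
      (Z × UnitAddCircle) (ρ.prod R) V' hVm' hV' hVc' (Fin.cons q.2 Q) hQ' _ hF'
    have hmv : ∀ (m : Fin k → ℕ) (p : Z × UnitAddCircle), mv V' (Fin.cons q.2 Q) m p =
        (mv V Q m p.1, p.2 + (MvPolynomial.eval (fun l => ((m l : ℕ) : ℤ)) q.2) • θ) := by
      intro m p
      have e1 : mv V' (Fin.cons q.2 Q) m =
          A ^ (MvPolynomial.eval (fun l => ((m l : ℕ) : ℤ)) q.2) * ι (mv V Q m) := by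
        rw [mv_cons, mv_hom]
      rw [e1, Equiv.Perm.mul_apply]
      have e2 : A ^ (MvPolynomial.eval (fun l => ((m l : ℕ) : ℤ)) q.2) =
          prodR (X := Z) (MonoidHom.id (Equiv.Perm UnitAddCircle))
            (Equiv.addRight ((MvPolynomial.eval (fun l => ((m l : ℕ) : ℤ)) q.2) • θ)) := by
        rw [← map_zpow, addRight_zpow]
      rw [e2]
      rfl
    have h3 : ∀ᵐ p ∂(μ.prod (ρ.prod R)), ∃ L : ℂ, Tendsto (fun N => bxc k N fun m =>
        (phs (q :: l) m : ℂ) * ((∏ j, f j (mv T (P j) m p.1)) * F (mv V Q m p.2.1)))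
        atTop (𝓝 L) := by
      refine h1.mono fun p hp => ?_
      obtain ⟨L, hL⟩ := hp
      refine ⟨_, (hL.const_mul (((AddCircle.toCircle p.2.2)⁻¹ : Circle) : ℂ)).congr fun N => ?_⟩
      rw [← Pool.Agent.W761.Box.bxc_mul]
      congr 1
      funext m
      rw [hmv]
      show _ * ((phs l m : ℂ) * ((∏ j, f j (mv T (P j) m p.1)) * (F (mv V Q m p.2.1) *
        ((AddCircle.toCircle (p.2.2 + (MvPolynomial.eval (fun l => ((m l : ℕ) : ℤ)) q.2) • θ) :
          Circle) : ℂ)))) = _
      have e3 : phs (q :: l) m = (AddCircle.toCircle p.2.2)⁻¹ * (AddCircle.toCircle (p.2.2 +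
          (MvPolynomial.eval (fun l => ((m l : ℕ) : ℤ)) q.2) • θ) * phs l m) := by
        rw [AddCircle.toCircle_add, AddCircle.toCircle_zsmul, hθ]
        unfold phs
        rw [List.map_cons, List.prod_cons, mul_assoc, inv_mul_cancel_left]
      rw [e3, Circle.coe_mul, Circle.coe_mul]
      ring
    have h5 := (measurePreserving_prodAssoc μ ρ R).quasiMeasurePreserving.ae h3
    have h6 := Measure.ae_ae_of_ae_prod h5
    filter_upwards [h6] with p hp
    obtain ⟨t, ht⟩ := hp.exists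
    exact ht

theorem JP.phase' {T : Fin d → Equiv.Perm X} (hJ : JP μ T)
    (P : Fin n → Fin d → MvPolynomial (Fin k) ℤ)
    (hP : ∀ j i, ∀ s ∈ (P j i).support, s.support.card ≤ 1)
    (f : Fin n → X → ℂ) (hf : ∀ j, BM (f j)) {κ : Type} [Fintype κ]
    (c : κ → Circle) (p : κ → MvPolynomial (Fin k) ℤ)
    (hp : ∀ i, ∀ s ∈ (p i).support, s.support.card ≤ 1)
    (V : Fin d' → Equiv.Perm Z) (hVm : ∀ i, Measurable (V i).symm)
    (hV : ∀ i, MeasurePreserving (V i) ρ ρ) (hVc : ∀ i j, Commute (V i) (V j))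
    (Q : Fin d' → MvPolynomial (Fin k) ℤ) (hQ : ∀ i, ∀ s ∈ (Q i).support, s.support.card ≤ 1)
    (F : Z → ℂ) (hF : BM F) :
    ∀ᵐ q ∂(μ.prod ρ), ∃ L : ℂ, Tendsto (fun N => bxc k N fun m =>
      ((∏ i, c i ^ (MvPolynomial.eval (fun l => ((m l : ℕ) : ℤ)) (p i)) : Circle) : ℂ) *
        ((∏ j, f j (mv T (P j) m q.1)) * F (mv V Q m q.2))) atTop (𝓝 L) := by
  have h1 := hJ.phase P hP f hf ((Finset.univ : Finset κ).toList.map fun i => (c i, p i))
    (by
      intro q hq
      obtain ⟨i, _, rfl⟩ := List.mem_map.mp hq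
      exact hp i) d' Z ρ V hVm hV hVc Q hQ F hF
  refine h1.mono fun q hq => ?_
  obtain ⟨L, hL⟩ := hq
  refine ⟨L, hL.congr fun N => ?_⟩
  congr 1
  funext m
  have e : phs ((Finset.univ : Finset κ).toList.map fun i => (c i, p i)) m =
      ∏ i, c i ^ (MvPolynomial.eval (fun l => ((m l : ℕ) : ℤ)) (p i)) := by
    unfold phs
    rw [List.map_map, Finset.prod_map_toList]
    rfl
  rw [e]

/-- Bounded eigenfunctions. -/
def Eigf (δ : Measure D) (Δ : Fin d → Equiv.Perm D) : Set (D → ℂ) :=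
  {e | BM e ∧ ∀ i, ∃ c : Circle, ∀ᵐ x ∂δ, e (Δ i x) = c * e x}

theorem eig_zpow {S : Equiv.Perm D} (hS : MeasurePreserving S δ δ)
    (hS' : MeasurePreserving (S⁻¹ : Equiv.Perm D) δ δ) {e : D → ℂ} {c : Circle}
    (h : ∀ᵐ x ∂δ, e (S x) = c * e x) (z : ℤ) :
    ∀ᵐ x ∂δ, e ((S ^ z) x) = ((c ^ z : Circle) : ℂ) * e x := by
  have hn : ∀ r : ℕ, ∀ᵐ x ∂δ, e ((S ^ r) x) = ((c ^ r : Circle) : ℂ) * e x := by
    intro r
    induction r with
    | zero =>
      refine Eventually.of_forall fun x => ?_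
      simp
    | succ r ih =>
      have h3 := hS.quasiMeasurePreserving.ae ih
      filter_upwards [h3, h] with x hx hx'
      rw [pow_succ, Equiv.Perm.mul_apply, hx, hx', pow_succ, Circle.coe_mul]
      ring
  cases z with
  | ofNat r => simpa using hn r
  | negSucc r =>
    have h1 := (mp_zpow hS hS' (Int.negSucc r)).quasiMeasurePreserving.ae (hn (r + 1))
    refine h1.mono fun x hx => ?_
    have e1 : (S ^ (r + 1)) ((S ^ Int.negSucc r) x) = x := by
      rw [← Equiv.Perm.mul_apply, zpow_negSucc, mul_inv_cancel]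
      rfl
    rw [e1] at hx
    rw [hx, ← mul_assoc, ← Circle.coe_mul, zpow_negSucc c, inv_mul_cancel, Circle.coe_one, one_mul]

theorem eig_prod {e : D → ℂ} : ∀ (d : ℕ) (S : Fin d → Equiv.Perm D)
    (_ : ∀ i, MeasurePreserving (S i) δ δ)
    (_ : ∀ i, MeasurePreserving ((S i)⁻¹ : Equiv.Perm D) δ δ) (c : Fin d → Circle)
    (_ : ∀ i, ∀ᵐ x ∂δ, e (S i x) = c i * e x) (E : Fin d → ℤ),
    ∀ᵐ x ∂δ, e ((List.ofFn fun i => S i ^ E i).prod x) = ((∏ i, c i ^ E i : Circle) : ℂ) * e x
  | 0, S, _, _, c, _, E => by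
    refine Eventually.of_forall fun x => ?_
    simp
  | d + 1, S, hS, hS', c, h, E => by
    have h1 := eig_prod d (fun i => S i.succ) (fun i => hS _) (fun i => hS' _)
      (fun i => c i.succ) (fun i => h _) fun i => E i.succ
    have h4 := (mp_prod (T := fun i : Fin d => S i.succ) (fun i => hS _) (fun i => hS' _)
      fun i => E i.succ).quasiMeasurePreserving.ae (eig_zpow (hS 0) (hS' 0) (h 0) (E 0))
    filter_upwards [h1, h4] with x hx hx'
    rw [List.ofFn_succ, List.prod_cons, Equiv.Perm.mul_apply, hx', hx, Fin.prod_univ_succ,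
      Circle.coe_mul]
    ring

end Pool.Agent.Zk89.PE
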