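import Pool.Agent.Zk89.PE.Main
import Pool.Agent.Zk89.KC.Main

/-!
# One function along polynomials, all actions of abelian groups, unrestricted boxes
-/

set_option autoImplicit false
set_option linter.unusedSectionVars false

open Filter Topology MeasureTheory Polynomial

noncomputable section

namespace Pool.Agent.Zk89.PE

open Pool.Agent.Zk89.BT (G1)
open Pool.Agent.Zk89.MT (gc cav prod_poly)
open Pool.Agent.W761.Box (BM bx bxc Good1)
open Pool.Agent.Zk89.KC (el)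

theorem prod_poly' {C : Type*} [CommGroup C] {ι : Type*} [Fintype ι] (u : ι → C)
    (P : ι → ℤ[X]) : ∃ (c : C) (e : ℕ → C) (D : ℕ), ∀ n : ℕ,
      ∏ i, u i ^ ((P i).eval (n : ℤ)) = c * gc e D n := by
  classical
  obtain ⟨eq⟩ : Nonempty (ι ≃ Fin (Fintype.card ι)) := ⟨Fintype.equivFin ι⟩
  obtain ⟨c, e, D, h⟩ := prod_poly (fun i => u (eq.symm i)) fun i => P (eq.symm i)
  refine ⟨c, e, D, fun n => ?_⟩
  rw [← h n]
  exact (Equiv.prod_comp eq.symm fun i => u i ^ ((P i).eval (n : ℤ))).symm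

/-- **One function along polynomials in one variable, all actions.** -/
theorem g1_hom {X : Type} [MeasurableSpace X] {μ : Measure X} [IsProbabilityMeasure μ]
    {G : Type} [CommGroup G] {Ψ : G →* Equiv.Perm X} (hΨ : ∀ g, MeasurePreserving (Ψ g) μ μ)
    {ι : Type*} [Fintype ι] (u : ι → G) (P : ι → ℤ[X]) :
    G1 μ (fun n : ℕ => (Ψ (∏ i, u i ^ (P i).eval (n : ℤ)) : X → X)) := by
  intro H hH ⟨b, hb⟩
  obtain ⟨c, e, D, hce⟩ := prod_poly' u P
  have key := pg D hΨ e (F := fun x => (H (Ψ c x) : ℂ))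
    (Complex.measurable_ofReal.comp (hH.comp (hΨ c).measurable)) ⟨b, fun x => by
      rw [Complex.norm_real, Real.norm_eq_abs]
      exact hb _⟩
  filter_upwards [key] with x hx
  obtain ⟨L, hL⟩ := hx
  refine ⟨L.re, ((Complex.continuous_re.tendsto L).comp hL).congr fun N => ?_⟩
  simp only [Function.comp_apply]
  unfold cav
  have e1 : (N : ℂ)⁻¹ * ∑ n ∈ Finset.range N, ((H (Ψ c (Ψ (gc e D n) x)) : ℝ) : ℂ) =
      (((N : ℝ)⁻¹ * ∑ n ∈ Finset.range N, H (Ψ c (Ψ (gc e D n) x)) : ℝ) : ℂ) := by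
    push_cast
    rfl
  rw [e1, Complex.ofReal_re]
  congr 1
  refine Finset.sum_congr rfl fun n _ => ?_
  rw [hce n, map_mul]
  rfl

/-- **Unrestricted boxes.** -/
theorem good_box {X : Type} [MeasurableSpace X] {μ : Measure X} [IsProbabilityMeasure μ]
    {G : Type} [CommGroup G] {Ψ : G →* Equiv.Perm X} (hΨ : ∀ g, MeasurePreserving (Ψ g) μ μ)
    {ι : Type*} [Fintype ι] {k : ℕ} (c : G) (u : ι → G) (P : Fin k → ι → ℤ[X]) :
    Good1 μ (fun m : Fin k → ℕ => (Ψ (c * ∏ l, ∏ i, u i ^ (P l i).eval (m l : ℤ)) : X → X)) := by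
  have h1 := Pool.Agent.Zk89.KC.good_el (Φ := Ψ) hΨ c
    (fun l (t : ℕ) => ∏ i, u i ^ (P l i).eval (t : ℤ)) fun l => g1_hom hΨ u (P l)
  unfold el at h1
  simp only [List.prod_ofFn] at h1
  exact h1

theorem bxc_ofReal (k : ℕ) (N : Fin k → ℕ) (a : (Fin k → ℕ) → ℝ) :
    bxc k N (fun m => ((a m : ℝ) : ℂ)) = ((bx k N a : ℝ) : ℂ) := by
  unfold bxc bx
  push_cast
  rfl

theorem good_complex {X : Type*} [MeasurableSpace X] {μ : Measure X} {k : ℕ}
    {g : (Fin k → ℕ) → X → X} (h : Good1 μ g) {F : X → ℂ} (hF : Measurable F)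
    (hb : ∃ C : ℝ, ∀ x, ‖F x‖ ≤ C) :
    ∀ᵐ x ∂μ, ∃ L, Tendsto (fun N => bxc k N fun m => F (g m x)) atTop (𝓝 L) := by
  obtain ⟨C, hC⟩ := hb
  have h1 := h (fun x => (F x).re) (Complex.measurable_re.comp hF)
    ⟨C, fun x => (Complex.abs_re_le_norm _).trans (hC x)⟩
  have h2 := h (fun x => (F x).im) (Complex.measurable_im.comp hF)
    ⟨C, fun x => (Complex.abs_im_le_norm _).trans (hC x)⟩
  filter_upwards [h1, h2] with x hx1 hx2
  obtain ⟨L₁, hL₁⟩ := hx1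
  obtain ⟨L₂, hL₂⟩ := hx2
  refine ⟨(L₁ : ℂ) + Complex.I * L₂, ?_⟩
  have h3 := ((Complex.continuous_ofReal.tendsto _).comp hL₁).add
    (((Complex.continuous_ofReal.tendsto _).comp hL₂).const_mul Complex.I)
  refine h3.congr fun N => ?_
  simp only [Function.comp_apply]
  rw [← bxc_ofReal, ← bxc_ofReal, ← Pool.Agent.W761.Box.bxc_mul, ← Pool.Agent.W761.Box.bxc_add]
  congr 1
  funext m
  rw [mul_comm]
  exact Complex.re_add_im _

/-- the hypothesis of `S_GA`, `S_GAX` -/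
theorem good_W {G : Type} [CommGroup G] {ι : Type*} [Fintype ι] {k : ℕ} (u : ι → G)
    (P : Fin k → ι → ℤ[X]) {Ω : Type} [MeasurableSpace Ω] {ρ : Measure Ω}
    [IsProbabilityMeasure ρ] {Ψ : G →* Equiv.Perm Ω} (hΨ : ∀ g, MeasurePreserving (Ψ g) ρ ρ)
    (F : Ω → ℂ) (hF : Measurable F) (hb : ∃ C : ℝ, ∀ ω, ‖F ω‖ ≤ C) :
    ∀ᵐ ω ∂ρ, ∃ L, Tendsto (fun N => bxc k N fun m =>
      F (Ψ (∏ l, ∏ i, u i ^ (P l i).eval (m l : ℤ)) ω)) atTop (𝓝 L) := by
  have h1 := good_box hΨ (1 : G) u P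
  simp only [one_mul] at h1
  exact good_complex h1 hF hb

end Pool.Agent.Zk89.PE
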